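import Pool.Agent.Q143.MW.Defs

/-!
# The Mani–Walkup complex: the sign contradictions for the first list of tetrahedra

Generated by a program: in each of the four cases for the orientations of the tetrahedra `abcd`,
`dmrq`, `mnop` (up to a global sign) some three-term Grassmann–Plücker relations give a
contradiction.
-/

set_option autoImplicit false

namespace Pool.Agent.Q143.MW

open Vertex

theorem case_ppp {g : Vertex → Vertex → Vertex → Vertex → Vertex → ℝ} (hg : Alt g)
    (F_abcd : ∀ x : Vertex, (x ≠ a ∧ x ≠ b ∧ x ≠ c ∧ x ≠ d) → 0 < g a b c d x)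
    (F_dmrq : ∀ x : Vertex, (x ≠ d ∧ x ≠ m ∧ x ≠ r ∧ x ≠ q) → 0 < g d m r q x)
    (F_mnop : ∀ x : Vertex, (x ≠ m ∧ x ≠ n ∧ x ≠ o ∧ x ≠ p) → 0 < g m n o p x)
    (fac : SignCondition facets g) : False := by
  obtain ⟨s12, s23, s34, s45, gp⟩ := hg
  have G_acdr := fac a c d r (by simp [facets])
  have G_mopq := fac m o p q (by simp [facets])
  have G_cpmq := fac c p m q (by simp [facets])
  have G_mnoq := fac m n o q (by simp [facets])
  have G_cdor := fac c d o r (by simp [facets])
  have G_dapr := fac d a p r (by simp [facets])
  have G_abcr := fac a b c r (by simp [facets])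
  have G_abmr := fac a b m r (by simp [facets])
  have G_bcnr := fac b c n r (by simp [facets])
  have F_acdr : ∀ x : Vertex, (x ≠ a ∧ x ≠ c ∧ x ≠ d ∧ x ≠ r) → g a c d r x < 0 :=
    (G_acdr).resolve_left fun h => by linarith [h b (by decide), F_abcd r (by decide), (s45 a c d r b), (s34 a c d b r), (s23 a c b d r)]
  have h17 : 0 < g a c d o r := by linarith [F_acdr o (by decide), (s45 a c d r o)]
  have h90 : 0 < g c m n o p := by linarith [F_mnop c (by decide), (s45 m n o p c), (s34 m n o c p), (s23 m n c o p), (s12 m c n o p)]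
  have h147 : g c d m q r < 0 := by linarith [F_dmrq c (by decide), (s34 d m r q c), (s45 d m q r c), (s34 d m q c r), (s23 d m c q r), (s12 d c m q r)]
  have F_mopq : ∀ x : Vertex, (x ≠ m ∧ x ≠ o ∧ x ≠ p ∧ x ≠ q) → g m o p q x < 0 :=
    (G_mopq).resolve_left fun h => by linarith [h n (by decide), F_mnop q (by decide), (s45 m o p q n), (s34 m o p n q), (s23 m o n p q)]
  have h107 : g m o p q r < 0 := by linarith [F_mopq r (by decide)]
  have h150 : g d m p q r < 0 := by linarith [F_dmrq p (by decide), (s34 d m r q p), (s45 d m q r p), (s34 d m q p r)]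
  have F_cpmq : ∀ x : Vertex, (x ≠ c ∧ x ≠ p ∧ x ≠ m ∧ x ≠ q) → 0 < g c p m q x :=
    (G_cpmq).resolve_right fun h => by linarith [h o (by decide), F_mopq c (by decide), (s45 m o p q c), (s34 m o p c q), (s23 m o c p q), (s12 m c o p q), (s23 c p m q o), (s45 c m p q o), (s34 c m p o q)]
  have h142 : g c m p q r < 0 := by linarith [F_cpmq r (by decide), (s23 c p m q r)]
  have h149 : g d m o q r < 0 := by linarith [F_dmrq o (by decide), (s34 d m r q o), (s45 d m q r o), (s34 d m q o r)]
  have h203 : g c m o q r < 0 := by
    have e := gp m q r c d o p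
    rw [(show g m q r c d = g c d m q r by linarith [(s34 m q r c d), (s45 m q c r d), (s23 m q c d r), (s34 m c q d r), (s12 m c d q r), (s23 c m d q r)]),
      (show g m q r o p = g m o p q r by linarith [(s34 m q r o p), (s45 m q o r p), (s23 m q o p r), (s34 m o q p r)]),
      (show g m q r c o = -g c m o q r by linarith [(s34 m q r c o), (s45 m q c r o), (s23 m q c o r), (s34 m c q o r), (s12 m c o q r)]),
      (show g m q r d p = -g d m p q r by linarith [(s34 m q r d p), (s45 m q d r p), (s23 m q d p r), (s34 m d q p r), (s12 m d p q r)]),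
      (show g m q r c p = -g c m p q r by linarith [(s34 m q r c p), (s45 m q c r p), (s23 m q c p r), (s34 m c q p r), (s12 m c p q r)]),
      (show g m q r d o = -g d m o q r by linarith [(s34 m q r d o), (s45 m q d r o), (s23 m q d o r), (s34 m d q o r), (s12 m d o q r)])] at e
    by_contra hc
    have hc := not_lt.mp hc
    linarith [e, mul_pos_of_neg_of_neg h147 h107, mul_nonpos_of_nonneg_of_nonpos hc h150.le, mul_pos_of_neg_of_neg h142 h149]
  have F_mnoq : ∀ x : Vertex, (x ≠ m ∧ x ≠ n ∧ x ≠ o ∧ x ≠ q) → g m n o q x < 0 :=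
    (G_mnoq).resolve_left fun h => by linarith [h p (by decide), F_mnop q (by decide), (s45 m n o q p)]
  have h98 : g c m n o q < 0 := by linarith [F_mnoq c (by decide), (s45 m n o q c), (s34 m n o c q), (s23 m n c o q), (s12 m c n o q)]
  have F_cdor : ∀ x : Vertex, (x ≠ c ∧ x ≠ d ∧ x ≠ o ∧ x ≠ r) → 0 < g c d o r x :=
    (G_cdor).resolve_right fun h => by linarith [h a (by decide), F_acdr o (by decide), (s45 a c d r o), (s45 c d o r a), (s34 c d o a r), (s23 c d a o r), (s12 c a d o r)]
  have h51 : 0 < g c d m o r := by linarith [F_cdor m (by decide), (s45 c d o r m), (s34 c d o m r)]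
  have h15 : 0 < g a c d m r := by linarith [F_acdr m (by decide), (s45 a c d r m)]
  have F_dapr : ∀ x : Vertex, (x ≠ d ∧ x ≠ a ∧ x ≠ p ∧ x ≠ r) → 0 < g d a p r x :=
    (G_dapr).resolve_right fun h => by linarith [h c (by decide), F_acdr p (by decide), (s45 a c d r p), (s12 d a p r c), (s45 a d p r c), (s34 a d p c r), (s23 a d c p r)]
  have h58 : g a d m p r < 0 := by linarith [F_dapr m (by decide), (s12 d a p r m), (s45 a d p r m), (s34 a d p m r)]
  have h145 : g a d m q r < 0 := by linarith [F_dmrq a (by decide), (s34 d m r q a), (s45 d m q r a), (s34 d m q a r), (s23 d m a q r), (s12 d a m q r)]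
  have h194 : g c d m p r < 0 := by
    have e := gp d m r a c p q
    rw [(show g d m r a c = g a c d m r by linarith [(s34 d m r a c), (s45 d m a r c), (s23 d m a c r), (s34 d a m c r), (s12 d a c m r), (s23 a d c m r)]),
      (show g d m r p q = g d m p q r by linarith [(s34 d m r p q), (s45 d m p r q)]),
      (show g d m r a p = g a d m p r by linarith [(s34 d m r a p), (s45 d m a r p), (s23 d m a p r), (s12 d a m p r)]),
      (show g d m r c q = g c d m q r by linarith [(s34 d m r c q), (s45 d m c r q), (s23 d m c q r), (s12 d c m q r)]),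
      (show g d m r a q = g a d m q r by linarith [(s34 d m r a q), (s45 d m a r q), (s23 d m a q r), (s12 d a m q r)]),
      (show g d m r c p = g c d m p r by linarith [(s34 d m r c p), (s45 d m c r p), (s23 d m c p r), (s12 d c m p r)])] at e
    by_contra hc
    have hc := not_lt.mp hc
    linarith [e, mul_neg_of_pos_of_neg h15 h150, mul_pos_of_neg_of_neg h58 h147, mul_nonpos_of_nonpos_of_nonneg h145.le hc]
  have h216 : g c m o p r < 0 := by
    have e := gp c m r d o p q
    rw [(show g c m r d o = -g c d m o r by linarith [(s34 c m r d o), (s45 c m d r o), (s23 c m d o r)]),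
      (show g c m r p q = g c m p q r by linarith [(s34 c m r p q), (s45 c m p r q)]),
      (show g c m r d p = -g c d m p r by linarith [(s34 c m r d p), (s45 c m d r p), (s23 c m d p r)]),
      (show g c m r o q = g c m o q r by linarith [(s34 c m r o q), (s45 c m o r q)]),
      (show g c m r d q = -g c d m q r by linarith [(s34 c m r d q), (s45 c m d r q), (s23 c m d q r)]),
      (show g c m r o p = g c m o p r by linarith [(s34 c m r o p), (s45 c m o r p)])] at e
    by_contra hc
    have hc := not_lt.mp hc
    linarith [e, mul_neg_of_pos_of_neg h51 h142, mul_pos_of_neg_of_neg h194 h203, mul_nonpos_of_nonpos_of_nonneg h147.le hc]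
  have h105 : g c m o p q < 0 := by linarith [F_mopq c (by decide), (s45 m o p q c), (s34 m o p c q), (s23 m o c p q), (s12 m c o p q)]
  have h248 : g c m n o r < 0 := by
    have e := gp c m o n p q r
    rw [(show g c m o n p = -g c m n o p by linarith [(s34 c m o n p)]),
      (show g c m o n q = -g c m n o q by linarith [(s34 c m o n q)]),
      (show g c m o n r = -g c m n o r by linarith [(s34 c m o n r)])] at e
    by_contra hc
    have hc := not_lt.mp hc
    linarith [e, mul_neg_of_pos_of_neg h90 h203, mul_pos_of_neg_of_neg h98 h216, mul_nonpos_of_nonneg_of_nonpos hc h105.le]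
  have F_abcr : ∀ x : Vertex, (x ≠ a ∧ x ≠ b ∧ x ≠ c ∧ x ≠ r) → g a b c r x < 0 :=
    (G_abcr).resolve_left fun h => by linarith [h d (by decide), F_abcd r (by decide), (s45 a b c r d)]
  have h8 : 0 < g a b c m r := by linarith [F_abcr m (by decide), (s45 a b c r m)]
  have F_abmr : ∀ x : Vertex, (x ≠ a ∧ x ≠ b ∧ x ≠ m ∧ x ≠ r) → 0 < g a b m r x :=
    (G_abmr).resolve_right fun h => by linarith [h c (by decide), F_abcr m (by decide), (s45 a b c r m), (s45 a b m r c), (s34 a b m c r)]
  have h36 : 0 < g a b d m r := by linarith [F_abmr d (by decide), (s45 a b m r d), (s34 a b m d r)]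
  have h40 : g a b m q r < 0 := by linarith [F_abmr q (by decide), (s45 a b m r q)]
  have h181 : g a c m q r < 0 := by
    have e := gp a m r b c d q
    rw [(show g a m r b c = g a b c m r by linarith [(s34 a m r b c), (s45 a m b r c), (s23 a m b c r), (s34 a b m c r)]),
      (show g a m r d q = -g a d m q r by linarith [(s34 a m r d q), (s45 a m d r q), (s23 a m d q r)]),
      (show g a m r b d = g a b d m r by linarith [(s34 a m r b d), (s45 a m b r d), (s23 a m b d r), (s34 a b m d r)]),
      (show g a m r c q = -g a c m q r by linarith [(s34 a m r c q), (s45 a m c r q), (s23 a m c q r)]),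
      (show g a m r b q = -g a b m q r by linarith [(s34 a m r b q), (s45 a m b r q), (s23 a m b q r)]),
      (show g a m r c d = g a c d m r by linarith [(s34 a m r c d), (s45 a m c r d), (s23 a m c d r), (s34 a c m d r)])] at e
    by_contra hc
    have hc := not_lt.mp hc
    linarith [e, mul_neg_of_pos_of_neg h8 h145, mul_nonneg h36.le hc, mul_neg_of_neg_of_pos h40 h15]
  have h214 : 0 < g a c m o r := by
    have e := gp c m r a d o q
    rw [(show g c m r a d = -g a c d m r by linarith [(s34 c m r a d), (s45 c m a r d), (s23 c m a d r), (s34 c a m d r), (s12 c a d m r)]),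
      (show g c m r o q = g c m o q r by linarith [(s34 c m r o q), (s45 c m o r q)]),
      (show g c m r a o = g a c m o r by linarith [(s34 c m r a o), (s45 c m a r o), (s23 c m a o r), (s12 c a m o r)]),
      (show g c m r d q = -g c d m q r by linarith [(s34 c m r d q), (s45 c m d r q), (s23 c m d q r)]),
      (show g c m r a q = g a c m q r by linarith [(s34 c m r a q), (s45 c m a r q), (s23 c m a q r), (s12 c a m q r)]),
      (show g c m r d o = -g c d m o r by linarith [(s34 c m r d o), (s45 c m d r o), (s23 c m d o r)])] at e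
    by_contra hc
    have hc := not_lt.mp hc
    linarith [e, mul_neg_of_pos_of_neg h15 h203, mul_nonneg_of_nonpos_of_nonpos hc h147.le, mul_neg_of_neg_of_pos h181 h51]
  have h52 : 0 < g c d n o r := by linarith [F_cdor n (by decide), (s45 c d o r n), (s34 c d o n r)]
  have h9 : 0 < g a b c n r := by linarith [F_abcr n (by decide), (s45 a b c r n)]
  have h16 : 0 < g a c d n r := by linarith [F_acdr n (by decide), (s45 a c d r n)]
  have F_bcnr : ∀ x : Vertex, (x ≠ b ∧ x ≠ c ∧ x ≠ n ∧ x ≠ r) → 0 < g b c n r x :=
    (G_bcnr).resolve_right fun h => by linarith [h a (by decide), F_abcr n (by decide), (s45 a b c r n), (s45 b c n r a), (s34 b c n a r), (s23 b c a n r), (s12 b a c n r)]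
  have h45 : g b c n o r < 0 := by linarith [F_bcnr o (by decide), (s45 b c n r o)]
  have h43 : 0 < g b c d n r := by linarith [F_bcnr d (by decide), (s45 b c n r d), (s34 b c n d r)]
  have h189 : g a c n o r < 0 := by
    have e := gp c n r a b d o
    rw [(show g c n r a b = g a b c n r by linarith [(s34 c n r a b), (s45 c n a r b), (s23 c n a b r), (s34 c a n b r), (s12 c a b n r), (s23 a c b n r)]),
      (show g c n r d o = -g c d n o r by linarith [(s34 c n r d o), (s45 c n d r o), (s23 c n d o r)]),
      (show g c n r a d = -g a c d n r by linarith [(s34 c n r a d), (s45 c n a r d), (s23 c n a d r), (s34 c a n d r), (s12 c a d n r)]),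
      (show g c n r b o = g b c n o r by linarith [(s34 c n r b o), (s45 c n b r o), (s23 c n b o r), (s12 c b n o r)]),
      (show g c n r a o = g a c n o r by linarith [(s34 c n r a o), (s45 c n a r o), (s23 c n a o r), (s12 c a n o r)]),
      (show g c n r b d = -g b c d n r by linarith [(s34 c n r b d), (s45 c n b r d), (s23 c n b d r), (s34 c b n d r), (s12 c b d n r)])] at e
    by_contra hc
    have hc := not_lt.mp hc
    linarith [e, mul_pos h9 h52, mul_neg_of_pos_of_neg h16 h45, mul_nonneg hc h43.le]
  have e := gp c o r a d m n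
  rw [(show g c o r a d = -g a c d o r by linarith [(s34 c o r a d), (s45 c o a r d), (s23 c o a d r), (s34 c a o d r), (s12 c a d o r)]),
    (show g c o r m n = g c m n o r by linarith [(s34 c o r m n), (s45 c o m r n), (s23 c o m n r), (s34 c m o n r)]),
    (show g c o r a m = -g a c m o r by linarith [(s34 c o r a m), (s45 c o a r m), (s23 c o a m r), (s34 c a o m r), (s12 c a m o r)]),
    (show g c o r d n = g c d n o r by linarith [(s34 c o r d n), (s45 c o d r n), (s23 c o d n r), (s34 c d o n r)]),
    (show g c o r a n = -g a c n o r by linarith [(s34 c o r a n), (s45 c o a r n), (s23 c o a n r), (s34 c a o n r), (s12 c a n o r)]),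
    (show g c o r d m = g c d m o r by linarith [(s34 c o r d m), (s45 c o d r m), (s23 c o d m r), (s34 c d o m r)])] at e
  linarith [e, mul_neg_of_pos_of_neg h17 h248, mul_pos h214 h52, mul_neg_of_neg_of_pos h189 h51]

theorem case_ppm {g : Vertex → Vertex → Vertex → Vertex → Vertex → ℝ} (hg : Alt g)
    (F_abcd : ∀ x : Vertex, (x ≠ a ∧ x ≠ b ∧ x ≠ c ∧ x ≠ d) → 0 < g a b c d x)
    (F_dmrq : ∀ x : Vertex, (x ≠ d ∧ x ≠ m ∧ x ≠ r ∧ x ≠ q) → 0 < g d m r q x)
    (F_mnop : ∀ x : Vertex, (x ≠ m ∧ x ≠ n ∧ x ≠ o ∧ x ≠ p) → g m n o p x < 0)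
    (fac : SignCondition facets g) : False := by
  obtain ⟨s12, s23, s34, s45, gp⟩ := hg
  have G_acdr := fac a c d r (by simp [facets])
  have G_dapr := fac d a p r (by simp [facets])
  have G_mnoq := fac m n o q (by simp [facets])
  have G_mopq := fac m o p q (by simp [facets])
  have G_anoq := fac a n o q (by simp [facets])
  have G_abcr := fac a b c r (by simp [facets])
  have G_abmr := fac a b m r (by simp [facets])
  have G_cdor := fac c d o r (by simp [facets])
  have G_cpmq := fac c p m q (by simp [facets])
  have F_acdr : ∀ x : Vertex, (x ≠ a ∧ x ≠ c ∧ x ≠ d ∧ x ≠ r) → g a c d r x < 0 :=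
    (G_acdr).resolve_left fun h => by linarith [h b (by decide), F_abcd r (by decide), (s45 a c d r b), (s34 a c d b r), (s23 a c b d r)]
  have F_dapr : ∀ x : Vertex, (x ≠ d ∧ x ≠ a ∧ x ≠ p ∧ x ≠ r) → 0 < g d a p r x :=
    (G_dapr).resolve_right fun h => by linarith [h c (by decide), F_acdr p (by decide), (s45 a c d r p), (s12 d a p r c), (s45 a d p r c), (s34 a d p c r), (s23 a d c p r)]
  have h58 : g a d m p r < 0 := by linarith [F_dapr m (by decide), (s12 d a p r m), (s45 a d p r m), (s34 a d p m r)]
  have F_mnoq : ∀ x : Vertex, (x ≠ m ∧ x ≠ n ∧ x ≠ o ∧ x ≠ q) → 0 < g m n o q x :=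
    (G_mnoq).resolve_right fun h => by linarith [h p (by decide), F_mnop q (by decide), (s45 m n o q p)]
  have h96 : 0 < g a m n o q := by linarith [F_mnoq a (by decide), (s45 m n o q a), (s34 m n o a q), (s23 m n a o q), (s12 m a n o q)]
  have F_mopq : ∀ x : Vertex, (x ≠ m ∧ x ≠ o ∧ x ≠ p ∧ x ≠ q) → 0 < g m o p q x :=
    (G_mopq).resolve_right fun h => by linarith [h n (by decide), F_mnop q (by decide), (s45 m o p q n), (s34 m o p n q), (s23 m o n p q)]
  have h103 : 0 < g a m o p q := by linarith [F_mopq a (by decide), (s45 m o p q a), (s34 m o p a q), (s23 m o a p q), (s12 m a o p q)]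
  have F_anoq : ∀ x : Vertex, (x ≠ a ∧ x ≠ n ∧ x ≠ o ∧ x ≠ q) → g a n o q x < 0 :=
    (G_anoq).resolve_left fun h => by linarith [h m (by decide), F_mnoq a (by decide), (s45 m n o q a), (s34 m n o a q), (s23 m n a o q), (s12 m a n o q), (s45 a n o q m), (s34 a n o m q), (s23 a n m o q)]
  have h128 : g a n o q r < 0 := by linarith [F_anoq r (by decide)]
  have F_abcr : ∀ x : Vertex, (x ≠ a ∧ x ≠ b ∧ x ≠ c ∧ x ≠ r) → g a b c r x < 0 :=
    (G_abcr).resolve_left fun h => by linarith [h d (by decide), F_abcd r (by decide), (s45 a b c r d)]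
  have F_abmr : ∀ x : Vertex, (x ≠ a ∧ x ≠ b ∧ x ≠ m ∧ x ≠ r) → 0 < g a b m r x :=
    (G_abmr).resolve_right fun h => by linarith [h c (by decide), F_abcr m (by decide), (s45 a b c r m), (s45 a b m r c), (s34 a b m c r)]
  have h36 : 0 < g a b d m r := by linarith [F_abmr d (by decide), (s45 a b m r d), (s34 a b m d r)]
  have h38 : g a b m o r < 0 := by linarith [F_abmr o (by decide), (s45 a b m r o)]
  have h145 : g a d m q r < 0 := by linarith [F_dmrq a (by decide), (s34 d m r q a), (s45 d m q r a), (s34 d m q a r), (s23 d m a q r), (s12 d a m q r)]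
  have h40 : g a b m q r < 0 := by linarith [F_abmr q (by decide), (s45 a b m r q)]
  have h15 : 0 < g a c d m r := by linarith [F_acdr m (by decide), (s45 a c d r m)]
  have h149 : g d m o q r < 0 := by linarith [F_dmrq o (by decide), (s34 d m r q o), (s45 d m q r o), (s34 d m q o r)]
  have h147 : g c d m q r < 0 := by linarith [F_dmrq c (by decide), (s34 d m r q c), (s45 d m q r c), (s34 d m q c r), (s23 d m c q r), (s12 d c m q r)]
  have F_cdor : ∀ x : Vertex, (x ≠ c ∧ x ≠ d ∧ x ≠ o ∧ x ≠ r) → 0 < g c d o r x :=
    (G_cdor).resolve_right fun h => by linarith [h a (by decide), F_acdr o (by decide), (s45 a c d r o), (s45 c d o r a), (s34 c d o a r), (s23 c d a o r), (s12 c a d o r)]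
  have h51 : 0 < g c d m o r := by linarith [F_cdor m (by decide), (s45 c d o r m), (s34 c d o m r)]
  have h193 : 0 < g a d m o r := by
    have e := gp d m r a c o q
    rw [(show g d m r a c = g a c d m r by linarith [(s34 d m r a c), (s45 d m a r c), (s23 d m a c r), (s34 d a m c r), (s12 d a c m r), (s23 a d c m r)]),
      (show g d m r o q = g d m o q r by linarith [(s34 d m r o q), (s45 d m o r q)]),
      (show g d m r a o = g a d m o r by linarith [(s34 d m r a o), (s45 d m a r o), (s23 d m a o r), (s12 d a m o r)]),
      (show g d m r c q = g c d m q r by linarith [(s34 d m r c q), (s45 d m c r q), (s23 d m c q r), (s12 d c m q r)]),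
      (show g d m r a q = g a d m q r by linarith [(s34 d m r a q), (s45 d m a r q), (s23 d m a q r), (s12 d a m q r)]),
      (show g d m r c o = g c d m o r by linarith [(s34 d m r c o), (s45 d m c r o), (s23 d m c o r), (s12 d c m o r)])] at e
    by_contra hc
    have hc := not_lt.mp hc
    linarith [e, mul_neg_of_pos_of_neg h15 h149, mul_nonneg_of_nonpos_of_nonpos hc h147.le, mul_neg_of_neg_of_pos h145 h51]
  have h207 : 0 < g a m o q r := by
    have e := gp a m r b d o q
    rw [(show g a m r b d = g a b d m r by linarith [(s34 a m r b d), (s45 a m b r d), (s23 a m b d r), (s34 a b m d r)]),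
      (show g a m r o q = g a m o q r by linarith [(s34 a m r o q), (s45 a m o r q)]),
      (show g a m r b o = -g a b m o r by linarith [(s34 a m r b o), (s45 a m b r o), (s23 a m b o r)]),
      (show g a m r d q = -g a d m q r by linarith [(s34 a m r d q), (s45 a m d r q), (s23 a m d q r)]),
      (show g a m r b q = -g a b m q r by linarith [(s34 a m r b q), (s45 a m b r q), (s23 a m b q r)]),
      (show g a m r d o = -g a d m o r by linarith [(s34 a m r d o), (s45 a m d r o), (s23 a m d o r)])] at e
    by_contra hc
    have hc := not_lt.mp hc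
    linarith [e, mul_nonpos_of_nonneg_of_nonpos h36.le hc, mul_pos_of_neg_of_neg h38 h145, mul_neg_of_neg_of_pos h40 h193]
  have h127 : 0 < g a n o p q := by linarith [F_anoq p (by decide), (s45 a n o q p)]
  have h240 : g a o p q r < 0 := by
    have e := gp a o q m n p r
    rw [(show g a o q m n = g a m n o q by linarith [(s34 a o q m n), (s45 a o m q n), (s23 a o m n q), (s34 a m o n q)]),
      (show g a o q p r = -g a o p q r by linarith [(s34 a o q p r)]),
      (show g a o q m p = -g a m o p q by linarith [(s34 a o q m p), (s45 a o m q p), (s23 a o m p q)]),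
      (show g a o q n r = g a n o q r by linarith [(s34 a o q n r), (s23 a o n q r)]),
      (show g a o q m r = g a m o q r by linarith [(s34 a o q m r), (s23 a o m q r)]),
      (show g a o q n p = -g a n o p q by linarith [(s34 a o q n p), (s45 a o n q p), (s23 a o n p q)])] at e
    by_contra hc
    have hc := not_lt.mp hc
    linarith [e, mul_nonneg h96.le hc, mul_neg_of_pos_of_neg h103 h128, mul_pos h207 h127]
  have h60 : g a d o p r < 0 := by linarith [F_dapr o (by decide), (s12 d a p r o), (s45 a d p r o), (s34 a d p o r)]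
  have h8 : 0 < g a b c m r := by linarith [F_abcr m (by decide), (s45 a b c r m)]
  have h39 : g a b m p r < 0 := by linarith [F_abmr p (by decide), (s45 a b m r p)]
  have h180 : g a c m p r < 0 := by
    have e := gp a m r b c d p
    rw [(show g a m r b c = g a b c m r by linarith [(s34 a m r b c), (s45 a m b r c), (s23 a m b c r), (s34 a b m c r)]),
      (show g a m r d p = -g a d m p r by linarith [(s34 a m r d p), (s45 a m d r p), (s23 a m d p r)]),
      (show g a m r b d = g a b d m r by linarith [(s34 a m r b d), (s45 a m b r d), (s23 a m b d r), (s34 a b m d r)]),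
      (show g a m r c p = -g a c m p r by linarith [(s34 a m r c p), (s45 a m c r p), (s23 a m c p r)]),
      (show g a m r b p = -g a b m p r by linarith [(s34 a m r b p), (s45 a m b r p), (s23 a m b p r)]),
      (show g a m r c d = g a c d m r by linarith [(s34 a m r c d), (s45 a m c r d), (s23 a m c d r), (s34 a c m d r)])] at e
    by_contra hc
    have hc := not_lt.mp hc
    linarith [e, mul_neg_of_pos_of_neg h8 h58, mul_nonneg h36.le hc, mul_neg_of_neg_of_pos h39 h15]
  have h150 : g d m p q r < 0 := by linarith [F_dmrq p (by decide), (s34 d m r q p), (s45 d m q r p), (s34 d m q p r)]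
  have F_cpmq : ∀ x : Vertex, (x ≠ c ∧ x ≠ p ∧ x ≠ m ∧ x ≠ q) → g c p m q x < 0 :=
    (G_cpmq).resolve_left fun h => by linarith [h o (by decide), F_mopq c (by decide), (s45 m o p q c), (s34 m o p c q), (s23 m o c p q), (s12 m c o p q), (s23 c p m q o), (s45 c m p q o), (s34 c m p o q)]
  have h142 : 0 < g c m p q r := by linarith [F_cpmq r (by decide), (s23 c p m q r)]
  have h194 : g c d m p r < 0 := by
    have e := gp d m r a c p q
    rw [(show g d m r a c = g a c d m r by linarith [(s34 d m r a c), (s45 d m a r c), (s23 d m a c r), (s34 d a m c r), (s12 d a c m r), (s23 a d c m r)]),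
      (show g d m r p q = g d m p q r by linarith [(s34 d m r p q), (s45 d m p r q)]),
      (show g d m r a p = g a d m p r by linarith [(s34 d m r a p), (s45 d m a r p), (s23 d m a p r), (s12 d a m p r)]),
      (show g d m r c q = g c d m q r by linarith [(s34 d m r c q), (s45 d m c r q), (s23 d m c q r), (s12 d c m q r)]),
      (show g d m r a q = g a d m q r by linarith [(s34 d m r a q), (s45 d m a r q), (s23 d m a q r), (s12 d a m q r)]),
      (show g d m r c p = g c d m p r by linarith [(s34 d m r c p), (s45 d m c r p), (s23 d m c p r), (s12 d c m p r)])] at e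
    by_contra hc
    have hc := not_lt.mp hc
    linarith [e, mul_neg_of_pos_of_neg h15 h150, mul_pos_of_neg_of_neg h58 h147, mul_nonpos_of_nonpos_of_nonneg h145.le hc]
  have h224 : 0 < g a m p q r := by
    have e := gp m p r a c d q
    rw [(show g m p r a c = g a c m p r by linarith [(s34 m p r a c), (s45 m p a r c), (s23 m p a c r), (s34 m a p c r), (s12 m a c p r), (s23 a m c p r)]),
      (show g m p r d q = g d m p q r by linarith [(s34 m p r d q), (s45 m p d r q), (s23 m p d q r), (s12 m d p q r)]),
      (show g m p r a d = g a d m p r by linarith [(s34 m p r a d), (s45 m p a r d), (s23 m p a d r), (s34 m a p d r), (s12 m a d p r), (s23 a m d p r)]),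
      (show g m p r c q = g c m p q r by linarith [(s34 m p r c q), (s45 m p c r q), (s23 m p c q r), (s12 m c p q r)]),
      (show g m p r a q = g a m p q r by linarith [(s34 m p r a q), (s45 m p a r q), (s23 m p a q r), (s12 m a p q r)]),
      (show g m p r c d = g c d m p r by linarith [(s34 m p r c d), (s45 m p c r d), (s23 m p c d r), (s34 m c p d r), (s12 m c d p r), (s23 c m d p r)])] at e
    by_contra hc
    have hc := not_lt.mp hc
    linarith [e, mul_pos_of_neg_of_neg h180 h150, mul_neg_of_neg_of_pos h58 h142, mul_nonneg_of_nonpos_of_nonpos hc h194.le]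
  have h61 : 0 < g a d p q r := by linarith [F_dapr q (by decide), (s12 d a p r q), (s45 a d p r q)]
  have h206 : 0 < g a m o p r := by
    have e := gp a m r b d o p
    rw [(show g a m r b d = g a b d m r by linarith [(s34 a m r b d), (s45 a m b r d), (s23 a m b d r), (s34 a b m d r)]),
      (show g a m r o p = g a m o p r by linarith [(s34 a m r o p), (s45 a m o r p)]),
      (show g a m r b o = -g a b m o r by linarith [(s34 a m r b o), (s45 a m b r o), (s23 a m b o r)]),
      (show g a m r d p = -g a d m p r by linarith [(s34 a m r d p), (s45 a m d r p), (s23 a m d p r)]),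
      (show g a m r b p = -g a b m p r by linarith [(s34 a m r b p), (s45 a m b r p), (s23 a m b p r)]),
      (show g a m r d o = -g a d m o r by linarith [(s34 a m r d o), (s45 a m d r o), (s23 a m d o r)])] at e
    by_contra hc
    have hc := not_lt.mp hc
    linarith [e, mul_nonpos_of_nonneg_of_nonpos h36.le hc, mul_pos_of_neg_of_neg h38 h58, mul_neg_of_neg_of_pos h39 h193]
  have e := gp a p r d m o q
  rw [(show g a p r d m = g a d m p r by linarith [(s34 a p r d m), (s45 a p d r m), (s23 a p d m r), (s34 a d p m r)]),
    (show g a p r o q = -g a o p q r by linarith [(s34 a p r o q), (s45 a p o r q), (s23 a p o q r)]),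
    (show g a p r d o = g a d o p r by linarith [(s34 a p r d o), (s45 a p d r o), (s23 a p d o r), (s34 a d p o r)]),
    (show g a p r m q = -g a m p q r by linarith [(s34 a p r m q), (s45 a p m r q), (s23 a p m q r)]),
    (show g a p r d q = -g a d p q r by linarith [(s34 a p r d q), (s45 a p d r q), (s23 a p d q r)]),
    (show g a p r m o = g a m o p r by linarith [(s34 a p r m o), (s45 a p m r o), (s23 a p m o r), (s34 a m p o r)])] at e
  linarith [e, mul_pos_of_neg_of_neg h58 h240, mul_neg_of_neg_of_pos h60 h224, mul_pos h61 h206]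

theorem case_pmp {g : Vertex → Vertex → Vertex → Vertex → Vertex → ℝ} (hg : Alt g)
    (F_abcd : ∀ x : Vertex, (x ≠ a ∧ x ≠ b ∧ x ≠ c ∧ x ≠ d) → 0 < g a b c d x)
    (F_dmrq : ∀ x : Vertex, (x ≠ d ∧ x ≠ m ∧ x ≠ r ∧ x ≠ q) → g d m r q x < 0)
    (F_mnop : ∀ x : Vertex, (x ≠ m ∧ x ≠ n ∧ x ≠ o ∧ x ≠ p) → 0 < g m n o p x)
    (fac : SignCondition facets g) : False := by
  obtain ⟨s12, s23, s34, s45, gp⟩ := hg
  have G_acdr := fac a c d r (by simp [facets])
  have G_dapr := fac d a p r (by simp [facets])
  have G_abcr := fac a b c r (by simp [facets])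
  have G_abmr := fac a b m r (by simp [facets])
  have G_dmrs := fac d m r s (by simp [facets])
  have G_mnps := fac m n p s (by simp [facets])
  have G_cpms := fac c p m s (by simp [facets])
  have G_nops := fac n o p s (by simp [facets])
  have G_anos := fac a n o s (by simp [facets])
  have G_mnoq := fac m n o q (by simp [facets])
  have G_cpmq := fac c p m q (by simp [facets])
  have G_mopq := fac m o p q (by simp [facets])
  have G_anoq := fac a n o q (by simp [facets])
  have F_acdr : ∀ x : Vertex, (x ≠ a ∧ x ≠ c ∧ x ≠ d ∧ x ≠ r) → g a c d r x < 0 :=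
    (G_acdr).resolve_left fun h => by linarith [h b (by decide), F_abcd r (by decide), (s45 a c d r b), (s34 a c d b r), (s23 a c b d r)]
  have F_dapr : ∀ x : Vertex, (x ≠ d ∧ x ≠ a ∧ x ≠ p ∧ x ≠ r) → 0 < g d a p r x :=
    (G_dapr).resolve_right fun h => by linarith [h c (by decide), F_acdr p (by decide), (s45 a c d r p), (s12 d a p r c), (s45 a d p r c), (s34 a d p c r), (s23 a d c p r)]
  have h59 : g a d n p r < 0 := by linarith [F_dapr n (by decide), (s12 d a p r n), (s45 a d p r n), (s34 a d p n r)]
  have h58 : g a d m p r < 0 := by linarith [F_dapr m (by decide), (s12 d a p r m), (s45 a d p r m), (s34 a d p m r)]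
  have h61 : 0 < g a d p q r := by linarith [F_dapr q (by decide), (s12 d a p r q), (s45 a d p r q)]
  have F_abcr : ∀ x : Vertex, (x ≠ a ∧ x ≠ b ∧ x ≠ c ∧ x ≠ r) → g a b c r x < 0 :=
    (G_abcr).resolve_left fun h => by linarith [h d (by decide), F_abcd r (by decide), (s45 a b c r d)]
  have h8 : 0 < g a b c m r := by linarith [F_abcr m (by decide), (s45 a b c r m)]
  have F_abmr : ∀ x : Vertex, (x ≠ a ∧ x ≠ b ∧ x ≠ m ∧ x ≠ r) → 0 < g a b m r x :=
    (G_abmr).resolve_right fun h => by linarith [h c (by decide), F_abcr m (by decide), (s45 a b c r m), (s45 a b m r c), (s34 a b m c r)]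
  have h36 : 0 < g a b d m r := by linarith [F_abmr d (by decide), (s45 a b m r d), (s34 a b m d r)]
  have h39 : g a b m p r < 0 := by linarith [F_abmr p (by decide), (s45 a b m r p)]
  have h15 : 0 < g a c d m r := by linarith [F_acdr m (by decide), (s45 a c d r m)]
  have h180 : g a c m p r < 0 := by
    have e := gp a m r b c d p
    rw [(show g a m r b c = g a b c m r by linarith [(s34 a m r b c), (s45 a m b r c), (s23 a m b c r), (s34 a b m c r)]),
      (show g a m r d p = -g a d m p r by linarith [(s34 a m r d p), (s45 a m d r p), (s23 a m d p r)]),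
      (show g a m r b d = g a b d m r by linarith [(s34 a m r b d), (s45 a m b r d), (s23 a m b d r), (s34 a b m d r)]),
      (show g a m r c p = -g a c m p r by linarith [(s34 a m r c p), (s45 a m c r p), (s23 a m c p r)]),
      (show g a m r b p = -g a b m p r by linarith [(s34 a m r b p), (s45 a m b r p), (s23 a m b p r)]),
      (show g a m r c d = g a c d m r by linarith [(s34 a m r c d), (s45 a m c r d), (s23 a m c d r), (s34 a c m d r)])] at e
    by_contra hc
    have hc := not_lt.mp hc
    linarith [e, mul_neg_of_pos_of_neg h8 h58, mul_nonneg h36.le hc, mul_neg_of_neg_of_pos h39 h15]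
  have F_dmrs : ∀ x : Vertex, (x ≠ d ∧ x ≠ m ∧ x ≠ r ∧ x ≠ s) → 0 < g d m r s x :=
    (G_dmrs).resolve_right fun h => by linarith [h q (by decide), F_dmrq s (by decide), (s34 d m r q s), (s45 d m r s q), (s34 d m r q s)]
  have h176 : 0 < g d m p r s := by linarith [F_dmrs p (by decide), (s45 d m r s p), (s34 d m r p s)]
  have F_mnps : ∀ x : Vertex, (x ≠ m ∧ x ≠ n ∧ x ≠ p ∧ x ≠ s) → 0 < g m n p s x :=
    (G_mnps).resolve_right fun h => by linarith [h o (by decide), F_mnop s (by decide), (s45 m n p s o), (s34 m n p o s)]
  have F_cpms : ∀ x : Vertex, (x ≠ c ∧ x ≠ p ∧ x ≠ m ∧ x ≠ s) → g c p m s x < 0 :=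
    (G_cpms).resolve_left fun h => by linarith [h n (by decide), F_mnps c (by decide), (s45 m n p s c), (s34 m n p c s), (s23 m n c p s), (s12 m c n p s), (s23 c p m s n), (s45 c m p s n), (s34 c m p n s)]
  have h169 : g c m p r s < 0 := by linarith [F_cpms r (by decide), (s23 c p m s r), (s45 c m p s r)]
  have h150 : 0 < g d m p q r := by linarith [F_dmrq p (by decide), (s34 d m r q p), (s45 d m q r p), (s34 d m q p r)]
  have h147 : 0 < g c d m q r := by linarith [F_dmrq c (by decide), (s34 d m r q c), (s45 d m q r c), (s34 d m q c r), (s23 d m c q r), (s12 d c m q r)]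
  have h145 : 0 < g a d m q r := by linarith [F_dmrq a (by decide), (s34 d m r q a), (s45 d m q r a), (s34 d m q a r), (s23 d m a q r), (s12 d a m q r)]
  have h194 : g c d m p r < 0 := by
    have e := gp d m r a c p q
    rw [(show g d m r a c = g a c d m r by linarith [(s34 d m r a c), (s45 d m a r c), (s23 d m a c r), (s34 d a m c r), (s12 d a c m r), (s23 a d c m r)]),
      (show g d m r p q = g d m p q r by linarith [(s34 d m r p q), (s45 d m p r q)]),
      (show g d m r a p = g a d m p r by linarith [(s34 d m r a p), (s45 d m a r p), (s23 d m a p r), (s12 d a m p r)]),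
      (show g d m r c q = g c d m q r by linarith [(s34 d m r c q), (s45 d m c r q), (s23 d m c q r), (s12 d c m q r)]),
      (show g d m r a q = g a d m q r by linarith [(s34 d m r a q), (s45 d m a r q), (s23 d m a q r), (s12 d a m q r)]),
      (show g d m r c p = g c d m p r by linarith [(s34 d m r c p), (s45 d m c r p), (s23 d m c p r), (s12 d c m p r)])] at e
    by_contra hc
    have hc := not_lt.mp hc
    linarith [e, mul_pos h15 h150, mul_neg_of_neg_of_pos h58 h147, mul_nonneg h145.le hc]
  have h226 : g a m p r s < 0 := by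
    have e := gp m p r a c d s
    rw [(show g m p r a c = g a c m p r by linarith [(s34 m p r a c), (s45 m p a r c), (s23 m p a c r), (s34 m a p c r), (s12 m a c p r), (s23 a m c p r)]),
      (show g m p r d s = -g d m p r s by linarith [(s34 m p r d s), (s23 m p d r s), (s12 m d p r s)]),
      (show g m p r a d = g a d m p r by linarith [(s34 m p r a d), (s45 m p a r d), (s23 m p a d r), (s34 m a p d r), (s12 m a d p r), (s23 a m d p r)]),
      (show g m p r c s = -g c m p r s by linarith [(s34 m p r c s), (s23 m p c r s), (s12 m c p r s)]),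
      (show g m p r a s = -g a m p r s by linarith [(s34 m p r a s), (s23 m p a r s), (s12 m a p r s)]),
      (show g m p r c d = g c d m p r by linarith [(s34 m p r c d), (s45 m p c r d), (s23 m p c d r), (s34 m c p d r), (s12 m c d p r), (s23 c m d p r)])] at e
    by_contra hc
    have hc := not_lt.mp hc
    linarith [e, mul_neg_of_neg_of_pos h180 h176, mul_pos_of_neg_of_neg h58 h169, mul_nonpos_of_nonneg_of_nonpos hc h194.le]
  have h62 : g a d p r s < 0 := by linarith [F_dapr s (by decide), (s12 d a p r s)]
  have h40 : g a b m q r < 0 := by linarith [F_abmr q (by decide), (s45 a b m r q)]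
  have h182 : g a m p q r < 0 := by
    have e := gp a m r b d p q
    rw [(show g a m r b d = g a b d m r by linarith [(s34 a m r b d), (s45 a m b r d), (s23 a m b d r), (s34 a b m d r)]),
      (show g a m r p q = g a m p q r by linarith [(s34 a m r p q), (s45 a m p r q)]),
      (show g a m r b p = -g a b m p r by linarith [(s34 a m r b p), (s45 a m b r p), (s23 a m b p r)]),
      (show g a m r d q = -g a d m q r by linarith [(s34 a m r d q), (s45 a m d r q), (s23 a m d q r)]),
      (show g a m r b q = -g a b m q r by linarith [(s34 a m r b q), (s45 a m b r q), (s23 a m b q r)]),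
      (show g a m r d p = -g a d m p r by linarith [(s34 a m r d p), (s45 a m d r p), (s23 a m d p r)])] at e
    by_contra hc
    have hc := not_lt.mp hc
    linarith [e, mul_nonneg h36.le hc, mul_neg_of_neg_of_pos h39 h145, mul_pos_of_neg_of_neg h40 h58]
  have h248 : 0 < g a p q r s := by
    have e := gp a p r d m q s
    rw [(show g a p r d m = g a d m p r by linarith [(s34 a p r d m), (s45 a p d r m), (s23 a p d m r), (s34 a d p m r)]),
      (show g a p r q s = -g a p q r s by linarith [(s34 a p r q s)]),
      (show g a p r d q = -g a d p q r by linarith [(s34 a p r d q), (s45 a p d r q), (s23 a p d q r)]),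
      (show g a p r m s = g a m p r s by linarith [(s34 a p r m s), (s23 a p m r s)]),
      (show g a p r d s = g a d p r s by linarith [(s34 a p r d s), (s23 a p d r s)]),
      (show g a p r m q = -g a m p q r by linarith [(s34 a p r m q), (s45 a p m r q), (s23 a p m q r)])] at e
    by_contra hc
    have hc := not_lt.mp hc
    linarith [e, mul_nonneg_of_nonpos_of_nonpos h58.le hc, mul_neg_of_pos_of_neg h61 h226, mul_pos_of_neg_of_neg h62 h182]
  have F_nops : ∀ x : Vertex, (x ≠ n ∧ x ≠ o ∧ x ≠ p ∧ x ≠ s) → 0 < g n o p s x :=
    (G_nops).resolve_right fun h => by linarith [h m (by decide), F_mnop s (by decide), (s45 n o p s m), (s34 n o p m s), (s23 n o m p s), (s12 n m o p s)]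
  have F_anos : ∀ x : Vertex, (x ≠ a ∧ x ≠ n ∧ x ≠ o ∧ x ≠ s) → g a n o s x < 0 :=
    (G_anos).resolve_left fun h => by linarith [h p (by decide), F_nops a (by decide), (s45 n o p s a), (s34 n o p a s), (s23 n o a p s), (s12 n a o p s), (s45 a n o s p)]
  have h156 : 0 < g a m n o s := by linarith [F_anos m (by decide), (s45 a n o s m), (s34 a n o m s), (s23 a n m o s)]
  have h117 : 0 < g a m n p s := by linarith [F_mnps a (by decide), (s45 m n p s a), (s34 m n p a s), (s23 m n a p s), (s12 m a n p s)]
  have h157 : 0 < g a n o r s := by linarith [F_anos r (by decide), (s45 a n o s r)]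
  have h171 : 0 < g a d m r s := by linarith [F_dmrs a (by decide), (s45 d m r s a), (s34 d m r a s), (s23 d m a r s), (s12 d a m r s)]
  have h41 : 0 < g a b m r s := by linarith [F_abmr s (by decide)]
  have h181 : 0 < g a c m r s := by
    have e := gp a m r b c d s
    rw [(show g a m r b c = g a b c m r by linarith [(s34 a m r b c), (s45 a m b r c), (s23 a m b c r), (s34 a b m c r)]),
      (show g a m r d s = g a d m r s by linarith [(s34 a m r d s), (s23 a m d r s)]),
      (show g a m r b d = g a b d m r by linarith [(s34 a m r b d), (s45 a m b r d), (s23 a m b d r), (s34 a b m d r)]),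
      (show g a m r c s = g a c m r s by linarith [(s34 a m r c s), (s23 a m c r s)]),
      (show g a m r b s = g a b m r s by linarith [(s34 a m r b s), (s23 a m b r s)]),
      (show g a m r c d = g a c d m r by linarith [(s34 a m r c d), (s45 a m c r d), (s23 a m c d r), (s34 a c m d r)])] at e
    by_contra hc
    have hc := not_lt.mp hc
    linarith [e, mul_pos h8 h171, mul_nonpos_of_nonneg_of_nonpos h36.le hc, mul_pos h41 h15]
  have h174 : 0 < g d m n r s := by linarith [F_dmrs n (by decide), (s45 d m r s n), (s34 d m r n s)]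
  have h173 : 0 < g c d m r s := by linarith [F_dmrs c (by decide), (s45 d m r s c), (s34 d m r c s), (s23 d m c r s), (s12 d c m r s)]
  have h122 : g m n p r s < 0 := by linarith [F_mnps r (by decide), (s45 m n p s r)]
  have h205 : g c m n r s < 0 := by
    have e := gp m r s c d n p
    rw [(show g m r s c d = g c d m r s by linarith [(s34 m r s c d), (s45 m r c s d), (s23 m r c d s), (s34 m c r d s), (s12 m c d r s), (s23 c m d r s)]),
      (show g m r s n p = g m n p r s by linarith [(s34 m r s n p), (s45 m r n s p), (s23 m r n p s), (s34 m n r p s)]),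
      (show g m r s c n = -g c m n r s by linarith [(s34 m r s c n), (s45 m r c s n), (s23 m r c n s), (s34 m c r n s), (s12 m c n r s)]),
      (show g m r s d p = -g d m p r s by linarith [(s34 m r s d p), (s45 m r d s p), (s23 m r d p s), (s34 m d r p s), (s12 m d p r s)]),
      (show g m r s c p = -g c m p r s by linarith [(s34 m r s c p), (s45 m r c s p), (s23 m r c p s), (s34 m c r p s), (s12 m c p r s)]),
      (show g m r s d n = -g d m n r s by linarith [(s34 m r s d n), (s45 m r d s n), (s23 m r d n s), (s34 m d r n s), (s12 m d n r s)])] at e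
    by_contra hc
    have hc := not_lt.mp hc
    linarith [e, mul_neg_of_pos_of_neg h173 h122, mul_nonneg hc h176.le, mul_neg_of_neg_of_pos h169 h174]
  have h230 : g a m n r s < 0 := by
    have e := gp m r s a c d n
    rw [(show g m r s a c = g a c m r s by linarith [(s34 m r s a c), (s45 m r a s c), (s23 m r a c s), (s34 m a r c s), (s12 m a c r s), (s23 a m c r s)]),
      (show g m r s d n = -g d m n r s by linarith [(s34 m r s d n), (s45 m r d s n), (s23 m r d n s), (s34 m d r n s), (s12 m d n r s)]),
      (show g m r s a d = g a d m r s by linarith [(s34 m r s a d), (s45 m r a s d), (s23 m r a d s), (s34 m a r d s), (s12 m a d r s), (s23 a m d r s)]),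
      (show g m r s c n = -g c m n r s by linarith [(s34 m r s c n), (s45 m r c s n), (s23 m r c n s), (s34 m c r n s), (s12 m c n r s)]),
      (show g m r s a n = -g a m n r s by linarith [(s34 m r s a n), (s45 m r a s n), (s23 m r a n s), (s34 m a r n s), (s12 m a n r s)]),
      (show g m r s c d = g c d m r s by linarith [(s34 m r s c d), (s45 m r c s d), (s23 m r c d s), (s34 m c r d s), (s12 m c d r s), (s23 c m d r s)])] at e
    by_contra hc
    have hc := not_lt.mp hc
    linarith [e, mul_pos h181 h174, mul_neg_of_pos_of_neg h171 h205, mul_nonneg hc h173.le]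
  have h110 : 0 < g a n o p s := by linarith [F_nops a (by decide), (s45 n o p s a), (s34 n o p a s), (s23 n o a p s), (s12 n a o p s)]
  have h241 : 0 < g a n p r s := by
    have e := gp a n s m o p r
    rw [(show g a n s m o = -g a m n o s by linarith [(s34 a n s m o), (s45 a n m s o), (s23 a n m o s)]),
      (show g a n s p r = g a n p r s by linarith [(s34 a n s p r), (s45 a n p s r)]),
      (show g a n s m p = -g a m n p s by linarith [(s34 a n s m p), (s45 a n m s p), (s23 a n m p s)]),
      (show g a n s o r = g a n o r s by linarith [(s34 a n s o r), (s45 a n o s r)]),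
      (show g a n s m r = -g a m n r s by linarith [(s34 a n s m r), (s45 a n m s r), (s23 a n m r s)]),
      (show g a n s o p = g a n o p s by linarith [(s34 a n s o p), (s45 a n o s p)])] at e
    by_contra hc
    have hc := not_lt.mp hc
    linarith [e, mul_nonpos_of_nonneg_of_nonpos h156.le hc, mul_pos h117 h157, mul_neg_of_neg_of_pos h230 h110]
  have F_mnoq : ∀ x : Vertex, (x ≠ m ∧ x ≠ n ∧ x ≠ o ∧ x ≠ q) → g m n o q x < 0 :=
    (G_mnoq).resolve_left fun h => by linarith [h p (by decide), F_mnop q (by decide), (s45 m n o q p)]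
  have h96 : g a m n o q < 0 := by linarith [F_mnoq a (by decide), (s45 m n o q a), (s34 m n o a q), (s23 m n a o q), (s12 m a n o q)]
  have F_cpmq : ∀ x : Vertex, (x ≠ c ∧ x ≠ p ∧ x ≠ m ∧ x ≠ q) → 0 < g c p m q x :=
    (G_cpmq).resolve_right fun h => by linarith [h s (by decide), F_cpms q (by decide), (s23 c p m s q), (s45 c m p s q), (s23 c p m q s)]
  have h138 : g a c m p q < 0 := by linarith [F_cpmq a (by decide), (s23 c p m q a), (s45 c m p q a), (s34 c m p a q), (s23 c m a p q), (s12 c a m p q)]
  have h148 : 0 < g d m n q r := by linarith [F_dmrq n (by decide), (s34 d m r q n), (s45 d m q r n), (s34 d m q n r)]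
  have F_mopq : ∀ x : Vertex, (x ≠ m ∧ x ≠ o ∧ x ≠ p ∧ x ≠ q) → g m o p q x < 0 :=
    (G_mopq).resolve_left fun h => by linarith [h n (by decide), F_mnop q (by decide), (s45 m o p q n), (s34 m o p n q), (s23 m o n p q)]
  have h107 : g m o p q r < 0 := by linarith [F_mopq r (by decide)]
  have h149 : 0 < g d m o q r := by linarith [F_dmrq o (by decide), (s34 d m r q o), (s45 d m q r o), (s34 d m q o r)]
  have h100 : g m n o q r < 0 := by linarith [F_mnoq r (by decide)]
  have h204 : g m n p q r < 0 := by
    have e := gp m q r d n o p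
    rw [(show g m q r d n = -g d m n q r by linarith [(s34 m q r d n), (s45 m q d r n), (s23 m q d n r), (s34 m d q n r), (s12 m d n q r)]),
      (show g m q r o p = g m o p q r by linarith [(s34 m q r o p), (s45 m q o r p), (s23 m q o p r), (s34 m o q p r)]),
      (show g m q r d o = -g d m o q r by linarith [(s34 m q r d o), (s45 m q d r o), (s23 m q d o r), (s34 m d q o r), (s12 m d o q r)]),
      (show g m q r n p = g m n p q r by linarith [(s34 m q r n p), (s45 m q n r p), (s23 m q n p r), (s34 m n q p r)]),
      (show g m q r d p = -g d m p q r by linarith [(s34 m q r d p), (s45 m q d r p), (s23 m q d p r), (s34 m d q p r), (s12 m d p q r)]),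
      (show g m q r n o = g m n o q r by linarith [(s34 m q r n o), (s45 m q n r o), (s23 m q n o r), (s34 m n q o r)])] at e
    by_contra hc
    have hc := not_lt.mp hc
    linarith [e, mul_neg_of_pos_of_neg h148 h107, mul_nonneg h149.le hc, mul_neg_of_pos_of_neg h150 h100]
  have h142 : g c m p q r < 0 := by linarith [F_cpmq r (by decide), (s23 c p m q r)]
  have h141 : g c m n p q < 0 := by linarith [F_cpmq n (by decide), (s23 c p m q n), (s45 c m p q n), (s34 c m p n q)]
  have h225 : g a m n p q < 0 := by
    have e := gp m p q a c n r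
    rw [(show g m p q a c = g a c m p q by linarith [(s34 m p q a c), (s45 m p a q c), (s23 m p a c q), (s34 m a p c q), (s12 m a c p q), (s23 a m c p q)]),
      (show g m p q n r = g m n p q r by linarith [(s34 m p q n r), (s23 m p n q r)]),
      (show g m p q a n = -g a m n p q by linarith [(s34 m p q a n), (s45 m p a q n), (s23 m p a n q), (s34 m a p n q), (s12 m a n p q)]),
      (show g m p q c r = -g c m p q r by linarith [(s34 m p q c r), (s23 m p c q r), (s12 m c p q r)]),
      (show g m p q a r = -g a m p q r by linarith [(s34 m p q a r), (s23 m p a q r), (s12 m a p q r)]),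
      (show g m p q c n = -g c m n p q by linarith [(s34 m p q c n), (s45 m p c q n), (s23 m p c n q), (s34 m c p n q), (s12 m c n p q)])] at e
    by_contra hc
    have hc := not_lt.mp hc
    linarith [e, mul_pos_of_neg_of_neg h138 h204, mul_nonpos_of_nonneg_of_nonpos hc h142.le, mul_pos_of_neg_of_neg h182 h141]
  have F_anoq : ∀ x : Vertex, (x ≠ a ∧ x ≠ n ∧ x ≠ o ∧ x ≠ q) → 0 < g a n o q x :=
    (G_anoq).resolve_right fun h => by linarith [h m (by decide), F_mnoq a (by decide), (s45 m n o q a), (s34 m n o a q), (s23 m n a o q), (s12 m a n o q), (s45 a n o q m), (s34 a n o m q), (s23 a n m o q)]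
  have h128 : 0 < g a n o q r := by linarith [F_anoq r (by decide)]
  have h227 : g a m n q r < 0 := by
    have e := gp m q r a d n p
    rw [(show g m q r a d = g a d m q r by linarith [(s34 m q r a d), (s45 m q a r d), (s23 m q a d r), (s34 m a q d r), (s12 m a d q r), (s23 a m d q r)]),
      (show g m q r n p = g m n p q r by linarith [(s34 m q r n p), (s45 m q n r p), (s23 m q n p r), (s34 m n q p r)]),
      (show g m q r a n = -g a m n q r by linarith [(s34 m q r a n), (s45 m q a r n), (s23 m q a n r), (s34 m a q n r), (s12 m a n q r)]),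
      (show g m q r d p = -g d m p q r by linarith [(s34 m q r d p), (s45 m q d r p), (s23 m q d p r), (s34 m d q p r), (s12 m d p q r)]),
      (show g m q r a p = -g a m p q r by linarith [(s34 m q r a p), (s45 m q a r p), (s23 m q a p r), (s34 m a q p r), (s12 m a p q r)]),
      (show g m q r d n = -g d m n q r by linarith [(s34 m q r d n), (s45 m q d r n), (s23 m q d n r), (s34 m d q n r), (s12 m d n q r)])] at e
    by_contra hc
    have hc := not_lt.mp hc
    linarith [e, mul_neg_of_pos_of_neg h145 h204, mul_nonneg hc h150.le, mul_neg_of_neg_of_pos h182 h148]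
  have h127 : g a n o p q < 0 := by linarith [F_anoq p (by decide), (s45 a n o q p)]
  have h239 : 0 < g a n p q r := by
    have e := gp a n q m o p r
    rw [(show g a n q m o = -g a m n o q by linarith [(s34 a n q m o), (s45 a n m q o), (s23 a n m o q)]),
      (show g a n q p r = -g a n p q r by linarith [(s34 a n q p r)]),
      (show g a n q m p = -g a m n p q by linarith [(s34 a n q m p), (s45 a n m q p), (s23 a n m p q)]),
      (show g a n q o r = -g a n o q r by linarith [(s34 a n q o r)]),
      (show g a n q m r = g a m n q r by linarith [(s34 a n q m r), (s23 a n m q r)]),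
      (show g a n q o p = g a n o p q by linarith [(s34 a n q o p), (s45 a n o q p)])] at e
    by_contra hc
    have hc := not_lt.mp hc
    linarith [e, mul_nonneg_of_nonpos_of_nonpos h96.le hc, mul_neg_of_neg_of_pos h225 h128, mul_pos_of_neg_of_neg h227 h127]
  have e := gp a p r d n q s
  rw [(show g a p r d n = g a d n p r by linarith [(s34 a p r d n), (s45 a p d r n), (s23 a p d n r), (s34 a d p n r)]),
    (show g a p r q s = -g a p q r s by linarith [(s34 a p r q s)]),
    (show g a p r d q = -g a d p q r by linarith [(s34 a p r d q), (s45 a p d r q), (s23 a p d q r)]),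
    (show g a p r n s = g a n p r s by linarith [(s34 a p r n s), (s23 a p n r s)]),
    (show g a p r d s = g a d p r s by linarith [(s34 a p r d s), (s23 a p d r s)]),
    (show g a p r n q = -g a n p q r by linarith [(s34 a p r n q), (s45 a p n r q), (s23 a p n q r)])] at e
  linarith [e, mul_neg_of_neg_of_pos h59 h248, mul_pos h61 h241, mul_neg_of_neg_of_pos h62 h239]

theorem case_pmm {g : Vertex → Vertex → Vertex → Vertex → Vertex → ℝ} (hg : Alt g)
    (F_abcd : ∀ x : Vertex, (x ≠ a ∧ x ≠ b ∧ x ≠ c ∧ x ≠ d) → 0 < g a b c d x)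
    (F_dmrq : ∀ x : Vertex, (x ≠ d ∧ x ≠ m ∧ x ≠ r ∧ x ≠ q) → g d m r q x < 0)
    (F_mnop : ∀ x : Vertex, (x ≠ m ∧ x ≠ n ∧ x ≠ o ∧ x ≠ p) → g m n o p x < 0)
    (fac : SignCondition facets g) : False := by
  obtain ⟨s12, s23, s34, s45, gp⟩ := hg
  have G_mopq := fac m o p q (by simp [facets])
  have G_cpmq := fac c p m q (by simp [facets])
  have G_acdr := fac a c d r (by simp [facets])
  have G_dapr := fac d a p r (by simp [facets])
  have G_abcr := fac a b c r (by simp [facets])
  have G_abmr := fac a b m r (by simp [facets])
  have G_cdor := fac c d o r (by simp [facets])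
  have G_cdot := fac c d o t (by simp [facets])
  have G_dapt := fac d a p t (by simp [facets])
  have G_abmt := fac a b m t (by simp [facets])
  have F_mopq : ∀ x : Vertex, (x ≠ m ∧ x ≠ o ∧ x ≠ p ∧ x ≠ q) → 0 < g m o p q x :=
    (G_mopq).resolve_right fun h => by linarith [h n (by decide), F_mnop q (by decide), (s45 m o p q n), (s34 m o p n q), (s23 m o n p q)]
  have F_cpmq : ∀ x : Vertex, (x ≠ c ∧ x ≠ p ∧ x ≠ m ∧ x ≠ q) → g c p m q x < 0 :=
    (G_cpmq).resolve_left fun h => by linarith [h o (by decide), F_mopq c (by decide), (s45 m o p q c), (s34 m o p c q), (s23 m o c p q), (s12 m c o p q), (s23 c p m q o), (s45 c m p q o), (s34 c m p o q)]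
  have h142 : 0 < g c m p q r := by linarith [F_cpmq r (by decide), (s23 c p m q r)]
  have h138 : 0 < g a c m p q := by linarith [F_cpmq a (by decide), (s23 c p m q a), (s45 c m p q a), (s34 c m p a q), (s23 c m a p q), (s12 c a m p q)]
  have F_acdr : ∀ x : Vertex, (x ≠ a ∧ x ≠ c ∧ x ≠ d ∧ x ≠ r) → g a c d r x < 0 :=
    (G_acdr).resolve_left fun h => by linarith [h b (by decide), F_abcd r (by decide), (s45 a c d r b), (s34 a c d b r), (s23 a c b d r)]
  have h15 : 0 < g a c d m r := by linarith [F_acdr m (by decide), (s45 a c d r m)]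
  have h150 : 0 < g d m p q r := by linarith [F_dmrq p (by decide), (s34 d m r q p), (s45 d m q r p), (s34 d m q p r)]
  have F_dapr : ∀ x : Vertex, (x ≠ d ∧ x ≠ a ∧ x ≠ p ∧ x ≠ r) → 0 < g d a p r x :=
    (G_dapr).resolve_right fun h => by linarith [h c (by decide), F_acdr p (by decide), (s45 a c d r p), (s12 d a p r c), (s45 a d p r c), (s34 a d p c r), (s23 a d c p r)]
  have h58 : g a d m p r < 0 := by linarith [F_dapr m (by decide), (s12 d a p r m), (s45 a d p r m), (s34 a d p m r)]
  have h147 : 0 < g c d m q r := by linarith [F_dmrq c (by decide), (s34 d m r q c), (s45 d m q r c), (s34 d m q c r), (s23 d m c q r), (s12 d c m q r)]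
  have h145 : 0 < g a d m q r := by linarith [F_dmrq a (by decide), (s34 d m r q a), (s45 d m q r a), (s34 d m q a r), (s23 d m a q r), (s12 d a m q r)]
  have h194 : g c d m p r < 0 := by
    have e := gp d m r a c p q
    rw [(show g d m r a c = g a c d m r by linarith [(s34 d m r a c), (s45 d m a r c), (s23 d m a c r), (s34 d a m c r), (s12 d a c m r), (s23 a d c m r)]),
      (show g d m r p q = g d m p q r by linarith [(s34 d m r p q), (s45 d m p r q)]),
      (show g d m r a p = g a d m p r by linarith [(s34 d m r a p), (s45 d m a r p), (s23 d m a p r), (s12 d a m p r)]),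
      (show g d m r c q = g c d m q r by linarith [(s34 d m r c q), (s45 d m c r q), (s23 d m c q r), (s12 d c m q r)]),
      (show g d m r a q = g a d m q r by linarith [(s34 d m r a q), (s45 d m a r q), (s23 d m a q r), (s12 d a m q r)]),
      (show g d m r c p = g c d m p r by linarith [(s34 d m r c p), (s45 d m c r p), (s23 d m c p r), (s12 d c m p r)])] at e
    by_contra hc
    have hc := not_lt.mp hc
    linarith [e, mul_pos h15 h150, mul_neg_of_neg_of_pos h58 h147, mul_nonneg h145.le hc]
  have F_abcr : ∀ x : Vertex, (x ≠ a ∧ x ≠ b ∧ x ≠ c ∧ x ≠ r) → g a b c r x < 0 :=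
    (G_abcr).resolve_left fun h => by linarith [h d (by decide), F_abcd r (by decide), (s45 a b c r d)]
  have h8 : 0 < g a b c m r := by linarith [F_abcr m (by decide), (s45 a b c r m)]
  have F_abmr : ∀ x : Vertex, (x ≠ a ∧ x ≠ b ∧ x ≠ m ∧ x ≠ r) → 0 < g a b m r x :=
    (G_abmr).resolve_right fun h => by linarith [h c (by decide), F_abcr m (by decide), (s45 a b c r m), (s45 a b m r c), (s34 a b m c r)]
  have h36 : 0 < g a b d m r := by linarith [F_abmr d (by decide), (s45 a b m r d), (s34 a b m d r)]
  have h39 : g a b m p r < 0 := by linarith [F_abmr p (by decide), (s45 a b m r p)]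
  have h180 : g a c m p r < 0 := by
    have e := gp a m r b c d p
    rw [(show g a m r b c = g a b c m r by linarith [(s34 a m r b c), (s45 a m b r c), (s23 a m b c r), (s34 a b m c r)]),
      (show g a m r d p = -g a d m p r by linarith [(s34 a m r d p), (s45 a m d r p), (s23 a m d p r)]),
      (show g a m r b d = g a b d m r by linarith [(s34 a m r b d), (s45 a m b r d), (s23 a m b d r), (s34 a b m d r)]),
      (show g a m r c p = -g a c m p r by linarith [(s34 a m r c p), (s45 a m c r p), (s23 a m c p r)]),
      (show g a m r b p = -g a b m p r by linarith [(s34 a m r b p), (s45 a m b r p), (s23 a m b p r)]),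
      (show g a m r c d = g a c d m r by linarith [(s34 a m r c d), (s45 a m c r d), (s23 a m c d r), (s34 a c m d r)])] at e
    by_contra hc
    have hc := not_lt.mp hc
    linarith [e, mul_neg_of_pos_of_neg h8 h58, mul_nonneg h36.le hc, mul_neg_of_neg_of_pos h39 h15]
  have h140 : g c d m p q < 0 := by linarith [F_cpmq d (by decide), (s23 c p m q d), (s45 c m p q d), (s34 c m p d q), (s23 c m d p q)]
  have h212 : g a c d m p < 0 := by
    have e := gp c m p a d q r
    rw [(show g c m p a d = -g a c d m p by linarith [(s34 c m p a d), (s45 c m a p d), (s23 c m a d p), (s34 c a m d p), (s12 c a d m p)]),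
      (show g c m p a q = -g a c m p q by linarith [(s34 c m p a q), (s23 c m a p q), (s12 c a m p q)]),
      (show g c m p d r = g c d m p r by linarith [(s34 c m p d r), (s23 c m d p r)]),
      (show g c m p a r = -g a c m p r by linarith [(s34 c m p a r), (s23 c m a p r), (s12 c a m p r)]),
      (show g c m p d q = g c d m p q by linarith [(s34 c m p d q), (s23 c m d p q)])] at e
    by_contra hc
    have hc := not_lt.mp hc
    linarith [e, mul_nonneg hc h142.le, mul_neg_of_pos_of_neg h138 h194, mul_pos_of_neg_of_neg h180 h140]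
  have h144 : 0 < g c m p q t := by linarith [F_cpmq t (by decide), (s23 c p m q t)]
  have F_cdor : ∀ x : Vertex, (x ≠ c ∧ x ≠ d ∧ x ≠ o ∧ x ≠ r) → 0 < g c d o r x :=
    (G_cdor).resolve_right fun h => by linarith [h a (by decide), F_acdr o (by decide), (s45 a c d r o), (s45 c d o r a), (s34 c d o a r), (s23 c d a o r), (s12 c a d o r)]
  have h51 : 0 < g c d m o r := by linarith [F_cdor m (by decide), (s45 c d o r m), (s34 c d o m r)]
  have h149 : 0 < g d m o q r := by linarith [F_dmrq o (by decide), (s34 d m r q o), (s45 d m q r o), (s34 d m q o r)]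
  have h106 : 0 < g d m o p q := by linarith [F_mopq d (by decide), (s45 m o p q d), (s34 m o p d q), (s23 m o d p q), (s12 m d o p q)]
  have h190 : g c d m o q < 0 := by
    have e := gp d m q c o p r
    rw [(show g d m q c o = g c d m o q by linarith [(s34 d m q c o), (s45 d m c q o), (s23 d m c o q), (s12 d c m o q)]),
      (show g d m q p r = -g d m p q r by linarith [(s34 d m q p r)]),
      (show g d m q c p = g c d m p q by linarith [(s34 d m q c p), (s45 d m c q p), (s23 d m c p q), (s12 d c m p q)]),
      (show g d m q o r = -g d m o q r by linarith [(s34 d m q o r)]),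
      (show g d m q c r = -g c d m q r by linarith [(s34 d m q c r), (s23 d m c q r), (s12 d c m q r)]),
      (show g d m q o p = g d m o p q by linarith [(s34 d m q o p), (s45 d m o q p)])] at e
    by_contra hc
    have hc := not_lt.mp hc
    linarith [e, mul_nonneg hc h150.le, mul_neg_of_neg_of_pos h140 h149, mul_pos h147 h106]
  have h209 : 0 < g c d m o p := by
    have e := gp c d m o p q r
    by_contra hc
    have hc := not_lt.mp hc
    linarith [e, mul_nonpos_of_nonpos_of_nonneg hc h147.le, mul_pos_of_neg_of_neg h190 h194, mul_neg_of_pos_of_neg h51 h140]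
  have h235 : 0 < g a c d m o := by
    have e := gp c d m a o p r
    rw [(show g c d m a o = -g a c d m o by linarith [(s34 c d m a o), (s23 c d a m o), (s12 c a d m o)]),
      (show g c d m a p = -g a c d m p by linarith [(s34 c d m a p), (s23 c d a m p), (s12 c a d m p)]),
      (show g c d m a r = -g a c d m r by linarith [(s34 c d m a r), (s23 c d a m r), (s12 c a d m r)])] at e
    by_contra hc
    have hc := not_lt.mp hc
    linarith [e, mul_nonneg_of_nonpos_of_nonpos hc h194.le, mul_neg_of_neg_of_pos h212 h51, mul_pos h15 h209]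
  have F_cdot : ∀ x : Vertex, (x ≠ c ∧ x ≠ d ∧ x ≠ o ∧ x ≠ t) → g c d o t x < 0 :=
    (G_cdot).resolve_left fun h => by linarith [h r (by decide), F_cdor t (by decide), (s45 c d o t r)]
  have h77 : g c d m o t < 0 := by linarith [F_cdot m (by decide), (s45 c d o t m), (s34 c d o m t)]
  have h0 : 0 < g a b c d m := by linarith [F_abcd m (by decide)]
  have F_dapt : ∀ x : Vertex, (x ≠ d ∧ x ≠ a ∧ x ≠ p ∧ x ≠ t) → g d a p t x < 0 :=
    (G_dapt).resolve_left fun h => by linarith [h r (by decide), F_dapr t (by decide), (s12 d a p r t), (s12 d a p t r), (s45 a d p t r)]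
  have h82 : g a c d p t < 0 := by linarith [F_dapt c (by decide), (s12 d a p t c), (s45 a d p t c), (s34 a d p c t), (s23 a d c p t)]
  have h3 : 0 < g a b c d p := by linarith [F_abcd p (by decide)]
  have h7 : 0 < g a b c d t := by linarith [F_abcd t (by decide)]
  have h226 : g a c d m t < 0 := by
    have e := gp a c d b m p t
    rw [(show g a c d b m = g a b c d m by linarith [(s34 a c d b m), (s23 a c b d m)]),
      (show g a c d b p = g a b c d p by linarith [(s34 a c d b p), (s23 a c b d p)]),
      (show g a c d b t = g a b c d t by linarith [(s34 a c d b t), (s23 a c b d t)])] at e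
    by_contra hc
    have hc := not_lt.mp hc
    linarith [e, mul_neg_of_pos_of_neg h0 h82, mul_nonneg h3.le hc, mul_neg_of_pos_of_neg h7 h212]
  have h275 : 0 < g c d m p t := by
    have e := gp c d m a o p t
    rw [(show g c d m a o = -g a c d m o by linarith [(s34 c d m a o), (s23 c d a m o), (s12 c a d m o)]),
      (show g c d m a p = -g a c d m p by linarith [(s34 c d m a p), (s23 c d a m p), (s12 c a d m p)]),
      (show g c d m a t = -g a c d m t by linarith [(s34 c d m a t), (s23 c d a m t), (s12 c a d m t)])] at e
    by_contra hc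
    have hc := not_lt.mp hc
    linarith [e, mul_nonpos_of_nonneg_of_nonpos h235.le hc, mul_pos_of_neg_of_neg h212 h77, mul_neg_of_neg_of_pos h226 h209]
  have h227 : g a b c m p < 0 := by
    have e := gp a c m b d p r
    rw [(show g a c m b d = -g a b c d m by linarith [(s34 a c m b d), (s45 a c b m d), (s23 a c b d m)]),
      (show g a c m b p = g a b c m p by linarith [(s34 a c m b p), (s23 a c b m p)]),
      (show g a c m d r = -g a c d m r by linarith [(s34 a c m d r)]),
      (show g a c m b r = g a b c m r by linarith [(s34 a c m b r), (s23 a c b m r)]),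
      (show g a c m d p = -g a c d m p by linarith [(s34 a c m d p)])] at e
    by_contra hc
    have hc := not_lt.mp hc
    linarith [e, mul_neg_of_pos_of_neg h0 h180, mul_nonneg hc h15.le, mul_neg_of_pos_of_neg h8 h212]
  have h83 : 0 < g a d m p t := by linarith [F_dapt m (by decide), (s12 d a p t m), (s45 a d p t m), (s34 a d p m t)]
  have h230 : g a b d m p < 0 := by
    have e := gp a d m b c p r
    rw [(show g a d m b c = g a b c d m by linarith [(s34 a d m b c), (s45 a d b m c), (s23 a d b c m), (s34 a b d c m)]),
      (show g a d m b p = g a b d m p by linarith [(s34 a d m b p), (s23 a d b m p)]),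
      (show g a d m c r = g a c d m r by linarith [(s34 a d m c r), (s23 a d c m r)]),
      (show g a d m b r = g a b d m r by linarith [(s34 a d m b r), (s23 a d b m r)]),
      (show g a d m c p = g a c d m p by linarith [(s34 a d m c p), (s23 a d c m p)])] at e
    by_contra hc
    have hc := not_lt.mp hc
    linarith [e, mul_neg_of_pos_of_neg h0 h58, mul_nonneg hc h15.le, mul_neg_of_pos_of_neg h36 h212]
  have F_abmt : ∀ x : Vertex, (x ≠ a ∧ x ≠ b ∧ x ≠ m ∧ x ≠ t) → g a b m t x < 0 :=
    (G_abmt).resolve_left fun h => by linarith [h r (by decide), F_abmr t (by decide), (s45 a b m t r)]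
  have h67 : 0 < g a b m p t := by linarith [F_abmt p (by decide), (s45 a b m t p)]
  have h270 : 0 < g a c m p t := by
    have e := gp a m p b c d t
    rw [(show g a m p b c = g a b c m p by linarith [(s34 a m p b c), (s45 a m b p c), (s23 a m b c p), (s34 a b m c p)]),
      (show g a m p d t = g a d m p t by linarith [(s34 a m p d t), (s23 a m d p t)]),
      (show g a m p b d = g a b d m p by linarith [(s34 a m p b d), (s45 a m b p d), (s23 a m b d p), (s34 a b m d p)]),
      (show g a m p c t = g a c m p t by linarith [(s34 a m p c t), (s23 a m c p t)]),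
      (show g a m p b t = g a b m p t by linarith [(s34 a m p b t), (s23 a m b p t)]),
      (show g a m p c d = g a c d m p by linarith [(s34 a m p c d), (s45 a m c p d), (s23 a m c d p), (s34 a c m d p)])] at e
    by_contra hc
    have hc := not_lt.mp hc
    linarith [e, mul_neg_of_neg_of_pos h227 h83, mul_nonneg_of_nonpos_of_nonpos h230.le hc, mul_neg_of_pos_of_neg h67 h212]
  have e := gp c m p a d q t
  rw [(show g c m p a d = -g a c d m p by linarith [(s34 c m p a d), (s45 c m a p d), (s23 c m a d p), (s34 c a m d p), (s12 c a d m p)]),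
    (show g c m p a q = -g a c m p q by linarith [(s34 c m p a q), (s23 c m a p q), (s12 c a m p q)]),
    (show g c m p d t = g c d m p t by linarith [(s34 c m p d t), (s23 c m d p t)]),
    (show g c m p a t = -g a c m p t by linarith [(s34 c m p a t), (s23 c m a p t), (s12 c a m p t)]),
    (show g c m p d q = g c d m p q by linarith [(s34 c m p d q), (s23 c m d p q)])] at e
  linarith [e, mul_neg_of_neg_of_pos h212 h144, mul_pos h138 h275, mul_neg_of_pos_of_neg h270 h140]

theorem contradiction_pos {g : Vertex → Vertex → Vertex → Vertex → Vertex → ℝ} (hg : Alt g)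
    (F_abcd : ∀ x : Vertex, (x ≠ a ∧ x ≠ b ∧ x ≠ c ∧ x ≠ d) → 0 < g a b c d x)
    (fac : SignCondition facets g) : False := by
  rcases fac d m r q (by simp [facets]) with h1 | h1 <;>
    rcases fac m n o p (by simp [facets]) with h2 | h2
  · exact case_ppp hg F_abcd h1 h2 fac
  · exact case_ppm hg F_abcd h1 h2 fac
  · exact case_pmp hg F_abcd h1 h2 fac
  · exact case_pmm hg F_abcd h1 h2 fac

/-- there is no alternating function with the sign conditions for the first list -/
theorem contradiction₁ {g : Vertex → Vertex → Vertex → Vertex → Vertex → ℝ} (hg : Alt g)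
    (fac : SignCondition facets g) : False := by
  rcases fac a b c d (by simp [facets]) with h | h
  · exact contradiction_pos hg h fac
  · exact contradiction_pos hg.neg (fun x hx => neg_pos.mpr (h x hx)) fac.neg

end Pool.Agent.Q143.MW
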