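import Pool.Agent.Q143.MW.Defs

/-!
# The Mani–Walkup complex: the sign contradictions for the second list of tetrahedra

Generated by a program: in each of the two cases for the orientations of the tetrahedra `abcd`,
`mnop` (up to a global sign) some three-term Grassmann–Plücker relations give a contradiction.
-/

set_option autoImplicit false

namespace Pool.Agent.Q143.MW

open Vertex

theorem case₂_pp {g : Vertex → Vertex → Vertex → Vertex → Vertex → ℝ} (hg : Alt g)
    (F_abcd : ∀ x : Vertex, (x ≠ a ∧ x ≠ b ∧ x ≠ c ∧ x ≠ d) → 0 < g a b c d x)
    (F_mnop : ∀ x : Vertex, (x ≠ m ∧ x ≠ n ∧ x ≠ o ∧ x ≠ p) → 0 < g m n o p x)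
    (fac : SignCondition facets₂ g) : False := by
  obtain ⟨s12, s23, s34, s45, gp⟩ := hg
  have G_mnoq := fac m n o q (by simp [facets₂])
  have G_anoq := fac a n o q (by simp [facets₂])
  have G_abdt := fac a b d t (by simp [facets₂])
  have G_bcdt := fac b c d t (by simp [facets₂])
  have G_cdot := fac c d o t (by simp [facets₂])
  have G_bcnt := fac b c n t (by simp [facets₂])
  have G_dapt := fac d a p t (by simp [facets₂])
  have G_abcr := fac a b c r (by simp [facets₂])
  have G_cdor := fac c d o r (by simp [facets₂])
  have G_acdr := fac a c d r (by simp [facets₂])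
  have G_bcnr := fac b c n r (by simp [facets₂])
  have G_abmr := fac a b m r (by simp [facets₂])
  have G_abmt := fac a b m t (by simp [facets₂])
  have G_nops := fac n o p s (by simp [facets₂])
  have G_dapr := fac d a p r (by simp [facets₂])
  have G_mnps := fac m n p s (by simp [facets₂])
  have G_dmns := fac d m n s (by simp [facets₂])
  have G_anos := fac a n o s (by simp [facets₂])
  have G_bops := fac b o p s (by simp [facets₂])
  have G_mopq := fac m o p q (by simp [facets₂])
  have G_bopq := fac b o p q (by simp [facets₂])
  have G_dmnq := fac d m n q (by simp [facets₂])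
  rcases le_or_gt (g a b n o t) 0 with z | z
  · have h184 := z
    have F_mnoq : ∀ x : Vertex, (x ≠ m ∧ x ≠ n ∧ x ≠ o ∧ x ≠ q) → g m n o q x < 0 :=
      (G_mnoq).resolve_left fun h => by linarith [h p (by decide), F_mnop q (by decide), (s45 m n o q p)]
    have F_anoq : ∀ x : Vertex, (x ≠ a ∧ x ≠ n ∧ x ≠ o ∧ x ≠ q) → 0 < g a n o q x :=
      (G_anoq).resolve_right fun h => by linarith [h m (by decide), F_mnoq a (by decide), (s45 m n o q a), (s34 m n o a q), (s23 m n a o q), (s12 m a n o q), (s45 a n o q m), (s34 a n o m q), (s23 a n m o q)]
    have h130 : 0 < g a n o q t := by linarith [F_anoq t (by decide)]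
    have h124 : g a b n o q < 0 := by linarith [F_anoq b (by decide), (s45 a n o q b), (s34 a n o b q), (s23 a n b o q)]
    have F_abdt : ∀ x : Vertex, (x ≠ a ∧ x ≠ b ∧ x ≠ d ∧ x ≠ t) → 0 < g a b d t x :=
      (G_abdt).resolve_right fun h => by linarith [h c (by decide), F_abcd t (by decide), (s45 a b d t c), (s34 a b d c t)]
    have h24 : g a b d o t < 0 := by linarith [F_abdt o (by decide), (s45 a b d t o)]
    have F_bcdt : ∀ x : Vertex, (x ≠ b ∧ x ≠ c ∧ x ≠ d ∧ x ≠ t) → 0 < g b c d t x :=
      (G_bcdt).resolve_right fun h => by linarith [h a (by decide), F_abcd t (by decide), (s45 b c d t a), (s34 b c d a t), (s23 b c a d t), (s12 b a c d t)]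
    have F_cdot : ∀ x : Vertex, (x ≠ c ∧ x ≠ d ∧ x ≠ o ∧ x ≠ t) → g c d o t x < 0 :=
      (G_cdot).resolve_left fun h => by linarith [h b (by decide), F_bcdt o (by decide), (s45 b c d t o), (s45 c d o t b), (s34 c d o b t), (s23 c d b o t), (s12 c b d o t)]
    have h78 : g c d n o t < 0 := by linarith [F_cdot n (by decide), (s45 c d o t n), (s34 c d o n t)]
    have h76 : g a c d o t < 0 := by linarith [F_cdot a (by decide), (s45 c d o t a), (s34 c d o a t), (s23 c d a o t), (s12 c a d o t)]
    have F_bcnt : ∀ x : Vertex, (x ≠ b ∧ x ≠ c ∧ x ≠ n ∧ x ≠ t) → g b c n t x < 0 :=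
      (G_bcnt).resolve_left fun h => by linarith [h d (by decide), F_bcdt n (by decide), (s45 b c d t n), (s45 b c n t d), (s34 b c n d t)]
    have h70 : g a b c n t < 0 := by linarith [F_bcnt a (by decide), (s45 b c n t a), (s34 b c n a t), (s23 b c a n t), (s12 b a c n t)]
    have h23 : g a b d n t < 0 := by linarith [F_abdt n (by decide), (s45 a b d t n)]
    have h72 : 0 < g b c n o t := by linarith [F_bcnt o (by decide), (s45 b c n t o)]
    have h30 : g b c d n t < 0 := by linarith [F_bcdt n (by decide), (s45 b c d t n)]
    have h186 : 0 < g b d n o t := by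
      have e := gp b n t a c d o
      rw [(show g b n t a c = -g a b c n t by linarith [(s34 b n t a c), (s45 b n a t c), (s23 b n a c t), (s34 b a n c t), (s12 b a c n t)]),
        (show g b n t d o = -g b d n o t by linarith [(s34 b n t d o), (s45 b n d t o), (s23 b n d o t)]),
        (show g b n t a d = -g a b d n t by linarith [(s34 b n t a d), (s45 b n a t d), (s23 b n a d t), (s34 b a n d t), (s12 b a d n t)]),
        (show g b n t c o = -g b c n o t by linarith [(s34 b n t c o), (s45 b n c t o), (s23 b n c o t)]),
        (show g b n t a o = g a b n o t by linarith [(s34 b n t a o), (s45 b n a t o), (s23 b n a o t), (s12 b a n o t)]),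
        (show g b n t c d = g b c d n t by linarith [(s34 b n t c d), (s45 b n c t d), (s23 b n c d t), (s34 b c n d t)])] at e
      by_contra hc
      have hc := not_lt.mp hc
      linarith [e, mul_nonneg_of_nonpos_of_nonpos h70.le hc, mul_neg_of_neg_of_pos h23 h72, mul_nonneg_of_nonpos_of_nonpos h184 h30.le]
    have h31 : g b c d o t < 0 := by linarith [F_bcdt o (by decide), (s45 b c d t o)]
    have h189 : 0 < g a d n o t := by
      have e := gp d o t a b c n
      rw [(show g d o t a b = g a b d o t by linarith [(s34 d o t a b), (s45 d o a t b), (s23 d o a b t), (s34 d a o b t), (s12 d a b o t), (s23 a d b o t)]),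
        (show g d o t c n = -g c d n o t by linarith [(s34 d o t c n), (s45 d o c t n), (s23 d o c n t), (s34 d c o n t), (s12 d c n o t)]),
        (show g d o t a c = g a c d o t by linarith [(s34 d o t a c), (s45 d o a t c), (s23 d o a c t), (s34 d a o c t), (s12 d a c o t), (s23 a d c o t)]),
        (show g d o t b n = -g b d n o t by linarith [(s34 d o t b n), (s45 d o b t n), (s23 d o b n t), (s34 d b o n t), (s12 d b n o t)]),
        (show g d o t a n = -g a d n o t by linarith [(s34 d o t a n), (s45 d o a t n), (s23 d o a n t), (s34 d a o n t), (s12 d a n o t)]),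
        (show g d o t b c = g b c d o t by linarith [(s34 d o t b c), (s45 d o b t c), (s23 d o b c t), (s34 d b o c t), (s12 d b c o t), (s23 b d c o t)])] at e
      by_contra hc
      have hc := not_lt.mp hc
      linarith [e, mul_pos_of_neg_of_neg h24 h78, mul_neg_of_neg_of_pos h76 h186, mul_nonneg_of_nonpos_of_nonpos hc h31.le]
    have h126 : g a d n o q < 0 := by linarith [F_anoq d (by decide), (s45 a n o q d), (s34 a n o d q), (s23 a n d o q)]
    have h192 : g a b d n o < 0 := by
      have e := gp a n o b d q t
      rw [(show g a n o b d = g a b d n o by linarith [(s34 a n o b d), (s45 a n b o d), (s23 a n b d o), (s34 a b n d o)]),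
        (show g a n o b q = g a b n o q by linarith [(s34 a n o b q), (s23 a n b o q)]),
        (show g a n o d t = g a d n o t by linarith [(s34 a n o d t), (s23 a n d o t)]),
        (show g a n o b t = g a b n o t by linarith [(s34 a n o b t), (s23 a n b o t)]),
        (show g a n o d q = g a d n o q by linarith [(s34 a n o d q), (s23 a n d o q)])] at e
      by_contra hc
      have hc := not_lt.mp hc
      linarith [e, mul_nonneg hc h130.le, mul_neg_of_neg_of_pos h124 h189, mul_nonneg_of_nonpos_of_nonpos h184 h126.le]
    have F_dapt : ∀ x : Vertex, (x ≠ d ∧ x ≠ a ∧ x ≠ p ∧ x ≠ t) → g d a p t x < 0 :=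
      (G_dapt).resolve_left fun h => by linarith [h b (by decide), F_abdt p (by decide), (s45 a b d t p), (s12 d a p t b), (s45 a d p t b), (s34 a d p b t), (s23 a d b p t)]
    have h85 : 0 < g a d o p t := by linarith [F_dapt o (by decide), (s12 d a p t o), (s45 a d p t o), (s34 a d p o t)]
    have h127 : g a n o p q < 0 := by linarith [F_anoq p (by decide), (s45 a n o q p)]
    have h7 : 0 < g a b c d t := by linarith [F_abcd t (by decide)]
    have h185 : g a b c o t < 0 := by
      have e := gp a b t c d n o
      rw [(show g a b t c d = g a b c d t by linarith [(s34 a b t c d), (s45 a b c t d)]),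
        (show g a b t n o = g a b n o t by linarith [(s34 a b t n o), (s45 a b n t o)]),
        (show g a b t c n = g a b c n t by linarith [(s34 a b t c n), (s45 a b c t n)]),
        (show g a b t d o = g a b d o t by linarith [(s34 a b t d o), (s45 a b d t o)]),
        (show g a b t c o = g a b c o t by linarith [(s34 a b t c o), (s45 a b c t o)]),
        (show g a b t d n = g a b d n t by linarith [(s34 a b t d n), (s45 a b d t n)])] at e
      by_contra hc
      have hc := not_lt.mp hc
      linarith [e, mul_nonpos_of_nonneg_of_nonpos h7.le h184, mul_pos_of_neg_of_neg h70 h24, mul_nonpos_of_nonneg_of_nonpos hc h23.le]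
    have h188 : 0 < g a c n o t := by
      have e := gp c o t a b d n
      rw [(show g c o t a b = g a b c o t by linarith [(s34 c o t a b), (s45 c o a t b), (s23 c o a b t), (s34 c a o b t), (s12 c a b o t), (s23 a c b o t)]),
        (show g c o t d n = g c d n o t by linarith [(s34 c o t d n), (s45 c o d t n), (s23 c o d n t), (s34 c d o n t)]),
        (show g c o t a d = -g a c d o t by linarith [(s34 c o t a d), (s45 c o a t d), (s23 c o a d t), (s34 c a o d t), (s12 c a d o t)]),
        (show g c o t b n = -g b c n o t by linarith [(s34 c o t b n), (s45 c o b t n), (s23 c o b n t), (s34 c b o n t), (s12 c b n o t)]),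
        (show g c o t a n = -g a c n o t by linarith [(s34 c o t a n), (s45 c o a t n), (s23 c o a n t), (s34 c a o n t), (s12 c a n o t)]),
        (show g c o t b d = -g b c d o t by linarith [(s34 c o t b d), (s45 c o b t d), (s23 c o b d t), (s34 c b o d t), (s12 c b d o t)])] at e
      by_contra hc
      have hc := not_lt.mp hc
      linarith [e, mul_pos_of_neg_of_neg h185 h78, mul_neg_of_neg_of_pos h76 h72, mul_nonneg_of_nonpos_of_nonpos hc h31.le]
    have h125 : g a c n o q < 0 := by linarith [F_anoq c (by decide), (s45 a n o q c), (s34 a n o c q), (s23 a n c o q)]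
    have h191 : g a b c n o < 0 := by
      have e := gp a n o b c q t
      rw [(show g a n o b c = g a b c n o by linarith [(s34 a n o b c), (s45 a n b o c), (s23 a n b c o), (s34 a b n c o)]),
        (show g a n o b q = g a b n o q by linarith [(s34 a n o b q), (s23 a n b o q)]),
        (show g a n o c t = g a c n o t by linarith [(s34 a n o c t), (s23 a n c o t)]),
        (show g a n o b t = g a b n o t by linarith [(s34 a n o b t), (s23 a n b o t)]),
        (show g a n o c q = g a c n o q by linarith [(s34 a n o c q), (s23 a n c o q)])] at e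
      by_contra hc
      have hc := not_lt.mp hc
      linarith [e, mul_nonneg hc h130.le, mul_neg_of_neg_of_pos h124 h188, mul_nonneg_of_nonpos_of_nonpos h184 h125.le]
    have F_abcr : ∀ x : Vertex, (x ≠ a ∧ x ≠ b ∧ x ≠ c ∧ x ≠ r) → g a b c r x < 0 :=
      (G_abcr).resolve_left fun h => by linarith [h d (by decide), F_abcd r (by decide), (s45 a b c r d)]
    have h9 : 0 < g a b c n r := by linarith [F_abcr n (by decide), (s45 a b c r n)]
    have h128 : 0 < g a n o q r := by linarith [F_anoq r (by decide)]
    have F_cdor : ∀ x : Vertex, (x ≠ c ∧ x ≠ d ∧ x ≠ o ∧ x ≠ r) → 0 < g c d o r x :=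
      (G_cdor).resolve_right fun h => by linarith [h t (by decide), F_cdot r (by decide), (s45 c d o t r)]
    have h52 : 0 < g c d n o r := by linarith [F_cdor n (by decide), (s45 c d o r n), (s34 c d o n r)]
    have F_acdr : ∀ x : Vertex, (x ≠ a ∧ x ≠ c ∧ x ≠ d ∧ x ≠ r) → g a c d r x < 0 :=
      (G_acdr).resolve_left fun h => by linarith [h b (by decide), F_abcd r (by decide), (s45 a c d r b), (s34 a c d b r), (s23 a c b d r)]
    have h16 : 0 < g a c d n r := by linarith [F_acdr n (by decide), (s45 a c d r n)]
    have F_bcnr : ∀ x : Vertex, (x ≠ b ∧ x ≠ c ∧ x ≠ n ∧ x ≠ r) → 0 < g b c n r x :=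
      (G_bcnr).resolve_right fun h => by linarith [h a (by decide), F_abcr n (by decide), (s45 a b c r n), (s45 b c n r a), (s34 b c n a r), (s23 b c a n r), (s12 b a c n r)]
    have h45 : g b c n o r < 0 := by linarith [F_bcnr o (by decide), (s45 b c n r o)]
    have h43 : 0 < g b c d n r := by linarith [F_bcnr d (by decide), (s45 b c n r d), (s34 b c n d r)]
    have h182 : g a c n o r < 0 := by
      have e := gp c n r a b d o
      rw [(show g c n r a b = g a b c n r by linarith [(s34 c n r a b), (s45 c n a r b), (s23 c n a b r), (s34 c a n b r), (s12 c a b n r), (s23 a c b n r)]),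
        (show g c n r d o = -g c d n o r by linarith [(s34 c n r d o), (s45 c n d r o), (s23 c n d o r)]),
        (show g c n r a d = -g a c d n r by linarith [(s34 c n r a d), (s45 c n a r d), (s23 c n a d r), (s34 c a n d r), (s12 c a d n r)]),
        (show g c n r b o = g b c n o r by linarith [(s34 c n r b o), (s45 c n b r o), (s23 c n b o r), (s12 c b n o r)]),
        (show g c n r a o = g a c n o r by linarith [(s34 c n r a o), (s45 c n a r o), (s23 c n a o r), (s12 c a n o r)]),
        (show g c n r b d = -g b c d n r by linarith [(s34 c n r b d), (s45 c n b r d), (s23 c n b d r), (s34 c b n d r), (s12 c b d n r)])] at e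
      by_contra hc
      have hc := not_lt.mp hc
      linarith [e, mul_pos h9 h52, mul_neg_of_pos_of_neg h16 h45, mul_nonneg hc h43.le]
    have h194 : g a b n o r < 0 := by
      have e := gp a n o b c q r
      rw [(show g a n o b c = g a b c n o by linarith [(s34 a n o b c), (s45 a n b o c), (s23 a n b c o), (s34 a b n c o)]),
        (show g a n o b q = g a b n o q by linarith [(s34 a n o b q), (s23 a n b o q)]),
        (show g a n o c r = g a c n o r by linarith [(s34 a n o c r), (s23 a n c o r)]),
        (show g a n o b r = g a b n o r by linarith [(s34 a n o b r), (s23 a n b o r)]),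
        (show g a n o c q = g a c n o q by linarith [(s34 a n o c q), (s23 a n c o q)])] at e
      by_contra hc
      have hc := not_lt.mp hc
      linarith [e, mul_neg_of_neg_of_pos h191 h128, mul_pos_of_neg_of_neg h124 h182, mul_nonpos_of_nonneg_of_nonpos hc h125.le]
    have h196 : 0 < g a b n r t := by
      have e := gp a b n c o r t
      rw [(show g a b n c o = -g a b c n o by linarith [(s34 a b n c o)]),
        (show g a b n c r = -g a b c n r by linarith [(s34 a b n c r)]),
        (show g a b n c t = -g a b c n t by linarith [(s34 a b n c t)])] at e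
      by_contra hc
      have hc := not_lt.mp hc
      linarith [e, mul_nonneg_of_nonpos_of_nonpos h191.le hc, mul_nonpos_of_nonneg_of_nonpos h9.le h184, mul_pos_of_neg_of_neg h70 h194]
    have F_abmr : ∀ x : Vertex, (x ≠ a ∧ x ≠ b ∧ x ≠ m ∧ x ≠ r) → 0 < g a b m r x :=
      (G_abmr).resolve_right fun h => by linarith [h c (by decide), F_abcr m (by decide), (s45 a b c r m), (s45 a b m r c), (s34 a b m c r)]
    have h37 : g a b m n r < 0 := by linarith [F_abmr n (by decide), (s45 a b m r n)]
    have F_abmt : ∀ x : Vertex, (x ≠ a ∧ x ≠ b ∧ x ≠ m ∧ x ≠ t) → g a b m t x < 0 :=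
      (G_abmt).resolve_left fun h => by linarith [h d (by decide), F_abdt m (by decide), (s45 a b d t m), (s45 a b m t d), (s34 a b m d t)]
    have h65 : 0 < g a b m n t := by linarith [F_abmt n (by decide), (s45 a b m t n)]
    have h201 : 0 < g a b m n o := by
      have e := gp a b n m o r t
      rw [(show g a b n m o = -g a b m n o by linarith [(s34 a b n m o)]),
        (show g a b n m r = -g a b m n r by linarith [(s34 a b n m r)]),
        (show g a b n m t = -g a b m n t by linarith [(s34 a b n m t)])] at e
      by_contra hc
      have hc := not_lt.mp hc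
      linarith [e, mul_nonpos_of_nonpos_of_nonneg hc h196.le, mul_nonneg_of_nonpos_of_nonpos h37.le h184, mul_neg_of_pos_of_neg h65 h194]
    have h96 : g a m n o q < 0 := by linarith [F_mnoq a (by decide), (s45 m n o q a), (s34 m n o a q), (s23 m n a o q), (s12 m a n o q)]
    have h88 : 0 < g a m n o p := by linarith [F_mnop a (by decide), (s45 m n o p a), (s34 m n o a p), (s23 m n a o p), (s12 m a n o p)]
    have h209 : 0 < g a b n o p := by
      have e := gp a n o b m p q
      rw [(show g a n o b m = g a b m n o by linarith [(s34 a n o b m), (s45 a n b o m), (s23 a n b m o), (s34 a b n m o)]),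
        (show g a n o b p = g a b n o p by linarith [(s34 a n o b p), (s23 a n b o p)]),
        (show g a n o m q = g a m n o q by linarith [(s34 a n o m q), (s23 a n m o q)]),
        (show g a n o b q = g a b n o q by linarith [(s34 a n o b q), (s23 a n b o q)]),
        (show g a n o m p = g a m n o p by linarith [(s34 a n o m p), (s23 a n m o p)])] at e
      by_contra hc
      have hc := not_lt.mp hc
      linarith [e, mul_neg_of_pos_of_neg h201 h127, mul_nonneg_of_nonpos_of_nonpos hc h96.le, mul_neg_of_neg_of_pos h124 h88]
    have h226 : 0 < g a d n o p := by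
      have e := gp a n o b d p q
      rw [(show g a n o b d = g a b d n o by linarith [(s34 a n o b d), (s45 a n b o d), (s23 a n b d o), (s34 a b n d o)]),
        (show g a n o b p = g a b n o p by linarith [(s34 a n o b p), (s23 a n b o p)]),
        (show g a n o d q = g a d n o q by linarith [(s34 a n o d q), (s23 a n d o q)]),
        (show g a n o b q = g a b n o q by linarith [(s34 a n o b q), (s23 a n b o q)]),
        (show g a n o d p = g a d n o p by linarith [(s34 a n o d p), (s23 a n d o p)])] at e
      by_contra hc
      have hc := not_lt.mp hc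
      linarith [e, mul_pos_of_neg_of_neg h192 h127, mul_neg_of_pos_of_neg h209 h126, mul_nonneg_of_nonpos_of_nonpos h124.le hc]
    have h255 : g a b d o p < 0 := by
      have e := gp a d o b n p t
      rw [(show g a d o b n = -g a b d n o by linarith [(s34 a d o b n), (s45 a d b o n), (s23 a d b n o)]),
        (show g a d o b p = g a b d o p by linarith [(s34 a d o b p), (s23 a d b o p)]),
        (show g a d o n t = -g a d n o t by linarith [(s34 a d o n t)]),
        (show g a d o b t = g a b d o t by linarith [(s34 a d o b t), (s23 a d b o t)]),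
        (show g a d o n p = -g a d n o p by linarith [(s34 a d o n p)])] at e
      by_contra hc
      have hc := not_lt.mp hc
      linarith [e, mul_neg_of_neg_of_pos h192 h85, mul_nonneg hc h189.le, mul_neg_of_neg_of_pos h24 h226]
    have F_nops : ∀ x : Vertex, (x ≠ n ∧ x ≠ o ∧ x ≠ p ∧ x ≠ s) → 0 < g n o p s x :=
      (G_nops).resolve_right fun h => by linarith [h m (by decide), F_mnop s (by decide), (s45 n o p s m), (s34 n o p m s), (s23 n o m p s), (s12 n m o p s)]
    have h110 : 0 < g a n o p s := by linarith [F_nops a (by decide), (s45 n o p s a), (s34 n o p a s), (s23 n o a p s), (s12 n a o p s)]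
    have F_dapr : ∀ x : Vertex, (x ≠ d ∧ x ≠ a ∧ x ≠ p ∧ x ≠ r) → 0 < g d a p r x :=
      (G_dapr).resolve_right fun h => by linarith [h c (by decide), F_acdr p (by decide), (s45 a c d r p), (s12 d a p r c), (s45 a d p r c), (s34 a d p c r), (s23 a d c p r)]
    have h62 : g a d p r s < 0 := by linarith [F_dapr s (by decide), (s12 d a p r s)]
    have h59 : g a d n p r < 0 := by linarith [F_dapr n (by decide), (s12 d a p r n), (s45 a d p r n), (s34 a d p n r)]
    have F_mnps : ∀ x : Vertex, (x ≠ m ∧ x ≠ n ∧ x ≠ p ∧ x ≠ s) → 0 < g m n p s x :=
      (G_mnps).resolve_right fun h => by linarith [h o (by decide), F_mnop s (by decide), (s45 m n p s o), (s34 m n p o s)]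
    have F_dmns : ∀ x : Vertex, (x ≠ d ∧ x ≠ m ∧ x ≠ n ∧ x ≠ s) → g d m n s x < 0 :=
      (G_dmns).resolve_left fun h => by linarith [h p (by decide), F_mnps d (by decide), (s45 m n p s d), (s34 m n p d s), (s23 m n d p s), (s12 m d n p s), (s45 d m n s p)]
    have h170 : g a d m n s < 0 := by linarith [F_dmns a (by decide), (s45 d m n s a), (s34 d m n a s), (s23 d m a n s), (s12 d a m n s)]
    have F_anos : ∀ x : Vertex, (x ≠ a ∧ x ≠ n ∧ x ≠ o ∧ x ≠ s) → g a n o s x < 0 :=
      (G_anos).resolve_left fun h => by linarith [h p (by decide), F_nops a (by decide), (s45 n o p s a), (s34 n o p a s), (s23 n o a p s), (s12 n a o p s), (s45 a n o s p)]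
    have h154 : 0 < g a d n o s := by linarith [F_anos d (by decide), (s45 a n o s d), (s34 a n o d s), (s23 a n d o s)]
    have h117 : 0 < g a m n p s := by linarith [F_mnps a (by decide), (s45 m n p s a), (s34 m n p a s), (s23 m n a p s), (s12 m a n p s)]
    have h155 : 0 < g a m n o s := by linarith [F_anos m (by decide), (s45 a n o s m), (s34 a n o m s), (s23 a n m o s)]
    have h177 : 0 < g a d n p s := by
      have e := gp a n s d m o p
      rw [(show g a n s d m = g a d m n s by linarith [(s34 a n s d m), (s45 a n d s m), (s23 a n d m s), (s34 a d n m s)]),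
        (show g a n s o p = g a n o p s by linarith [(s34 a n s o p), (s45 a n o s p)]),
        (show g a n s d o = -g a d n o s by linarith [(s34 a n s d o), (s45 a n d s o), (s23 a n d o s)]),
        (show g a n s m p = -g a m n p s by linarith [(s34 a n s m p), (s45 a n m s p), (s23 a n m p s)]),
        (show g a n s d p = -g a d n p s by linarith [(s34 a n s d p), (s45 a n d s p), (s23 a n d p s)]),
        (show g a n s m o = -g a m n o s by linarith [(s34 a n s m o), (s45 a n m s o), (s23 a n m o s)])] at e
      by_contra hc
      have hc := not_lt.mp hc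
      linarith [e, mul_neg_of_neg_of_pos h170 h110, mul_pos h154 h117, mul_nonpos_of_nonpos_of_nonneg hc h155.le]
    have h60 : g a d o p r < 0 := by linarith [F_dapr o (by decide), (s12 d a p r o), (s45 a d p r o), (s34 a d p o r)]
    have h256 : 0 < g a d o p s := by
      have e := gp a d p n o r s
      rw [(show g a d p n o = g a d n o p by linarith [(s34 a d p n o), (s45 a d n p o)]),
        (show g a d p n r = -g a d n p r by linarith [(s34 a d p n r)]),
        (show g a d p o s = -g a d o p s by linarith [(s34 a d p o s)]),
        (show g a d p n s = -g a d n p s by linarith [(s34 a d p n s)]),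
        (show g a d p o r = -g a d o p r by linarith [(s34 a d p o r)])] at e
      by_contra hc
      have hc := not_lt.mp hc
      linarith [e, mul_neg_of_pos_of_neg h226 h62, mul_nonneg_of_nonpos_of_nonpos h59.le hc, mul_neg_of_pos_of_neg h177 h60]
    have F_bops : ∀ x : Vertex, (x ≠ b ∧ x ≠ o ∧ x ≠ p ∧ x ≠ s) → g b o p s x < 0 :=
      (G_bops).resolve_left fun h => by linarith [h n (by decide), F_nops b (by decide), (s45 n o p s b), (s34 n o p b s), (s23 n o b p s), (s12 n b o p s), (s45 b o p s n), (s34 b o p n s), (s23 b o n p s)]
    have h158 : g a b o p s < 0 := by linarith [F_bops a (by decide), (s45 b o p s a), (s34 b o p a s), (s23 b o a p s), (s12 b a o p s)]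
    have e := gp a o p b d n s
    rw [(show g a o p b d = g a b d o p by linarith [(s34 a o p b d), (s45 a o b p d), (s23 a o b d p), (s34 a b o d p)]),
      (show g a o p n s = g a n o p s by linarith [(s34 a o p n s), (s23 a o n p s)]),
      (show g a o p b n = g a b n o p by linarith [(s34 a o p b n), (s45 a o b p n), (s23 a o b n p), (s34 a b o n p)]),
      (show g a o p d s = g a d o p s by linarith [(s34 a o p d s), (s23 a o d p s)]),
      (show g a o p b s = g a b o p s by linarith [(s34 a o p b s), (s23 a o b p s)]),
      (show g a o p d n = g a d n o p by linarith [(s34 a o p d n), (s45 a o d p n), (s23 a o d n p), (s34 a d o n p)])] at e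
    linarith [e, mul_neg_of_neg_of_pos h255 h110, mul_pos h209 h256, mul_neg_of_neg_of_pos h158 h226]
  · have h463 := z
    rcases le_or_gt (g a b n s t) 0 with z | z
    · have h465 := z
      have F_nops : ∀ x : Vertex, (x ≠ n ∧ x ≠ o ∧ x ≠ p ∧ x ≠ s) → 0 < g n o p s x :=
        (G_nops).resolve_right fun h => by linarith [h m (by decide), F_mnop s (by decide), (s45 n o p s m), (s34 n o p m s), (s23 n o m p s), (s12 n m o p s)]
      have F_anos : ∀ x : Vertex, (x ≠ a ∧ x ≠ n ∧ x ≠ o ∧ x ≠ s) → g a n o s x < 0 :=
        (G_anos).resolve_left fun h => by linarith [h p (by decide), F_nops a (by decide), (s45 n o p s a), (s34 n o p a s), (s23 n o a p s), (s12 n a o p s), (s45 a n o s p)]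
      have h152 : 0 < g a b n o s := by linarith [F_anos b (by decide), (s45 a n o s b), (s34 a n o b s), (s23 a n b o s)]
      have F_bops : ∀ x : Vertex, (x ≠ b ∧ x ≠ o ∧ x ≠ p ∧ x ≠ s) → g b o p s x < 0 :=
        (G_bops).resolve_left fun h => by linarith [h n (by decide), F_nops b (by decide), (s45 n o p s b), (s34 n o p b s), (s23 n o b p s), (s12 n b o p s), (s45 b o p s n), (s34 b o p n s), (s23 b o n p s)]
      have h163 : g b o p s t < 0 := by linarith [F_bops t (by decide)]
      have h158 : g a b o p s < 0 := by linarith [F_bops a (by decide), (s45 b o p s a), (s34 b o p a s), (s23 b o a p s), (s12 b a o p s)]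
      have F_bcdt : ∀ x : Vertex, (x ≠ b ∧ x ≠ c ∧ x ≠ d ∧ x ≠ t) → 0 < g b c d t x :=
        (G_bcdt).resolve_right fun h => by linarith [h a (by decide), F_abcd t (by decide), (s45 b c d t a), (s34 b c d a t), (s23 b c a d t), (s12 b a c d t)]
      have F_bcnt : ∀ x : Vertex, (x ≠ b ∧ x ≠ c ∧ x ≠ n ∧ x ≠ t) → g b c n t x < 0 :=
        (G_bcnt).resolve_left fun h => by linarith [h d (by decide), F_bcdt n (by decide), (s45 b c d t n), (s45 b c n t d), (s34 b c n d t)]
      have h70 : g a b c n t < 0 := by linarith [F_bcnt a (by decide), (s45 b c n t a), (s34 b c n a t), (s23 b c a n t), (s12 b a c n t)]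
      have h75 : 0 < g b c n s t := by linarith [F_bcnt s (by decide), (s45 b c n t s)]
      have h72 : 0 < g b c n o t := by linarith [F_bcnt o (by decide), (s45 b c n t o)]
      have h469 : g b n o s t < 0 := by
        have e := gp b n t a c o s
        rw [(show g b n t a c = -g a b c n t by linarith [(s34 b n t a c), (s45 b n a t c), (s23 b n a c t), (s34 b a n c t), (s12 b a c n t)]),
          (show g b n t o s = g b n o s t by linarith [(s34 b n t o s), (s45 b n o t s)]),
          (show g b n t a o = g a b n o t by linarith [(s34 b n t a o), (s45 b n a t o), (s23 b n a o t), (s12 b a n o t)]),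
          (show g b n t c s = -g b c n s t by linarith [(s34 b n t c s), (s45 b n c t s), (s23 b n c s t)]),
          (show g b n t a s = g a b n s t by linarith [(s34 b n t a s), (s45 b n a t s), (s23 b n a s t), (s12 b a n s t)]),
          (show g b n t c o = -g b c n o t by linarith [(s34 b n t c o), (s45 b n c t o), (s23 b n c o t)])] at e
        by_contra hc
        have hc := not_lt.mp hc
        linarith [e, mul_nonpos_of_nonpos_of_nonneg h70.le hc, mul_pos h463 h75, mul_nonpos_of_nonpos_of_nonneg h465 h72.le]
      have F_abdt : ∀ x : Vertex, (x ≠ a ∧ x ≠ b ∧ x ≠ d ∧ x ≠ t) → 0 < g a b d t x :=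
        (G_abdt).resolve_right fun h => by linarith [h c (by decide), F_abcd t (by decide), (s45 a b d t c), (s34 a b d c t)]
      have h23 : g a b d n t < 0 := by linarith [F_abdt n (by decide), (s45 a b d t n)]
      have h24 : g a b d o t < 0 := by linarith [F_abdt o (by decide), (s45 a b d t o)]
      have h28 : g a b d s t < 0 := by linarith [F_abdt s (by decide), (s45 a b d t s)]
      have h467 : g a b o s t < 0 := by
        have e := gp a b t d n o s
        rw [(show g a b t d n = g a b d n t by linarith [(s34 a b t d n), (s45 a b d t n)]),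
          (show g a b t o s = g a b o s t by linarith [(s34 a b t o s), (s45 a b o t s)]),
          (show g a b t d o = g a b d o t by linarith [(s34 a b t d o), (s45 a b d t o)]),
          (show g a b t n s = g a b n s t by linarith [(s34 a b t n s), (s45 a b n t s)]),
          (show g a b t d s = g a b d s t by linarith [(s34 a b t d s), (s45 a b d t s)]),
          (show g a b t n o = g a b n o t by linarith [(s34 a b t n o), (s45 a b n t o)])] at e
        by_contra hc
        have hc := not_lt.mp hc
        linarith [e, mul_nonpos_of_nonpos_of_nonneg h23.le hc, mul_nonneg_of_nonpos_of_nonpos h24.le h465, mul_neg_of_neg_of_pos h28 h463]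
      have h111 : 0 < g b n o p s := by linarith [F_nops b (by decide), (s45 n o p s b), (s34 n o p b s), (s23 n o b p s), (s12 n b o p s)]
      have e := gp b o s a n p t
      rw [(show g b o s a n = -g a b n o s by linarith [(s34 b o s a n), (s45 b o a s n), (s23 b o a n s), (s34 b a o n s), (s12 b a n o s)]),
        (show g b o s p t = -g b o p s t by linarith [(s34 b o s p t)]),
        (show g b o s a p = g a b o p s by linarith [(s34 b o s a p), (s45 b o a s p), (s23 b o a p s), (s12 b a o p s)]),
        (show g b o s n t = g b n o s t by linarith [(s34 b o s n t), (s23 b o n s t)]),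
        (show g b o s a t = -g a b o s t by linarith [(s34 b o s a t), (s23 b o a s t), (s12 b a o s t)]),
        (show g b o s n p = -g b n o p s by linarith [(s34 b o s n p), (s45 b o n s p), (s23 b o n p s)])] at e
      linarith [e, mul_neg_of_pos_of_neg h152 h163, mul_pos_of_neg_of_neg h158 h469, mul_neg_of_neg_of_pos h467 h111]
    · have h477 := z
      rcases le_or_gt (g b m n p t) 0 with z | z
      · have h479 := z
        have F_mnoq : ∀ x : Vertex, (x ≠ m ∧ x ≠ n ∧ x ≠ o ∧ x ≠ q) → g m n o q x < 0 :=
          (G_mnoq).resolve_left fun h => by linarith [h p (by decide), F_mnop q (by decide), (s45 m n o q p)]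
        have h97 : g b m n o q < 0 := by linarith [F_mnoq b (by decide), (s45 m n o q b), (s34 m n o b q), (s23 m n b o q), (s12 m b n o q)]
        have F_mopq : ∀ x : Vertex, (x ≠ m ∧ x ≠ o ∧ x ≠ p ∧ x ≠ q) → g m o p q x < 0 :=
          (G_mopq).resolve_left fun h => by linarith [h n (by decide), F_mnop q (by decide), (s45 m o p q n), (s34 m o p n q), (s23 m o n p q)]
        have F_bopq : ∀ x : Vertex, (x ≠ b ∧ x ≠ o ∧ x ≠ p ∧ x ≠ q) → 0 < g b o p q x :=
          (G_bopq).resolve_right fun h => by linarith [h m (by decide), F_mopq b (by decide), (s45 m o p q b), (s34 m o p b q), (s23 m o b p q), (s12 m b o p q), (s45 b o p q m), (s34 b o p m q), (s23 b o m p q)]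
        have h137 : 0 < g b o p q t := by linarith [F_bopq t (by decide)]
        have h104 : g b m o p q < 0 := by linarith [F_mopq b (by decide), (s45 m o p q b), (s34 m o p b q), (s23 m o b p q), (s12 m b o p q)]
        have F_bcdt : ∀ x : Vertex, (x ≠ b ∧ x ≠ c ∧ x ≠ d ∧ x ≠ t) → 0 < g b c d t x :=
          (G_bcdt).resolve_right fun h => by linarith [h a (by decide), F_abcd t (by decide), (s45 b c d t a), (s34 b c d a t), (s23 b c a d t), (s12 b a c d t)]
        have F_bcnt : ∀ x : Vertex, (x ≠ b ∧ x ≠ c ∧ x ≠ n ∧ x ≠ t) → g b c n t x < 0 :=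
          (G_bcnt).resolve_left fun h => by linarith [h d (by decide), F_bcdt n (by decide), (s45 b c d t n), (s45 b c n t d), (s34 b c n d t)]
        have h71 : g b c m n t < 0 := by linarith [F_bcnt m (by decide), (s45 b c n t m), (s34 b c n m t)]
        have h72 : 0 < g b c n o t := by linarith [F_bcnt o (by decide), (s45 b c n t o)]
        have h70 : g a b c n t < 0 := by linarith [F_bcnt a (by decide), (s45 b c n t a), (s34 b c n a t), (s23 b c a n t), (s12 b a c n t)]
        have F_abdt : ∀ x : Vertex, (x ≠ a ∧ x ≠ b ∧ x ≠ d ∧ x ≠ t) → 0 < g a b d t x :=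
          (G_abdt).resolve_right fun h => by linarith [h c (by decide), F_abcd t (by decide), (s45 a b d t c), (s34 a b d c t)]
        have F_abmt : ∀ x : Vertex, (x ≠ a ∧ x ≠ b ∧ x ≠ m ∧ x ≠ t) → g a b m t x < 0 :=
          (G_abmt).resolve_left fun h => by linarith [h d (by decide), F_abdt m (by decide), (s45 a b d t m), (s45 a b m t d), (s34 a b m d t)]
        have h65 : 0 < g a b m n t := by linarith [F_abmt n (by decide), (s45 a b m t n)]
        have h75 : 0 < g b c n s t := by linarith [F_bcnt s (by decide), (s45 b c n t s)]
        have h478 : g b m n s t < 0 := by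
          have e := gp b n t a c m s
          rw [(show g b n t a c = -g a b c n t by linarith [(s34 b n t a c), (s45 b n a t c), (s23 b n a c t), (s34 b a n c t), (s12 b a c n t)]),
            (show g b n t m s = -g b m n s t by linarith [(s34 b n t m s), (s45 b n m t s), (s23 b n m s t)]),
            (show g b n t a m = -g a b m n t by linarith [(s34 b n t a m), (s45 b n a t m), (s23 b n a m t), (s34 b a n m t), (s12 b a m n t)]),
            (show g b n t c s = -g b c n s t by linarith [(s34 b n t c s), (s45 b n c t s), (s23 b n c s t)]),
            (show g b n t a s = g a b n s t by linarith [(s34 b n t a s), (s45 b n a t s), (s23 b n a s t), (s12 b a n s t)]),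
            (show g b n t c m = g b c m n t by linarith [(s34 b n t c m), (s45 b n c t m), (s23 b n c m t), (s34 b c n m t)])] at e
          by_contra hc
          have hc := not_lt.mp hc
          linarith [e, mul_nonpos_of_nonpos_of_nonneg h70.le hc, mul_pos h65 h75, mul_neg_of_pos_of_neg h477 h71]
        have F_mnps : ∀ x : Vertex, (x ≠ m ∧ x ≠ n ∧ x ≠ p ∧ x ≠ s) → 0 < g m n p s x :=
          (G_mnps).resolve_right fun h => by linarith [h o (by decide), F_mnop s (by decide), (s45 m n p s o), (s34 m n p o s)]
        have F_dmns : ∀ x : Vertex, (x ≠ d ∧ x ≠ m ∧ x ≠ n ∧ x ≠ s) → g d m n s x < 0 :=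
          (G_dmns).resolve_left fun h => by linarith [h p (by decide), F_mnps d (by decide), (s45 m n p s d), (s34 m n p d s), (s23 m n d p s), (s12 m d n p s), (s45 d m n s p)]
        have h171 : g b d m n s < 0 := by linarith [F_dmns b (by decide), (s45 d m n s b), (s34 d m n b s), (s23 d m b n s), (s12 d b m n s)]
        have h64 : g a b c m t < 0 := by linarith [F_abmt c (by decide), (s45 a b m t c), (s34 a b m c t)]
        have h22 : g a b d m t < 0 := by linarith [F_abdt m (by decide), (s45 a b d t m)]
        have h29 : g b c d m t < 0 := by linarith [F_bcdt m (by decide), (s45 b c d t m)]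
        have h179 : g b d m n t < 0 := by
          have e := gp b m t a c d n
          rw [(show g b m t a c = -g a b c m t by linarith [(s34 b m t a c), (s45 b m a t c), (s23 b m a c t), (s34 b a m c t), (s12 b a c m t)]),
            (show g b m t d n = -g b d m n t by linarith [(s34 b m t d n), (s45 b m d t n), (s23 b m d n t)]),
            (show g b m t a d = -g a b d m t by linarith [(s34 b m t a d), (s45 b m a t d), (s23 b m a d t), (s34 b a m d t), (s12 b a d m t)]),
            (show g b m t c n = -g b c m n t by linarith [(s34 b m t c n), (s45 b m c t n), (s23 b m c n t)]),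
            (show g b m t a n = g a b m n t by linarith [(s34 b m t a n), (s45 b m a t n), (s23 b m a n t), (s12 b a m n t)]),
            (show g b m t c d = g b c d m t by linarith [(s34 b m t c d), (s45 b m c t d), (s23 b m c d t), (s34 b c m d t)])] at e
          by_contra hc
          have hc := not_lt.mp hc
          linarith [e, mul_nonpos_of_nonpos_of_nonneg h64.le hc, mul_pos_of_neg_of_neg h22 h71, mul_neg_of_pos_of_neg h65 h29]
        have h118 : 0 < g b m n p s := by linarith [F_mnps b (by decide), (s45 m n p s b), (s34 m n p b s), (s23 m n b p s), (s12 m b n p s)]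
        have h480 : g b d m n p < 0 := by
          have e := gp b m n d p s t
          rw [(show g b m n d p = g b d m n p by linarith [(s34 b m n d p), (s23 b m d n p)]),
            (show g b m n d s = g b d m n s by linarith [(s34 b m n d s), (s23 b m d n s)]),
            (show g b m n d t = g b d m n t by linarith [(s34 b m n d t), (s23 b m d n t)])] at e
          by_contra hc
          have hc := not_lt.mp hc
          linarith [e, mul_nonpos_of_nonneg_of_nonpos hc h478.le, mul_nonneg_of_nonpos_of_nonpos h171.le h479, mul_neg_of_neg_of_pos h179 h118]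
        have h464 : g b m n o t < 0 := by
          have e := gp b n t a c m o
          rw [(show g b n t a c = -g a b c n t by linarith [(s34 b n t a c), (s45 b n a t c), (s23 b n a c t), (s34 b a n c t), (s12 b a c n t)]),
            (show g b n t m o = -g b m n o t by linarith [(s34 b n t m o), (s45 b n m t o), (s23 b n m o t)]),
            (show g b n t a m = -g a b m n t by linarith [(s34 b n t a m), (s45 b n a t m), (s23 b n a m t), (s34 b a n m t), (s12 b a m n t)]),
            (show g b n t c o = -g b c n o t by linarith [(s34 b n t c o), (s45 b n c t o), (s23 b n c o t)]),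
            (show g b n t a o = g a b n o t by linarith [(s34 b n t a o), (s45 b n a t o), (s23 b n a o t), (s12 b a n o t)]),
            (show g b n t c m = g b c m n t by linarith [(s34 b n t c m), (s45 b n c t m), (s23 b n c m t), (s34 b c n m t)])] at e
          by_contra hc
          have hc := not_lt.mp hc
          linarith [e, mul_nonpos_of_nonpos_of_nonneg h70.le hc, mul_pos h65 h72, mul_neg_of_pos_of_neg h463 h71]
        have h89 : 0 < g b m n o p := by linarith [F_mnop b (by decide), (s45 m n o p b), (s34 m n o b p), (s23 m n b o p), (s12 m b n o p)]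
        have h484 : g b d m n o < 0 := by
          have e := gp b m n d o p t
          rw [(show g b m n d o = g b d m n o by linarith [(s34 b m n d o), (s23 b m d n o)]),
            (show g b m n d p = g b d m n p by linarith [(s34 b m n d p), (s23 b m d n p)]),
            (show g b m n d t = g b d m n t by linarith [(s34 b m n d t), (s23 b m d n t)])] at e
          by_contra hc
          have hc := not_lt.mp hc
          linarith [e, mul_nonpos_of_nonneg_of_nonpos hc h479, mul_pos_of_neg_of_neg h480 h464, mul_neg_of_neg_of_pos h179 h89]
        have F_dmnq : ∀ x : Vertex, (x ≠ d ∧ x ≠ m ∧ x ≠ n ∧ x ≠ q) → 0 < g d m n q x :=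
          (G_dmnq).resolve_right fun h => by linarith [h o (by decide), F_mnoq d (by decide), (s45 m n o q d), (s34 m n o d q), (s23 m n d o q), (s12 m d n o q), (s45 d m n q o)]
        have h146 : 0 < g b d m n q := by linarith [F_dmnq b (by decide), (s45 d m n q b), (s34 d m n b q), (s23 d m b n q), (s12 d b m n q)]
        have h489 : 0 < g b m n q t := by
          have e := gp b m n d o q t
          rw [(show g b m n d o = g b d m n o by linarith [(s34 b m n d o), (s23 b m d n o)]),
            (show g b m n d q = g b d m n q by linarith [(s34 b m n d q), (s23 b m d n q)]),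
            (show g b m n d t = g b d m n t by linarith [(s34 b m n d t), (s23 b m d n t)])] at e
          by_contra hc
          have hc := not_lt.mp hc
          linarith [e, mul_nonneg_of_nonpos_of_nonpos h484.le hc, mul_neg_of_pos_of_neg h146 h464, mul_pos_of_neg_of_neg h179 h97]
        have h74 : 0 < g b c n q t := by linarith [F_bcnt q (by decide), (s45 b c n t q)]
        have h497 : g b n o q t < 0 := by
          have e := gp b n t c m o q
          rw [(show g b n t c m = g b c m n t by linarith [(s34 b n t c m), (s45 b n c t m), (s23 b n c m t), (s34 b c n m t)]),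
            (show g b n t o q = g b n o q t by linarith [(s34 b n t o q), (s45 b n o t q)]),
            (show g b n t c o = -g b c n o t by linarith [(s34 b n t c o), (s45 b n c t o), (s23 b n c o t)]),
            (show g b n t m q = -g b m n q t by linarith [(s34 b n t m q), (s45 b n m t q), (s23 b n m q t)]),
            (show g b n t c q = -g b c n q t by linarith [(s34 b n t c q), (s45 b n c t q), (s23 b n c q t)]),
            (show g b n t m o = -g b m n o t by linarith [(s34 b n t m o), (s45 b n m t o), (s23 b n m o t)])] at e
          by_contra hc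
          have hc := not_lt.mp hc
          linarith [e, mul_nonpos_of_nonpos_of_nonneg h71.le hc, mul_pos h72 h489, mul_neg_of_pos_of_neg h74 h464]
        have h66 : 0 < g a b m o t := by linarith [F_abmt o (by decide), (s45 a b m t o)]
        have h68 : 0 < g a b m q t := by linarith [F_abmt q (by decide), (s45 a b m t q)]
        have h492 : 0 < g b m o q t := by
          have e := gp b m t a n o q
          rw [(show g b m t a n = g a b m n t by linarith [(s34 b m t a n), (s45 b m a t n), (s23 b m a n t), (s12 b a m n t)]),
            (show g b m t o q = g b m o q t by linarith [(s34 b m t o q), (s45 b m o t q)]),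
            (show g b m t a o = g a b m o t by linarith [(s34 b m t a o), (s45 b m a t o), (s23 b m a o t), (s12 b a m o t)]),
            (show g b m t n q = g b m n q t by linarith [(s34 b m t n q), (s45 b m n t q)]),
            (show g b m t a q = g a b m q t by linarith [(s34 b m t a q), (s45 b m a t q), (s23 b m a q t), (s12 b a m q t)]),
            (show g b m t n o = g b m n o t by linarith [(s34 b m t n o), (s45 b m n t o)])] at e
          by_contra hc
          have hc := not_lt.mp hc
          linarith [e, mul_nonpos_of_nonneg_of_nonpos h65.le hc, mul_pos h66 h489, mul_neg_of_pos_of_neg h68 h464]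
        have h134 : g b n o p q < 0 := by linarith [F_bopq n (by decide), (s45 b o p q n), (s34 b o p n q), (s23 b o n p q)]
        have e := gp b o q m n p t
        rw [(show g b o q m n = g b m n o q by linarith [(s34 b o q m n), (s45 b o m q n), (s23 b o m n q), (s34 b m o n q)]),
          (show g b o q p t = -g b o p q t by linarith [(s34 b o q p t)]),
          (show g b o q m p = -g b m o p q by linarith [(s34 b o q m p), (s45 b o m q p), (s23 b o m p q)]),
          (show g b o q n t = g b n o q t by linarith [(s34 b o q n t), (s23 b o n q t)]),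
          (show g b o q m t = g b m o q t by linarith [(s34 b o q m t), (s23 b o m q t)]),
          (show g b o q n p = -g b n o p q by linarith [(s34 b o q n p), (s45 b o n q p), (s23 b o n p q)])] at e
        linarith [e, mul_neg_of_neg_of_pos h97 h137, mul_pos_of_neg_of_neg h104 h497, mul_neg_of_pos_of_neg h492 h134]
      · have h531 := z
        have h89 : 0 < g b m n o p := by linarith [F_mnop b (by decide), (s45 m n o p b), (s34 m n o b p), (s23 m n b o p), (s12 m b n o p)]
        have F_bcdt : ∀ x : Vertex, (x ≠ b ∧ x ≠ c ∧ x ≠ d ∧ x ≠ t) → 0 < g b c d t x :=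
          (G_bcdt).resolve_right fun h => by linarith [h a (by decide), F_abcd t (by decide), (s45 b c d t a), (s34 b c d a t), (s23 b c a d t), (s12 b a c d t)]
        have F_bcnt : ∀ x : Vertex, (x ≠ b ∧ x ≠ c ∧ x ≠ n ∧ x ≠ t) → g b c n t x < 0 :=
          (G_bcnt).resolve_left fun h => by linarith [h d (by decide), F_bcdt n (by decide), (s45 b c d t n), (s45 b c n t d), (s34 b c n d t)]
        have h71 : g b c m n t < 0 := by linarith [F_bcnt m (by decide), (s45 b c n t m), (s34 b c n m t)]
        have h73 : 0 < g b c n p t := by linarith [F_bcnt p (by decide), (s45 b c n t p)]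
        have h70 : g a b c n t < 0 := by linarith [F_bcnt a (by decide), (s45 b c n t a), (s34 b c n a t), (s23 b c a n t), (s12 b a c n t)]
        have F_abdt : ∀ x : Vertex, (x ≠ a ∧ x ≠ b ∧ x ≠ d ∧ x ≠ t) → 0 < g a b d t x :=
          (G_abdt).resolve_right fun h => by linarith [h c (by decide), F_abcd t (by decide), (s45 a b d t c), (s34 a b d c t)]
        have F_abmt : ∀ x : Vertex, (x ≠ a ∧ x ≠ b ∧ x ≠ m ∧ x ≠ t) → g a b m t x < 0 :=
          (G_abmt).resolve_left fun h => by linarith [h d (by decide), F_abdt m (by decide), (s45 a b d t m), (s45 a b m t d), (s34 a b m d t)]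
        have h65 : 0 < g a b m n t := by linarith [F_abmt n (by decide), (s45 a b m t n)]
        have h75 : 0 < g b c n s t := by linarith [F_bcnt s (by decide), (s45 b c n t s)]
        have h478 : g b m n s t < 0 := by
          have e := gp b n t a c m s
          rw [(show g b n t a c = -g a b c n t by linarith [(s34 b n t a c), (s45 b n a t c), (s23 b n a c t), (s34 b a n c t), (s12 b a c n t)]),
            (show g b n t m s = -g b m n s t by linarith [(s34 b n t m s), (s45 b n m t s), (s23 b n m s t)]),
            (show g b n t a m = -g a b m n t by linarith [(s34 b n t a m), (s45 b n a t m), (s23 b n a m t), (s34 b a n m t), (s12 b a m n t)]),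
            (show g b n t c s = -g b c n s t by linarith [(s34 b n t c s), (s45 b n c t s), (s23 b n c s t)]),
            (show g b n t a s = g a b n s t by linarith [(s34 b n t a s), (s45 b n a t s), (s23 b n a s t), (s12 b a n s t)]),
            (show g b n t c m = g b c m n t by linarith [(s34 b n t c m), (s45 b n c t m), (s23 b n c m t), (s34 b c n m t)])] at e
          by_contra hc
          have hc := not_lt.mp hc
          linarith [e, mul_nonpos_of_nonpos_of_nonneg h70.le hc, mul_pos h65 h75, mul_neg_of_pos_of_neg h477 h71]
        have h540 : 0 < g b n p s t := by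
          have e := gp b n t c m p s
          rw [(show g b n t c m = g b c m n t by linarith [(s34 b n t c m), (s45 b n c t m), (s23 b n c m t), (s34 b c n m t)]),
            (show g b n t p s = g b n p s t by linarith [(s34 b n t p s), (s45 b n p t s)]),
            (show g b n t c p = -g b c n p t by linarith [(s34 b n t c p), (s45 b n c t p), (s23 b n c p t)]),
            (show g b n t m s = -g b m n s t by linarith [(s34 b n t m s), (s45 b n m t s), (s23 b n m s t)]),
            (show g b n t c s = -g b c n s t by linarith [(s34 b n t c s), (s45 b n c t s), (s23 b n c s t)]),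
            (show g b n t m p = -g b m n p t by linarith [(s34 b n t m p), (s45 b n m t p), (s23 b n m p t)])] at e
          by_contra hc
          have hc := not_lt.mp hc
          linarith [e, mul_nonneg_of_nonpos_of_nonpos h71.le hc, mul_neg_of_pos_of_neg h73 h478, mul_pos h75 h531]
        have F_mnps : ∀ x : Vertex, (x ≠ m ∧ x ≠ n ∧ x ≠ p ∧ x ≠ s) → 0 < g m n p s x :=
          (G_mnps).resolve_right fun h => by linarith [h o (by decide), F_mnop s (by decide), (s45 m n p s o), (s34 m n p o s)]
        have h118 : 0 < g b m n p s := by linarith [F_mnps b (by decide), (s45 m n p s b), (s34 m n p b s), (s23 m n b p s), (s12 m b n p s)]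
        have h72 : 0 < g b c n o t := by linarith [F_bcnt o (by decide), (s45 b c n t o)]
        have h464 : g b m n o t < 0 := by
          have e := gp b n t a c m o
          rw [(show g b n t a c = -g a b c n t by linarith [(s34 b n t a c), (s45 b n a t c), (s23 b n a c t), (s34 b a n c t), (s12 b a c n t)]),
            (show g b n t m o = -g b m n o t by linarith [(s34 b n t m o), (s45 b n m t o), (s23 b n m o t)]),
            (show g b n t a m = -g a b m n t by linarith [(s34 b n t a m), (s45 b n a t m), (s23 b n a m t), (s34 b a n m t), (s12 b a m n t)]),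
            (show g b n t c o = -g b c n o t by linarith [(s34 b n t c o), (s45 b n c t o), (s23 b n c o t)]),
            (show g b n t a o = g a b n o t by linarith [(s34 b n t a o), (s45 b n a t o), (s23 b n a o t), (s12 b a n o t)]),
            (show g b n t c m = g b c m n t by linarith [(s34 b n t c m), (s45 b n c t m), (s23 b n c m t), (s34 b c n m t)])] at e
          by_contra hc
          have hc := not_lt.mp hc
          linarith [e, mul_nonpos_of_nonpos_of_nonneg h70.le hc, mul_pos h65 h72, mul_neg_of_pos_of_neg h463 h71]
        have h539 : g b n o p t < 0 := by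
          have e := gp b n t c m o p
          rw [(show g b n t c m = g b c m n t by linarith [(s34 b n t c m), (s45 b n c t m), (s23 b n c m t), (s34 b c n m t)]),
            (show g b n t o p = g b n o p t by linarith [(s34 b n t o p), (s45 b n o t p)]),
            (show g b n t c o = -g b c n o t by linarith [(s34 b n t c o), (s45 b n c t o), (s23 b n c o t)]),
            (show g b n t m p = -g b m n p t by linarith [(s34 b n t m p), (s45 b n m t p), (s23 b n m p t)]),
            (show g b n t c p = -g b c n p t by linarith [(s34 b n t c p), (s45 b n c t p), (s23 b n c p t)]),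
            (show g b n t m o = -g b m n o t by linarith [(s34 b n t m o), (s45 b n m t o), (s23 b n m o t)])] at e
          by_contra hc
          have hc := not_lt.mp hc
          linarith [e, mul_nonpos_of_nonpos_of_nonneg h71.le hc, mul_pos h72 h531, mul_neg_of_pos_of_neg h73 h464]
        have F_nops : ∀ x : Vertex, (x ≠ n ∧ x ≠ o ∧ x ≠ p ∧ x ≠ s) → 0 < g n o p s x :=
          (G_nops).resolve_right fun h => by linarith [h m (by decide), F_mnop s (by decide), (s45 n o p s m), (s34 n o p m s), (s23 n o m p s), (s12 n m o p s)]
        have h111 : 0 < g b n o p s := by linarith [F_nops b (by decide), (s45 n o p s b), (s34 n o p b s), (s23 n o b p s), (s12 n b o p s)]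
        have e := gp b n p m o s t
        rw [(show g b n p m o = -g b m n o p by linarith [(s34 b n p m o), (s45 b n m p o), (s23 b n m o p)]),
          (show g b n p m s = g b m n p s by linarith [(s34 b n p m s), (s23 b n m p s)]),
          (show g b n p o t = -g b n o p t by linarith [(s34 b n p o t)]),
          (show g b n p m t = g b m n p t by linarith [(s34 b n p m t), (s23 b n m p t)]),
          (show g b n p o s = -g b n o p s by linarith [(s34 b n p o s)])] at e
        linarith [e, mul_pos h89 h540, mul_neg_of_pos_of_neg h118 h539, mul_pos h531 h111]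

theorem case₂_pm {g : Vertex → Vertex → Vertex → Vertex → Vertex → ℝ} (hg : Alt g)
    (F_abcd : ∀ x : Vertex, (x ≠ a ∧ x ≠ b ∧ x ≠ c ∧ x ≠ d) → 0 < g a b c d x)
    (F_mnop : ∀ x : Vertex, (x ≠ m ∧ x ≠ n ∧ x ≠ o ∧ x ≠ p) → g m n o p x < 0)
    (fac : SignCondition facets₂ g) : False := by
  obtain ⟨s12, s23, s34, s45, gp⟩ := hg
  have G_bcdt := fac b c d t (by simp [facets₂])
  have G_bcnt := fac b c n t (by simp [facets₂])
  have G_abdt := fac a b d t (by simp [facets₂])
  have G_cdot := fac c d o t (by simp [facets₂])
  have G_mnoq := fac m n o q (by simp [facets₂])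
  have G_anoq := fac a n o q (by simp [facets₂])
  have G_abmt := fac a b m t (by simp [facets₂])
  have G_acdr := fac a c d r (by simp [facets₂])
  have G_abcr := fac a b c r (by simp [facets₂])
  have G_cdor := fac c d o r (by simp [facets₂])
  have G_bcnr := fac b c n r (by simp [facets₂])
  have G_dapt := fac d a p t (by simp [facets₂])
  have G_dapr := fac d a p r (by simp [facets₂])
  have G_dmnq := fac d m n q (by simp [facets₂])
  have G_abmr := fac a b m r (by simp [facets₂])
  have G_mopq := fac m o p q (by simp [facets₂])
  have G_bopq := fac b o p q (by simp [facets₂])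
  have G_nops := fac n o p s (by simp [facets₂])
  have G_bops := fac b o p s (by simp [facets₂])
  have G_mnps := fac m n p s (by simp [facets₂])
  have G_dmns := fac d m n s (by simp [facets₂])
  rcases le_or_gt (g a d n o t) 0 with z | z
  · have h184 := z
    have F_bcdt : ∀ x : Vertex, (x ≠ b ∧ x ≠ c ∧ x ≠ d ∧ x ≠ t) → 0 < g b c d t x :=
      (G_bcdt).resolve_right fun h => by linarith [h a (by decide), F_abcd t (by decide), (s45 b c d t a), (s34 b c d a t), (s23 b c a d t), (s12 b a c d t)]
    have F_bcnt : ∀ x : Vertex, (x ≠ b ∧ x ≠ c ∧ x ≠ n ∧ x ≠ t) → g b c n t x < 0 :=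
      (G_bcnt).resolve_left fun h => by linarith [h d (by decide), F_bcdt n (by decide), (s45 b c d t n), (s45 b c n t d), (s34 b c n d t)]
    have h70 : g a b c n t < 0 := by linarith [F_bcnt a (by decide), (s45 b c n t a), (s34 b c n a t), (s23 b c a n t), (s12 b a c n t)]
    have F_abdt : ∀ x : Vertex, (x ≠ a ∧ x ≠ b ∧ x ≠ d ∧ x ≠ t) → 0 < g a b d t x :=
      (G_abdt).resolve_right fun h => by linarith [h c (by decide), F_abcd t (by decide), (s45 a b d t c), (s34 a b d c t)]
    have h24 : g a b d o t < 0 := by linarith [F_abdt o (by decide), (s45 a b d t o)]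
    have F_cdot : ∀ x : Vertex, (x ≠ c ∧ x ≠ d ∧ x ≠ o ∧ x ≠ t) → g c d o t x < 0 :=
      (G_cdot).resolve_left fun h => by linarith [h b (by decide), F_bcdt o (by decide), (s45 b c d t o), (s45 c d o t b), (s34 c d o b t), (s23 c d b o t), (s12 c b d o t)]
    have h78 : g c d n o t < 0 := by linarith [F_cdot n (by decide), (s45 c d o t n), (s34 c d o n t)]
    have h76 : g a c d o t < 0 := by linarith [F_cdot a (by decide), (s45 c d o t a), (s34 c d o a t), (s23 c d a o t), (s12 c a d o t)]
    have h31 : g b c d o t < 0 := by linarith [F_bcdt o (by decide), (s45 b c d t o)]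
    have h186 : g b d n o t < 0 := by
      have e := gp d o t a b c n
      rw [(show g d o t a b = g a b d o t by linarith [(s34 d o t a b), (s45 d o a t b), (s23 d o a b t), (s34 d a o b t), (s12 d a b o t), (s23 a d b o t)]),
        (show g d o t c n = -g c d n o t by linarith [(s34 d o t c n), (s45 d o c t n), (s23 d o c n t), (s34 d c o n t), (s12 d c n o t)]),
        (show g d o t a c = g a c d o t by linarith [(s34 d o t a c), (s45 d o a t c), (s23 d o a c t), (s34 d a o c t), (s12 d a c o t), (s23 a d c o t)]),
        (show g d o t b n = -g b d n o t by linarith [(s34 d o t b n), (s45 d o b t n), (s23 d o b n t), (s34 d b o n t), (s12 d b n o t)]),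
        (show g d o t a n = -g a d n o t by linarith [(s34 d o t a n), (s45 d o a t n), (s23 d o a n t), (s34 d a o n t), (s12 d a n o t)]),
        (show g d o t b c = g b c d o t by linarith [(s34 d o t b c), (s45 d o b t c), (s23 d o b c t), (s34 d b o c t), (s12 d b c o t), (s23 b d c o t)])] at e
      by_contra hc
      have hc := not_lt.mp hc
      linarith [e, mul_pos_of_neg_of_neg h24 h78, mul_nonpos_of_nonpos_of_nonneg h76.le hc, mul_nonneg_of_nonpos_of_nonpos h184 h31.le]
    have h23 : g a b d n t < 0 := by linarith [F_abdt n (by decide), (s45 a b d t n)]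
    have h72 : 0 < g b c n o t := by linarith [F_bcnt o (by decide), (s45 b c n t o)]
    have h30 : g b c d n t < 0 := by linarith [F_bcdt n (by decide), (s45 b c d t n)]
    have h188 : 0 < g a b n o t := by
      have e := gp b n t a c d o
      rw [(show g b n t a c = -g a b c n t by linarith [(s34 b n t a c), (s45 b n a t c), (s23 b n a c t), (s34 b a n c t), (s12 b a c n t)]),
        (show g b n t d o = -g b d n o t by linarith [(s34 b n t d o), (s45 b n d t o), (s23 b n d o t)]),
        (show g b n t a d = -g a b d n t by linarith [(s34 b n t a d), (s45 b n a t d), (s23 b n a d t), (s34 b a n d t), (s12 b a d n t)]),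
        (show g b n t c o = -g b c n o t by linarith [(s34 b n t c o), (s45 b n c t o), (s23 b n c o t)]),
        (show g b n t a o = g a b n o t by linarith [(s34 b n t a o), (s45 b n a t o), (s23 b n a o t), (s12 b a n o t)]),
        (show g b n t c d = g b c d n t by linarith [(s34 b n t c d), (s45 b n c t d), (s23 b n c d t), (s34 b c n d t)])] at e
      by_contra hc
      have hc := not_lt.mp hc
      linarith [e, mul_pos_of_neg_of_neg h70 h186, mul_neg_of_neg_of_pos h23 h72, mul_nonneg_of_nonpos_of_nonpos hc h30.le]
    have F_mnoq : ∀ x : Vertex, (x ≠ m ∧ x ≠ n ∧ x ≠ o ∧ x ≠ q) → 0 < g m n o q x :=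
      (G_mnoq).resolve_right fun h => by linarith [h p (by decide), F_mnop q (by decide), (s45 m n o q p)]
    have F_anoq : ∀ x : Vertex, (x ≠ a ∧ x ≠ n ∧ x ≠ o ∧ x ≠ q) → g a n o q x < 0 :=
      (G_anoq).resolve_left fun h => by linarith [h m (by decide), F_mnoq a (by decide), (s45 m n o q a), (s34 m n o a q), (s23 m n a o q), (s12 m a n o q), (s45 a n o q m), (s34 a n o m q), (s23 a n m o q)]
    have h130 : g a n o q t < 0 := by linarith [F_anoq t (by decide)]
    have h124 : 0 < g a b n o q := by linarith [F_anoq b (by decide), (s45 a n o q b), (s34 a n o b q), (s23 a n b o q)]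
    have h126 : 0 < g a d n o q := by linarith [F_anoq d (by decide), (s45 a n o q d), (s34 a n o d q), (s23 a n d o q)]
    have h191 : 0 < g a b d n o := by
      have e := gp a n o b d q t
      rw [(show g a n o b d = g a b d n o by linarith [(s34 a n o b d), (s45 a n b o d), (s23 a n b d o), (s34 a b n d o)]),
        (show g a n o b q = g a b n o q by linarith [(s34 a n o b q), (s23 a n b o q)]),
        (show g a n o d t = g a d n o t by linarith [(s34 a n o d t), (s23 a n d o t)]),
        (show g a n o b t = g a b n o t by linarith [(s34 a n o b t), (s23 a n b o t)]),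
        (show g a n o d q = g a d n o q by linarith [(s34 a n o d q), (s23 a n d o q)])] at e
      by_contra hc
      have hc := not_lt.mp hc
      linarith [e, mul_nonneg_of_nonpos_of_nonpos hc h130.le, mul_nonpos_of_nonneg_of_nonpos h124.le h184, mul_pos h188 h126]
    have F_abmt : ∀ x : Vertex, (x ≠ a ∧ x ≠ b ∧ x ≠ m ∧ x ≠ t) → g a b m t x < 0 :=
      (G_abmt).resolve_left fun h => by linarith [h d (by decide), F_abdt m (by decide), (s45 a b d t m), (s45 a b m t d), (s34 a b m d t)]
    have h65 : 0 < g a b m n t := by linarith [F_abmt n (by decide), (s45 a b m t n)]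
    have h96 : 0 < g a m n o q := by linarith [F_mnoq a (by decide), (s45 m n o q a), (s34 m n o a q), (s23 m n a o q), (s12 m a n o q)]
    have h127 : 0 < g a n o p q := by linarith [F_anoq p (by decide), (s45 a n o q p)]
    have h125 : 0 < g a c n o q := by linarith [F_anoq c (by decide), (s45 a n o q c), (s34 a n o c q), (s23 a n c o q)]
    have h7 : 0 < g a b c d t := by linarith [F_abcd t (by decide)]
    have h185 : g a c d n t < 0 := by
      have e := gp a d t b c n o
      rw [(show g a d t b c = g a b c d t by linarith [(s34 a d t b c), (s45 a d b t c), (s23 a d b c t), (s34 a b d c t)]),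
        (show g a d t n o = g a d n o t by linarith [(s34 a d t n o), (s45 a d n t o)]),
        (show g a d t b n = -g a b d n t by linarith [(s34 a d t b n), (s45 a d b t n), (s23 a d b n t)]),
        (show g a d t c o = -g a c d o t by linarith [(s34 a d t c o), (s45 a d c t o), (s23 a d c o t)]),
        (show g a d t b o = -g a b d o t by linarith [(s34 a d t b o), (s45 a d b t o), (s23 a d b o t)]),
        (show g a d t c n = -g a c d n t by linarith [(s34 a d t c n), (s45 a d c t n), (s23 a d c n t)])] at e
      by_contra hc
      have hc := not_lt.mp hc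
      linarith [e, mul_nonpos_of_nonneg_of_nonpos h7.le h184, mul_pos_of_neg_of_neg h23 h76, mul_nonpos_of_nonpos_of_nonneg h24.le hc]
    have h190 : 0 < g a c n o t := by
      have e := gp c n t a b d o
      rw [(show g c n t a b = g a b c n t by linarith [(s34 c n t a b), (s45 c n a t b), (s23 c n a b t), (s34 c a n b t), (s12 c a b n t), (s23 a c b n t)]),
        (show g c n t d o = -g c d n o t by linarith [(s34 c n t d o), (s45 c n d t o), (s23 c n d o t)]),
        (show g c n t a d = -g a c d n t by linarith [(s34 c n t a d), (s45 c n a t d), (s23 c n a d t), (s34 c a n d t), (s12 c a d n t)]),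
        (show g c n t b o = g b c n o t by linarith [(s34 c n t b o), (s45 c n b t o), (s23 c n b o t), (s12 c b n o t)]),
        (show g c n t a o = g a c n o t by linarith [(s34 c n t a o), (s45 c n a t o), (s23 c n a o t), (s12 c a n o t)]),
        (show g c n t b d = -g b c d n t by linarith [(s34 c n t b d), (s45 c n b t d), (s23 c n b d t), (s34 c b n d t), (s12 c b d n t)])] at e
      by_contra hc
      have hc := not_lt.mp hc
      linarith [e, mul_pos_of_neg_of_neg h70 h78, mul_neg_of_neg_of_pos h185 h72, mul_nonneg_of_nonpos_of_nonpos hc h30.le]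
    have h192 : 0 < g a c d n o := by
      have e := gp a n o c d q t
      rw [(show g a n o c d = g a c d n o by linarith [(s34 a n o c d), (s45 a n c o d), (s23 a n c d o), (s34 a c n d o)]),
        (show g a n o c q = g a c n o q by linarith [(s34 a n o c q), (s23 a n c o q)]),
        (show g a n o d t = g a d n o t by linarith [(s34 a n o d t), (s23 a n d o t)]),
        (show g a n o c t = g a c n o t by linarith [(s34 a n o c t), (s23 a n c o t)]),
        (show g a n o d q = g a d n o q by linarith [(s34 a n o d q), (s23 a n d o q)])] at e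
      by_contra hc
      have hc := not_lt.mp hc
      linarith [e, mul_nonneg_of_nonpos_of_nonpos hc h130.le, mul_nonpos_of_nonneg_of_nonpos h125.le h184, mul_pos h190 h126]
    have F_acdr : ∀ x : Vertex, (x ≠ a ∧ x ≠ c ∧ x ≠ d ∧ x ≠ r) → g a c d r x < 0 :=
      (G_acdr).resolve_left fun h => by linarith [h b (by decide), F_abcd r (by decide), (s45 a c d r b), (s34 a c d b r), (s23 a c b d r)]
    have h16 : 0 < g a c d n r := by linarith [F_acdr n (by decide), (s45 a c d r n)]
    have h128 : g a n o q r < 0 := by linarith [F_anoq r (by decide)]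
    have F_abcr : ∀ x : Vertex, (x ≠ a ∧ x ≠ b ∧ x ≠ c ∧ x ≠ r) → g a b c r x < 0 :=
      (G_abcr).resolve_left fun h => by linarith [h d (by decide), F_abcd r (by decide), (s45 a b c r d)]
    have h9 : 0 < g a b c n r := by linarith [F_abcr n (by decide), (s45 a b c r n)]
    have F_cdor : ∀ x : Vertex, (x ≠ c ∧ x ≠ d ∧ x ≠ o ∧ x ≠ r) → 0 < g c d o r x :=
      (G_cdor).resolve_right fun h => by linarith [h a (by decide), F_acdr o (by decide), (s45 a c d r o), (s45 c d o r a), (s34 c d o a r), (s23 c d a o r), (s12 c a d o r)]
    have h52 : 0 < g c d n o r := by linarith [F_cdor n (by decide), (s45 c d o r n), (s34 c d o n r)]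
    have F_bcnr : ∀ x : Vertex, (x ≠ b ∧ x ≠ c ∧ x ≠ n ∧ x ≠ r) → 0 < g b c n r x :=
      (G_bcnr).resolve_right fun h => by linarith [h a (by decide), F_abcr n (by decide), (s45 a b c r n), (s45 b c n r a), (s34 b c n a r), (s23 b c a n r), (s12 b a c n r)]
    have h45 : g b c n o r < 0 := by linarith [F_bcnr o (by decide), (s45 b c n r o)]
    have h43 : 0 < g b c d n r := by linarith [F_bcnr d (by decide), (s45 b c n r d), (s34 b c n d r)]
    have h182 : g a c n o r < 0 := by
      have e := gp c n r a b d o
      rw [(show g c n r a b = g a b c n r by linarith [(s34 c n r a b), (s45 c n a r b), (s23 c n a b r), (s34 c a n b r), (s12 c a b n r), (s23 a c b n r)]),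
        (show g c n r d o = -g c d n o r by linarith [(s34 c n r d o), (s45 c n d r o), (s23 c n d o r)]),
        (show g c n r a d = -g a c d n r by linarith [(s34 c n r a d), (s45 c n a r d), (s23 c n a d r), (s34 c a n d r), (s12 c a d n r)]),
        (show g c n r b o = g b c n o r by linarith [(s34 c n r b o), (s45 c n b r o), (s23 c n b o r), (s12 c b n o r)]),
        (show g c n r a o = g a c n o r by linarith [(s34 c n r a o), (s45 c n a r o), (s23 c n a o r), (s12 c a n o r)]),
        (show g c n r b d = -g b c d n r by linarith [(s34 c n r b d), (s45 c n b r d), (s23 c n b d r), (s34 c b n d r), (s12 c b d n r)])] at e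
      by_contra hc
      have hc := not_lt.mp hc
      linarith [e, mul_pos h9 h52, mul_neg_of_pos_of_neg h16 h45, mul_nonneg hc h43.le]
    have h194 : g a d n o r < 0 := by
      have e := gp a n o c d q r
      rw [(show g a n o c d = g a c d n o by linarith [(s34 a n o c d), (s45 a n c o d), (s23 a n c d o), (s34 a c n d o)]),
        (show g a n o c q = g a c n o q by linarith [(s34 a n o c q), (s23 a n c o q)]),
        (show g a n o d r = g a d n o r by linarith [(s34 a n o d r), (s23 a n d o r)]),
        (show g a n o c r = g a c n o r by linarith [(s34 a n o c r), (s23 a n c o r)]),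
        (show g a n o d q = g a d n o q by linarith [(s34 a n o d q), (s23 a n d o q)])] at e
      by_contra hc
      have hc := not_lt.mp hc
      linarith [e, mul_neg_of_pos_of_neg h192 h128, mul_nonneg h125.le hc, mul_neg_of_neg_of_pos h182 h126]
    have h196 : g a d n r t < 0 := by
      have e := gp a d n c o r t
      rw [(show g a d n c o = g a c d n o by linarith [(s34 a d n c o), (s23 a d c n o)]),
        (show g a d n c r = g a c d n r by linarith [(s34 a d n c r), (s23 a d c n r)]),
        (show g a d n c t = g a c d n t by linarith [(s34 a d n c t), (s23 a d c n t)])] at e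
      by_contra hc
      have hc := not_lt.mp hc
      linarith [e, mul_nonneg h192.le hc, mul_nonpos_of_nonneg_of_nonpos h16.le h184, mul_pos_of_neg_of_neg h185 h194]
    have F_dapt : ∀ x : Vertex, (x ≠ d ∧ x ≠ a ∧ x ≠ p ∧ x ≠ t) → g d a p t x < 0 :=
      (G_dapt).resolve_left fun h => by linarith [h b (by decide), F_abdt p (by decide), (s45 a b d t p), (s12 d a p t b), (s45 a d p t b), (s34 a d p b t), (s23 a d b p t)]
    have h84 : 0 < g a d n p t := by linarith [F_dapt n (by decide), (s12 d a p t n), (s45 a d p t n), (s34 a d p n t)]
    have F_dapr : ∀ x : Vertex, (x ≠ d ∧ x ≠ a ∧ x ≠ p ∧ x ≠ r) → 0 < g d a p r x :=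
      (G_dapr).resolve_right fun h => by linarith [h c (by decide), F_acdr p (by decide), (s45 a c d r p), (s12 d a p r c), (s45 a d p r c), (s34 a d p c r), (s23 a d c p r)]
    have h59 : g a d n p r < 0 := by linarith [F_dapr n (by decide), (s12 d a p r n), (s45 a d p r n), (s34 a d p n r)]
    have h201 : 0 < g a d n o p := by
      have e := gp a d n o p r t
      by_contra hc
      have hc := not_lt.mp hc
      linarith [e, mul_nonneg_of_nonpos_of_nonpos hc h196.le, mul_neg_of_neg_of_pos h194 h84, mul_nonneg_of_nonpos_of_nonpos h184 h59.le]
    have h88 : g a m n o p < 0 := by linarith [F_mnop a (by decide), (s45 m n o p a), (s34 m n o a p), (s23 m n a o p), (s12 m a n o p)]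
    have h208 : 0 < g a d m n o := by
      have e := gp a n o d m p q
      rw [(show g a n o d m = g a d m n o by linarith [(s34 a n o d m), (s45 a n d o m), (s23 a n d m o), (s34 a d n m o)]),
        (show g a n o d p = g a d n o p by linarith [(s34 a n o d p), (s23 a n d o p)]),
        (show g a n o m q = g a m n o q by linarith [(s34 a n o m q), (s23 a n m o q)]),
        (show g a n o d q = g a d n o q by linarith [(s34 a n o d q), (s23 a n d o q)]),
        (show g a n o m p = g a m n o p by linarith [(s34 a n o m p), (s23 a n m o p)])] at e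
      by_contra hc
      have hc := not_lt.mp hc
      linarith [e, mul_nonpos_of_nonpos_of_nonneg hc h127.le, mul_pos h201 h96, mul_neg_of_pos_of_neg h126 h88]
    have h221 : 0 < g a b m n o := by
      have e := gp a n o b d m q
      rw [(show g a n o b d = g a b d n o by linarith [(s34 a n o b d), (s45 a n b o d), (s23 a n b d o), (s34 a b n d o)]),
        (show g a n o m q = g a m n o q by linarith [(s34 a n o m q), (s23 a n m o q)]),
        (show g a n o b m = g a b m n o by linarith [(s34 a n o b m), (s45 a n b o m), (s23 a n b m o), (s34 a b n m o)]),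
        (show g a n o d q = g a d n o q by linarith [(s34 a n o d q), (s23 a n d o q)]),
        (show g a n o b q = g a b n o q by linarith [(s34 a n o b q), (s23 a n b o q)]),
        (show g a n o d m = g a d m n o by linarith [(s34 a n o d m), (s45 a n d o m), (s23 a n d m o), (s34 a d n m o)])] at e
      by_contra hc
      have hc := not_lt.mp hc
      linarith [e, mul_pos h191 h96, mul_nonpos_of_nonpos_of_nonneg hc h126.le, mul_pos h124 h208]
    have h248 : 0 < g a b d m n := by
      have e := gp a b n d m o t
      rw [(show g a b n d m = g a b d m n by linarith [(s34 a b n d m), (s45 a b d n m)]),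
        (show g a b n d o = -g a b d n o by linarith [(s34 a b n d o)]),
        (show g a b n m t = -g a b m n t by linarith [(s34 a b n m t)]),
        (show g a b n d t = -g a b d n t by linarith [(s34 a b n d t)]),
        (show g a b n m o = -g a b m n o by linarith [(s34 a b n m o)])] at e
      by_contra hc
      have hc := not_lt.mp hc
      linarith [e, mul_nonpos_of_nonpos_of_nonneg hc h188.le, mul_pos h191 h65, mul_neg_of_neg_of_pos h23 h221]
    have F_dmnq : ∀ x : Vertex, (x ≠ d ∧ x ≠ m ∧ x ≠ n ∧ x ≠ q) → g d m n q x < 0 :=
      (G_dmnq).resolve_left fun h => by linarith [h o (by decide), F_mnoq d (by decide), (s45 m n o q d), (s34 m n o d q), (s23 m n d o q), (s12 m d n o q), (s45 d m n q o)]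
    have h145 : g a d m n q < 0 := by linarith [F_dmnq a (by decide), (s45 d m n q a), (s34 d m n a q), (s23 d m a n q), (s12 d a m n q)]
    have F_abmr : ∀ x : Vertex, (x ≠ a ∧ x ≠ b ∧ x ≠ m ∧ x ≠ r) → 0 < g a b m r x :=
      (G_abmr).resolve_right fun h => by linarith [h c (by decide), F_abcr m (by decide), (s45 a b c r m), (s45 a b m r c), (s34 a b m c r)]
    have h40 : g a b m q r < 0 := by linarith [F_abmr q (by decide), (s45 a b m r q)]
    have h38 : g a b m o r < 0 := by linarith [F_abmr o (by decide), (s45 a b m r o)]
    have h37 : g a b m n r < 0 := by linarith [F_abmr n (by decide), (s45 a b m r n)]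
    have F_mopq : ∀ x : Vertex, (x ≠ m ∧ x ≠ o ∧ x ≠ p ∧ x ≠ q) → 0 < g m o p q x :=
      (G_mopq).resolve_right fun h => by linarith [h n (by decide), F_mnop q (by decide), (s45 m o p q n), (s34 m o p n q), (s23 m o n p q)]
    have h103 : 0 < g a m o p q := by linarith [F_mopq a (by decide), (s45 m o p q a), (s34 m o p a q), (s23 m o a p q), (s12 m a o p q)]
    have F_bopq : ∀ x : Vertex, (x ≠ b ∧ x ≠ o ∧ x ≠ p ∧ x ≠ q) → g b o p q x < 0 :=
      (G_bopq).resolve_left fun h => by linarith [h m (by decide), F_mopq b (by decide), (s45 m o p q b), (s34 m o p b q), (s23 m o b p q), (s12 m b o p q), (s45 b o p q m), (s34 b o p m q), (s23 b o m p q)]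
    have h131 : g a b o p q < 0 := by linarith [F_bopq a (by decide), (s45 b o p q a), (s34 b o p a q), (s23 b o a p q), (s12 b a o p q)]
    have h178 : 0 < g a b m o q := by
      have e := gp a o q b m n p
      rw [(show g a o q b m = g a b m o q by linarith [(s34 a o q b m), (s45 a o b q m), (s23 a o b m q), (s34 a b o m q)]),
        (show g a o q n p = -g a n o p q by linarith [(s34 a o q n p), (s45 a o n q p), (s23 a o n p q)]),
        (show g a o q b n = g a b n o q by linarith [(s34 a o q b n), (s45 a o b q n), (s23 a o b n q), (s34 a b o n q)]),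
        (show g a o q m p = -g a m o p q by linarith [(s34 a o q m p), (s45 a o m q p), (s23 a o m p q)]),
        (show g a o q b p = -g a b o p q by linarith [(s34 a o q b p), (s45 a o b q p), (s23 a o b p q)]),
        (show g a o q m n = g a m n o q by linarith [(s34 a o q m n), (s45 a o m q n), (s23 a o m n q), (s34 a m o n q)])] at e
      by_contra hc
      have hc := not_lt.mp hc
      linarith [e, mul_nonpos_of_nonpos_of_nonneg hc h127.le, mul_pos h124 h103, mul_neg_of_neg_of_pos h131 h96]
    have h247 : 0 < g a b m n q := by
      have e := gp a b m n o q r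
      by_contra hc
      have hc := not_lt.mp hc
      linarith [e, mul_neg_of_pos_of_neg h221 h40, mul_nonneg_of_nonpos_of_nonpos hc h38.le, mul_neg_of_neg_of_pos h37 h178]
    have e := gp a m n b d o q
    rw [(show g a m n b d = g a b d m n by linarith [(s34 a m n b d), (s45 a m b n d), (s23 a m b d n), (s34 a b m d n)]),
      (show g a m n b o = g a b m n o by linarith [(s34 a m n b o), (s23 a m b n o)]),
      (show g a m n d q = g a d m n q by linarith [(s34 a m n d q), (s23 a m d n q)]),
      (show g a m n b q = g a b m n q by linarith [(s34 a m n b q), (s23 a m b n q)]),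
      (show g a m n d o = g a d m n o by linarith [(s34 a m n d o), (s23 a m d n o)])] at e
    linarith [e, mul_pos h248 h96, mul_neg_of_pos_of_neg h221 h145, mul_pos h247 h208]
  · have h463 := z
    rcases le_or_gt 0 (g a d o q t) with z | z
    · have h469 := z
      have F_mnoq : ∀ x : Vertex, (x ≠ m ∧ x ≠ n ∧ x ≠ o ∧ x ≠ q) → 0 < g m n o q x :=
        (G_mnoq).resolve_right fun h => by linarith [h p (by decide), F_mnop q (by decide), (s45 m n o q p)]
      have F_dmnq : ∀ x : Vertex, (x ≠ d ∧ x ≠ m ∧ x ≠ n ∧ x ≠ q) → g d m n q x < 0 :=
        (G_dmnq).resolve_left fun h => by linarith [h o (by decide), F_mnoq d (by decide), (s45 m n o q d), (s34 m n o d q), (s23 m n d o q), (s12 m d n o q), (s45 d m n q o)]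
      have h145 : g a d m n q < 0 := by linarith [F_dmnq a (by decide), (s45 d m n q a), (s34 d m n a q), (s23 d m a n q), (s12 d a m n q)]
      have F_bcdt : ∀ x : Vertex, (x ≠ b ∧ x ≠ c ∧ x ≠ d ∧ x ≠ t) → 0 < g b c d t x :=
        (G_bcdt).resolve_right fun h => by linarith [h a (by decide), F_abcd t (by decide), (s45 b c d t a), (s34 b c d a t), (s23 b c a d t), (s12 b a c d t)]
      have F_cdot : ∀ x : Vertex, (x ≠ c ∧ x ≠ d ∧ x ≠ o ∧ x ≠ t) → g c d o t x < 0 :=
        (G_cdot).resolve_left fun h => by linarith [h b (by decide), F_bcdt o (by decide), (s45 b c d t o), (s45 c d o t b), (s34 c d o b t), (s23 c d b o t), (s12 c b d o t)]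
      have h76 : g a c d o t < 0 := by linarith [F_cdot a (by decide), (s45 c d o t a), (s34 c d o a t), (s23 c d a o t), (s12 c a d o t)]
      have h80 : 0 < g c d o q t := by linarith [F_cdot q (by decide), (s45 c d o t q)]
      have h78 : g c d n o t < 0 := by linarith [F_cdot n (by decide), (s45 c d o t n), (s34 c d o n t)]
      have h473 : g d n o q t < 0 := by
        have e := gp d o t a c n q
        rw [(show g d o t a c = g a c d o t by linarith [(s34 d o t a c), (s45 d o a t c), (s23 d o a c t), (s34 d a o c t), (s12 d a c o t), (s23 a d c o t)]),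
          (show g d o t n q = -g d n o q t by linarith [(s34 d o t n q), (s45 d o n t q), (s23 d o n q t)]),
          (show g d o t a n = -g a d n o t by linarith [(s34 d o t a n), (s45 d o a t n), (s23 d o a n t), (s34 d a o n t), (s12 d a n o t)]),
          (show g d o t c q = g c d o q t by linarith [(s34 d o t c q), (s45 d o c t q), (s23 d o c q t), (s12 d c o q t)]),
          (show g d o t a q = g a d o q t by linarith [(s34 d o t a q), (s45 d o a t q), (s23 d o a q t), (s12 d a o q t)]),
          (show g d o t c n = -g c d n o t by linarith [(s34 d o t c n), (s45 d o c t n), (s23 d o c n t), (s34 d c o n t), (s12 d c n o t)])] at e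
        by_contra hc
        have hc := not_lt.mp hc
        linarith [e, mul_nonpos_of_nonpos_of_nonneg h76.le hc, mul_pos h463 h80, mul_nonpos_of_nonneg_of_nonpos h469 h78.le]
      have F_anoq : ∀ x : Vertex, (x ≠ a ∧ x ≠ n ∧ x ≠ o ∧ x ≠ q) → g a n o q x < 0 :=
        (G_anoq).resolve_left fun h => by linarith [h m (by decide), F_mnoq a (by decide), (s45 m n o q a), (s34 m n o a q), (s23 m n a o q), (s12 m a n o q), (s45 a n o q m), (s34 a n o m q), (s23 a n m o q)]
      have h126 : 0 < g a d n o q := by linarith [F_anoq d (by decide), (s45 a n o q d), (s34 a n o d q), (s23 a n d o q)]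
      have h151 : g d m n q t < 0 := by linarith [F_dmnq t (by decide)]
      have F_abdt : ∀ x : Vertex, (x ≠ a ∧ x ≠ b ∧ x ≠ d ∧ x ≠ t) → 0 < g a b d t x :=
        (G_abdt).resolve_right fun h => by linarith [h c (by decide), F_abcd t (by decide), (s45 a b d t c), (s34 a b d c t)]
      have h23 : g a b d n t < 0 := by linarith [F_abdt n (by decide), (s45 a b d t n)]
      have h24 : g a b d o t < 0 := by linarith [F_abdt o (by decide), (s45 a b d t o)]
      have h26 : g a b d q t < 0 := by linarith [F_abdt q (by decide), (s45 a b d t q)]
      have h471 : 0 < g a d n q t := by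
        have e := gp a d t b n o q
        rw [(show g a d t b n = -g a b d n t by linarith [(s34 a d t b n), (s45 a d b t n), (s23 a d b n t)]),
          (show g a d t o q = g a d o q t by linarith [(s34 a d t o q), (s45 a d o t q)]),
          (show g a d t b o = -g a b d o t by linarith [(s34 a d t b o), (s45 a d b t o), (s23 a d b o t)]),
          (show g a d t n q = g a d n q t by linarith [(s34 a d t n q), (s45 a d n t q)]),
          (show g a d t b q = -g a b d q t by linarith [(s34 a d t b q), (s45 a d b t q), (s23 a d b q t)]),
          (show g a d t n o = g a d n o t by linarith [(s34 a d t n o), (s45 a d n t o)])] at e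
        by_contra hc
        have hc := not_lt.mp hc
        linarith [e, mul_nonpos_of_nonpos_of_nonneg h23.le h469, mul_nonneg_of_nonpos_of_nonpos h24.le hc, mul_neg_of_neg_of_pos h26 h463]
      have h99 : 0 < g d m n o q := by linarith [F_mnoq d (by decide), (s45 m n o q d), (s34 m n o d q), (s23 m n d o q), (s12 m d n o q)]
      have e := gp d n q a m o t
      rw [(show g d n q a m = -g a d m n q by linarith [(s34 d n q a m), (s45 d n a q m), (s23 d n a m q), (s34 d a n m q), (s12 d a m n q)]),
        (show g d n q o t = -g d n o q t by linarith [(s34 d n q o t)]),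
        (show g d n q a o = g a d n o q by linarith [(s34 d n q a o), (s45 d n a q o), (s23 d n a o q), (s12 d a n o q)]),
        (show g d n q m t = g d m n q t by linarith [(s34 d n q m t), (s23 d n m q t)]),
        (show g d n q a t = -g a d n q t by linarith [(s34 d n q a t), (s23 d n a q t), (s12 d a n q t)]),
        (show g d n q m o = -g d m n o q by linarith [(s34 d n q m o), (s45 d n m q o), (s23 d n m o q)])] at e
      linarith [e, mul_pos_of_neg_of_neg h145 h473, mul_neg_of_pos_of_neg h126 h151, mul_pos h471 h99]
    · have h467 := z
      rcases le_or_gt (g d o p s t) 0 with z | z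
      · have h479 := z
        have h91 : g d m n o p < 0 := by linarith [F_mnop d (by decide), (s45 m n o p d), (s34 m n o d p), (s23 m n d o p), (s12 m d n o p)]
        have F_bcdt : ∀ x : Vertex, (x ≠ b ∧ x ≠ c ∧ x ≠ d ∧ x ≠ t) → 0 < g b c d t x :=
          (G_bcdt).resolve_right fun h => by linarith [h a (by decide), F_abcd t (by decide), (s45 b c d t a), (s34 b c d a t), (s23 b c a d t), (s12 b a c d t)]
        have F_cdot : ∀ x : Vertex, (x ≠ c ∧ x ≠ d ∧ x ≠ o ∧ x ≠ t) → g c d o t x < 0 :=
          (G_cdot).resolve_left fun h => by linarith [h b (by decide), F_bcdt o (by decide), (s45 b c d t o), (s45 c d o t b), (s34 c d o b t), (s23 c d b o t), (s12 c b d o t)]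
        have h77 : g c d m o t < 0 := by linarith [F_cdot m (by decide), (s45 c d o t m), (s34 c d o m t)]
        have h76 : g a c d o t < 0 := by linarith [F_cdot a (by decide), (s45 c d o t a), (s34 c d o a t), (s23 c d a o t), (s12 c a d o t)]
        have F_abdt : ∀ x : Vertex, (x ≠ a ∧ x ≠ b ∧ x ≠ d ∧ x ≠ t) → 0 < g a b d t x :=
          (G_abdt).resolve_right fun h => by linarith [h c (by decide), F_abcd t (by decide), (s45 a b d t c), (s34 a b d c t)]
        have F_dapt : ∀ x : Vertex, (x ≠ d ∧ x ≠ a ∧ x ≠ p ∧ x ≠ t) → g d a p t x < 0 :=
          (G_dapt).resolve_left fun h => by linarith [h b (by decide), F_abdt p (by decide), (s45 a b d t p), (s12 d a p t b), (s45 a d p t b), (s34 a d p b t), (s23 a d b p t)]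
        have h85 : 0 < g a d o p t := by linarith [F_dapt o (by decide), (s12 d a p t o), (s45 a d p t o), (s34 a d p o t)]
        have h80 : 0 < g c d o q t := by linarith [F_cdot q (by decide), (s45 c d o t q)]
        have h79 : 0 < g c d o p t := by linarith [F_cdot p (by decide), (s45 c d o t p)]
        have h468 : g d o p q t < 0 := by
          have e := gp d o t a c p q
          rw [(show g d o t a c = g a c d o t by linarith [(s34 d o t a c), (s45 d o a t c), (s23 d o a c t), (s34 d a o c t), (s12 d a c o t), (s23 a d c o t)]),
            (show g d o t p q = g d o p q t by linarith [(s34 d o t p q), (s45 d o p t q)]),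
            (show g d o t a p = g a d o p t by linarith [(s34 d o t a p), (s45 d o a t p), (s23 d o a p t), (s12 d a o p t)]),
            (show g d o t c q = g c d o q t by linarith [(s34 d o t c q), (s45 d o c t q), (s23 d o c q t), (s12 d c o q t)]),
            (show g d o t a q = g a d o q t by linarith [(s34 d o t a q), (s45 d o a t q), (s23 d o a q t), (s12 d a o q t)]),
            (show g d o t c p = g c d o p t by linarith [(s34 d o t c p), (s45 d o c t p), (s23 d o c p t), (s12 d c o p t)])] at e
          by_contra hc
          have hc := not_lt.mp hc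
          linarith [e, mul_nonpos_of_nonpos_of_nonneg h76.le hc, mul_pos h85 h80, mul_neg_of_neg_of_pos h467 h79]
        have F_mopq : ∀ x : Vertex, (x ≠ m ∧ x ≠ o ∧ x ≠ p ∧ x ≠ q) → 0 < g m o p q x :=
          (G_mopq).resolve_right fun h => by linarith [h n (by decide), F_mnop q (by decide), (s45 m o p q n), (s34 m o p n q), (s23 m o n p q)]
        have h106 : 0 < g d m o p q := by linarith [F_mopq d (by decide), (s45 m o p q d), (s34 m o p d q), (s23 m o d p q), (s12 m d o p q)]
        have h78 : g c d n o t < 0 := by linarith [F_cdot n (by decide), (s45 c d o t n), (s34 c d o n t)]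
        have h464 : g d n o p t < 0 := by
          have e := gp d o t a c n p
          rw [(show g d o t a c = g a c d o t by linarith [(s34 d o t a c), (s45 d o a t c), (s23 d o a c t), (s34 d a o c t), (s12 d a c o t), (s23 a d c o t)]),
            (show g d o t n p = -g d n o p t by linarith [(s34 d o t n p), (s45 d o n t p), (s23 d o n p t)]),
            (show g d o t a n = -g a d n o t by linarith [(s34 d o t a n), (s45 d o a t n), (s23 d o a n t), (s34 d a o n t), (s12 d a n o t)]),
            (show g d o t c p = g c d o p t by linarith [(s34 d o t c p), (s45 d o c t p), (s23 d o c p t), (s12 d c o p t)]),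
            (show g d o t a p = g a d o p t by linarith [(s34 d o t a p), (s45 d o a t p), (s23 d o a p t), (s12 d a o p t)]),
            (show g d o t c n = -g c d n o t by linarith [(s34 d o t c n), (s45 d o c t n), (s23 d o c n t), (s34 d c o n t), (s12 d c n o t)])] at e
          by_contra hc
          have hc := not_lt.mp hc
          linarith [e, mul_nonpos_of_nonpos_of_nonneg h76.le hc, mul_pos h463 h79, mul_neg_of_pos_of_neg h85 h78]
        have F_nops : ∀ x : Vertex, (x ≠ n ∧ x ≠ o ∧ x ≠ p ∧ x ≠ s) → g n o p s x < 0 :=
          (G_nops).resolve_left fun h => by linarith [h m (by decide), F_mnop s (by decide), (s45 n o p s m), (s34 n o p m s), (s23 n o m p s), (s12 n m o p s)]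
        have F_bops : ∀ x : Vertex, (x ≠ b ∧ x ≠ o ∧ x ≠ p ∧ x ≠ s) → 0 < g b o p s x :=
          (G_bops).resolve_right fun h => by linarith [h n (by decide), F_nops b (by decide), (s45 n o p s b), (s34 n o p b s), (s23 n o b p s), (s12 n b o p s), (s45 b o p s n), (s34 b o p n s), (s23 b o n p s)]
        have h160 : g b d o p s < 0 := by linarith [F_bops d (by decide), (s45 b o p s d), (s34 b o p d s), (s23 b o d p s)]
        have h24 : g a b d o t < 0 := by linarith [F_abdt o (by decide), (s45 a b d t o)]
        have h31 : g b c d o t < 0 := by linarith [F_bcdt o (by decide), (s45 b c d t o)]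
        have h183 : 0 < g b d o p t := by
          have e := gp d o t a b c p
          rw [(show g d o t a b = g a b d o t by linarith [(s34 d o t a b), (s45 d o a t b), (s23 d o a b t), (s34 d a o b t), (s12 d a b o t), (s23 a d b o t)]),
            (show g d o t c p = g c d o p t by linarith [(s34 d o t c p), (s45 d o c t p), (s23 d o c p t), (s12 d c o p t)]),
            (show g d o t a c = g a c d o t by linarith [(s34 d o t a c), (s45 d o a t c), (s23 d o a c t), (s34 d a o c t), (s12 d a c o t), (s23 a d c o t)]),
            (show g d o t b p = g b d o p t by linarith [(s34 d o t b p), (s45 d o b t p), (s23 d o b p t), (s12 d b o p t)]),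
            (show g d o t a p = g a d o p t by linarith [(s34 d o t a p), (s45 d o a t p), (s23 d o a p t), (s12 d a o p t)]),
            (show g d o t b c = g b c d o t by linarith [(s34 d o t b c), (s45 d o b t c), (s23 d o b c t), (s34 d b o c t), (s12 d b c o t), (s23 b d c o t)])] at e
          by_contra hc
          have hc := not_lt.mp hc
          linarith [e, mul_neg_of_neg_of_pos h24 h79, mul_nonneg_of_nonpos_of_nonpos h76.le hc, mul_neg_of_pos_of_neg h85 h31]
        have h113 : g d n o p s < 0 := by linarith [F_nops d (by decide), (s45 n o p s d), (s34 n o p d s), (s23 n o d p s), (s12 n d o p s)]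
        have h480 : g b d n o p < 0 := by
          have e := gp d o p b n s t
          rw [(show g d o p b n = -g b d n o p by linarith [(s34 d o p b n), (s45 d o b p n), (s23 d o b n p), (s34 d b o n p), (s12 d b n o p)]),
            (show g d o p b s = -g b d o p s by linarith [(s34 d o p b s), (s23 d o b p s), (s12 d b o p s)]),
            (show g d o p n t = g d n o p t by linarith [(s34 d o p n t), (s23 d o n p t)]),
            (show g d o p b t = -g b d o p t by linarith [(s34 d o p b t), (s23 d o b p t), (s12 d b o p t)]),
            (show g d o p n s = g d n o p s by linarith [(s34 d o p n s), (s23 d o n p s)])] at e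
          by_contra hc
          have hc := not_lt.mp hc
          linarith [e, mul_nonpos_of_nonneg_of_nonpos hc h479, mul_pos_of_neg_of_neg h160 h464, mul_neg_of_pos_of_neg h183 h113]
        have F_bopq : ∀ x : Vertex, (x ≠ b ∧ x ≠ o ∧ x ≠ p ∧ x ≠ q) → g b o p q x < 0 :=
          (G_bopq).resolve_left fun h => by linarith [h m (by decide), F_mopq b (by decide), (s45 m o p q b), (s34 m o p b q), (s23 m o b p q), (s12 m b o p q), (s45 b o p q m), (s34 b o p m q), (s23 b o m p q)]
        have h133 : 0 < g b d o p q := by linarith [F_bopq d (by decide), (s45 b o p q d), (s34 b o p d q), (s23 b o d p q)]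
        have h484 : g d n o p q < 0 := by
          have e := gp d o p b n q t
          rw [(show g d o p b n = -g b d n o p by linarith [(s34 d o p b n), (s45 d o b p n), (s23 d o b n p), (s34 d b o n p), (s12 d b n o p)]),
            (show g d o p b q = -g b d o p q by linarith [(s34 d o p b q), (s23 d o b p q), (s12 d b o p q)]),
            (show g d o p n t = g d n o p t by linarith [(s34 d o p n t), (s23 d o n p t)]),
            (show g d o p b t = -g b d o p t by linarith [(s34 d o p b t), (s23 d o b p t), (s12 d b o p t)]),
            (show g d o p n q = g d n o p q by linarith [(s34 d o p n q), (s23 d o n p q)])] at e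
          by_contra hc
          have hc := not_lt.mp hc
          linarith [e, mul_pos_of_neg_of_neg h480 h468, mul_neg_of_pos_of_neg h133 h464, mul_nonneg h183.le hc]
        have h489 : 0 < g d m o p t := by
          have e := gp d o p m n q t
          rw [(show g d o p m n = g d m n o p by linarith [(s34 d o p m n), (s45 d o m p n), (s23 d o m n p), (s34 d m o n p)]),
            (show g d o p m q = g d m o p q by linarith [(s34 d o p m q), (s23 d o m p q)]),
            (show g d o p n t = g d n o p t by linarith [(s34 d o p n t), (s23 d o n p t)]),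
            (show g d o p m t = g d m o p t by linarith [(s34 d o p m t), (s23 d o m p t)]),
            (show g d o p n q = g d n o p q by linarith [(s34 d o p n q), (s23 d o n p q)])] at e
          by_contra hc
          have hc := not_lt.mp hc
          linarith [e, mul_pos_of_neg_of_neg h91 h468, mul_neg_of_pos_of_neg h106 h464, mul_nonneg_of_nonpos_of_nonpos hc h484.le]
        have h508 : 0 < g d m o q t := by
          have e := gp d o t c m p q
          rw [(show g d o t c m = -g c d m o t by linarith [(s34 d o t c m), (s45 d o c t m), (s23 d o c m t), (s34 d c o m t), (s12 d c m o t)]),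
            (show g d o t p q = g d o p q t by linarith [(s34 d o t p q), (s45 d o p t q)]),
            (show g d o t c p = g c d o p t by linarith [(s34 d o t c p), (s45 d o c t p), (s23 d o c p t), (s12 d c o p t)]),
            (show g d o t m q = -g d m o q t by linarith [(s34 d o t m q), (s45 d o m t q), (s23 d o m q t)]),
            (show g d o t c q = g c d o q t by linarith [(s34 d o t c q), (s45 d o c t q), (s23 d o c q t), (s12 d c o q t)]),
            (show g d o t m p = -g d m o p t by linarith [(s34 d o t m p), (s45 d o m t p), (s23 d o m p t)])] at e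
          by_contra hc
          have hc := not_lt.mp hc
          linarith [e, mul_pos_of_neg_of_neg h77 h468, mul_nonpos_of_nonneg_of_nonpos h79.le hc, mul_pos h80 h489]
        have F_mnoq : ∀ x : Vertex, (x ≠ m ∧ x ≠ n ∧ x ≠ o ∧ x ≠ q) → 0 < g m n o q x :=
          (G_mnoq).resolve_right fun h => by linarith [h p (by decide), F_mnop q (by decide), (s45 m n o q p)]
        have h99 : 0 < g d m n o q := by linarith [F_mnoq d (by decide), (s45 m n o q d), (s34 m n o d q), (s23 m n d o q), (s12 m d n o q)]
        have h507 : g d m n o t < 0 := by
          have e := gp d o t c m n p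
          rw [(show g d o t c m = -g c d m o t by linarith [(s34 d o t c m), (s45 d o c t m), (s23 d o c m t), (s34 d c o m t), (s12 d c m o t)]),
            (show g d o t n p = -g d n o p t by linarith [(s34 d o t n p), (s45 d o n t p), (s23 d o n p t)]),
            (show g d o t c n = -g c d n o t by linarith [(s34 d o t c n), (s45 d o c t n), (s23 d o c n t), (s34 d c o n t), (s12 d c n o t)]),
            (show g d o t m p = -g d m o p t by linarith [(s34 d o t m p), (s45 d o m t p), (s23 d o m p t)]),
            (show g d o t c p = g c d o p t by linarith [(s34 d o t c p), (s45 d o c t p), (s23 d o c p t), (s12 d c o p t)]),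
            (show g d o t m n = g d m n o t by linarith [(s34 d o t m n), (s45 d o m t n), (s23 d o m n t), (s34 d m o n t)])] at e
          by_contra hc
          have hc := not_lt.mp hc
          linarith [e, mul_pos_of_neg_of_neg h77 h464, mul_neg_of_neg_of_pos h78 h489, mul_nonneg h79.le hc]
        have e := gp d m o n p q t
        rw [(show g d m o n p = -g d m n o p by linarith [(s34 d m o n p)]),
          (show g d m o n q = -g d m n o q by linarith [(s34 d m o n q)]),
          (show g d m o n t = -g d m n o t by linarith [(s34 d m o n t)])] at e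
        linarith [e, mul_neg_of_neg_of_pos h91 h508, mul_pos h99 h489, mul_neg_of_neg_of_pos h507 h106]
      · have h561 := z
        have F_mnps : ∀ x : Vertex, (x ≠ m ∧ x ≠ n ∧ x ≠ p ∧ x ≠ s) → g m n p s x < 0 :=
          (G_mnps).resolve_left fun h => by linarith [h o (by decide), F_mnop s (by decide), (s45 m n p s o), (s34 m n p o s)]
        have F_dmns : ∀ x : Vertex, (x ≠ d ∧ x ≠ m ∧ x ≠ n ∧ x ≠ s) → 0 < g d m n s x :=
          (G_dmns).resolve_right fun h => by linarith [h p (by decide), F_mnps d (by decide), (s45 m n p s d), (s34 m n p d s), (s23 m n d p s), (s12 m d n p s), (s45 d m n s p)]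
        have h173 : g d m n o s < 0 := by linarith [F_dmns o (by decide), (s45 d m n s o)]
        have F_abdt : ∀ x : Vertex, (x ≠ a ∧ x ≠ b ∧ x ≠ d ∧ x ≠ t) → 0 < g a b d t x :=
          (G_abdt).resolve_right fun h => by linarith [h c (by decide), F_abcd t (by decide), (s45 a b d t c), (s34 a b d c t)]
        have F_dapt : ∀ x : Vertex, (x ≠ d ∧ x ≠ a ∧ x ≠ p ∧ x ≠ t) → g d a p t x < 0 :=
          (G_dapt).resolve_left fun h => by linarith [h b (by decide), F_abdt p (by decide), (s45 a b d t p), (s12 d a p t b), (s45 a d p t b), (s34 a d p b t), (s23 a d b p t)]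
        have h84 : 0 < g a d n p t := by linarith [F_dapt n (by decide), (s12 d a p t n), (s45 a d p t n), (s34 a d p n t)]
        have h85 : 0 < g a d o p t := by linarith [F_dapt o (by decide), (s12 d a p t o), (s45 a d p t o), (s34 a d p o t)]
        have h87 : g a d p s t < 0 := by linarith [F_dapt s (by decide), (s12 d a p t s), (s45 a d p t s)]
        have F_bcdt : ∀ x : Vertex, (x ≠ b ∧ x ≠ c ∧ x ≠ d ∧ x ≠ t) → 0 < g b c d t x :=
          (G_bcdt).resolve_right fun h => by linarith [h a (by decide), F_abcd t (by decide), (s45 b c d t a), (s34 b c d a t), (s23 b c a d t), (s12 b a c d t)]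
        have F_cdot : ∀ x : Vertex, (x ≠ c ∧ x ≠ d ∧ x ≠ o ∧ x ≠ t) → g c d o t x < 0 :=
          (G_cdot).resolve_left fun h => by linarith [h b (by decide), F_bcdt o (by decide), (s45 b c d t o), (s45 c d o t b), (s34 c d o b t), (s23 c d b o t), (s12 c b d o t)]
        have h76 : g a c d o t < 0 := by linarith [F_cdot a (by decide), (s45 c d o t a), (s34 c d o a t), (s23 c d a o t), (s12 c a d o t)]
        have h79 : 0 < g c d o p t := by linarith [F_cdot p (by decide), (s45 c d o t p)]
        have h78 : g c d n o t < 0 := by linarith [F_cdot n (by decide), (s45 c d o t n), (s34 c d o n t)]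
        have h464 : g d n o p t < 0 := by
          have e := gp d o t a c n p
          rw [(show g d o t a c = g a c d o t by linarith [(s34 d o t a c), (s45 d o a t c), (s23 d o a c t), (s34 d a o c t), (s12 d a c o t), (s23 a d c o t)]),
            (show g d o t n p = -g d n o p t by linarith [(s34 d o t n p), (s45 d o n t p), (s23 d o n p t)]),
            (show g d o t a n = -g a d n o t by linarith [(s34 d o t a n), (s45 d o a t n), (s23 d o a n t), (s34 d a o n t), (s12 d a n o t)]),
            (show g d o t c p = g c d o p t by linarith [(s34 d o t c p), (s45 d o c t p), (s23 d o c p t), (s12 d c o p t)]),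
            (show g d o t a p = g a d o p t by linarith [(s34 d o t a p), (s45 d o a t p), (s23 d o a p t), (s12 d a o p t)]),
            (show g d o t c n = -g c d n o t by linarith [(s34 d o t c n), (s45 d o c t n), (s23 d o c n t), (s34 d c o n t), (s12 d c n o t)])] at e
          by_contra hc
          have hc := not_lt.mp hc
          linarith [e, mul_nonpos_of_nonpos_of_nonneg h76.le hc, mul_pos h463 h79, mul_neg_of_pos_of_neg h85 h78]
        have h569 : 0 < g d n p s t := by
          have e := gp d p t a n o s
          rw [(show g d p t a n = -g a d n p t by linarith [(s34 d p t a n), (s45 d p a t n), (s23 d p a n t), (s34 d a p n t), (s12 d a n p t)]),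
            (show g d p t o s = -g d o p s t by linarith [(s34 d p t o s), (s45 d p o t s), (s23 d p o s t)]),
            (show g d p t a o = -g a d o p t by linarith [(s34 d p t a o), (s45 d p a t o), (s23 d p a o t), (s34 d a p o t), (s12 d a o p t)]),
            (show g d p t n s = -g d n p s t by linarith [(s34 d p t n s), (s45 d p n t s), (s23 d p n s t)]),
            (show g d p t a s = g a d p s t by linarith [(s34 d p t a s), (s45 d p a t s), (s23 d p a s t), (s12 d a p s t)]),
            (show g d p t n o = g d n o p t by linarith [(s34 d p t n o), (s45 d p n t o), (s23 d p n o t), (s34 d n p o t)])] at e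
          by_contra hc
          have hc := not_lt.mp hc
          linarith [e, mul_pos h84 h561, mul_nonpos_of_nonneg_of_nonpos h85.le hc, mul_pos_of_neg_of_neg h87 h464]
        have h120 : g d m n p s < 0 := by linarith [F_mnps d (by decide), (s45 m n p s d), (s34 m n p d s), (s23 m n d p s), (s12 m d n p s)]
        have h81 : 0 < g c d o s t := by linarith [F_cdot s (by decide), (s45 c d o t s)]
        have h565 : g d n o s t < 0 := by
          have e := gp d o t c n p s
          rw [(show g d o t c n = -g c d n o t by linarith [(s34 d o t c n), (s45 d o c t n), (s23 d o c n t), (s34 d c o n t), (s12 d c n o t)]),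
            (show g d o t p s = g d o p s t by linarith [(s34 d o t p s), (s45 d o p t s)]),
            (show g d o t c p = g c d o p t by linarith [(s34 d o t c p), (s45 d o c t p), (s23 d o c p t), (s12 d c o p t)]),
            (show g d o t n s = -g d n o s t by linarith [(s34 d o t n s), (s45 d o n t s), (s23 d o n s t)]),
            (show g d o t c s = g c d o s t by linarith [(s34 d o t c s), (s45 d o c t s), (s23 d o c s t), (s12 d c o s t)]),
            (show g d o t n p = -g d n o p t by linarith [(s34 d o t n p), (s45 d o n t p), (s23 d o n p t)])] at e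
          by_contra hc
          have hc := not_lt.mp hc
          linarith [e, mul_neg_of_neg_of_pos h78 h561, mul_nonneg h79.le hc, mul_neg_of_pos_of_neg h81 h464]
        have h175 : 0 < g d m n s t := by linarith [F_dmns t (by decide)]
        have F_nops : ∀ x : Vertex, (x ≠ n ∧ x ≠ o ∧ x ≠ p ∧ x ≠ s) → g n o p s x < 0 :=
          (G_nops).resolve_left fun h => by linarith [h m (by decide), F_mnop s (by decide), (s45 n o p s m), (s34 n o p m s), (s23 n o m p s), (s12 n m o p s)]
        have h113 : g d n o p s < 0 := by linarith [F_nops d (by decide), (s45 n o p s d), (s34 n o p d s), (s23 n o d p s), (s12 n d o p s)]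
        have e := gp d n s m o p t
        rw [(show g d n s m o = -g d m n o s by linarith [(s34 d n s m o), (s45 d n m s o), (s23 d n m o s)]),
          (show g d n s p t = -g d n p s t by linarith [(s34 d n s p t)]),
          (show g d n s m p = -g d m n p s by linarith [(s34 d n s m p), (s45 d n m s p), (s23 d n m p s)]),
          (show g d n s o t = -g d n o s t by linarith [(s34 d n s o t)]),
          (show g d n s m t = g d m n s t by linarith [(s34 d n s m t), (s23 d n m s t)]),
          (show g d n s o p = g d n o p s by linarith [(s34 d n s o p), (s45 d n o s p)])] at e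
        linarith [e, mul_neg_of_neg_of_pos h173 h569, mul_pos_of_neg_of_neg h120 h565, mul_neg_of_pos_of_neg h175 h113]

theorem contradiction₂_pos {g : Vertex → Vertex → Vertex → Vertex → Vertex → ℝ} (hg : Alt g)
    (F_abcd : ∀ x : Vertex, (x ≠ a ∧ x ≠ b ∧ x ≠ c ∧ x ≠ d) → 0 < g a b c d x)
    (fac : SignCondition facets₂ g) : False := by
  rcases fac m n o p (by simp [facets₂]) with h2 | h2
  · exact case₂_pp hg F_abcd h2 fac
  · exact case₂_pm hg F_abcd h2 fac

/-- there is no alternating function with the sign conditions for the second list -/
theorem contradiction₂ {g : Vertex → Vertex → Vertex → Vertex → Vertex → ℝ} (hg : Alt g)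
    (fac : SignCondition facets₂ g) : False := by
  rcases fac a b c d (by simp [facets₂]) with h | h
  · exact contradiction₂_pos hg h fac
  · exact contradiction₂_pos hg.neg (fun x hx => neg_pos.mpr (h x hx)) fac.neg

end Pool.Agent.Q143.MW
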