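import Mathlib

/-!
# The Mani–Walkup complex: definitions

The twelve vertices, the list of the 26 tetrahedra, simplicial complexes which contain them, and
polytopal complexes.
-/

set_option autoImplicit false

namespace Pool.Agent.Q143.MW

/-- the twelve vertices of the complex of Mani and Walkup -/
inductive Vertex
  | a | b | c | d | m | n | o | p | q | r | s | t
  deriving DecidableEq, Fintype

open Vertex

/-- the 26 tetrahedra of the complex `K`, as they are listed in the problem -/
def facets : List (Vertex × Vertex × Vertex × Vertex) :=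
  [(a, b, c, d), (a, b, c, r), (a, c, d, r), (a, b, d, t), (b, c, d, t), (a, b, m, r),
    (b, c, n, r), (c, d, o, r), (d, a, p, r), (a, b, m, t), (b, c, n, t), (c, d, o, t),
    (d, a, p, t), (m, n, o, p), (m, n, o, q), (m, o, p, q), (n, o, p, s), (m, n, p, s),
    (a, n, o, q), (b, o, p, q), (c, p, m, q), (d, m, r, q), (a, n, o, s), (b, o, p, s),
    (c, p, m, s), (d, m, r, s)]

/-- the same list with `dmnq`, `dmns` in place of `dmrq`, `dmrs`; this list is invariant under
`a → b → c → d → a`, `m → n → o → p → m`, `r ↔ t`, `q ↔ s` -/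
def facets₂ : List (Vertex × Vertex × Vertex × Vertex) :=
  [(a, b, c, d), (a, b, c, r), (a, c, d, r), (a, b, d, t), (b, c, d, t), (a, b, m, r),
    (b, c, n, r), (c, d, o, r), (d, a, p, r), (a, b, m, t), (b, c, n, t), (c, d, o, t),
    (d, a, p, t), (m, n, o, p), (m, n, o, q), (m, o, p, q), (n, o, p, s), (m, n, p, s),
    (a, n, o, q), (b, o, p, q), (c, p, m, q), (d, m, n, q), (a, n, o, s), (b, o, p, s),
    (c, p, m, s), (d, m, n, s)]

/-- the faces of the complex with the given tetrahedra: the nonempty sets of vertices which are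
contained in one of them -/
def facesOf (L : List (Vertex × Vertex × Vertex × Vertex)) : Set (Finset Vertex) :=
  {σ | σ.Nonempty ∧ ∃ x y z u, (x, y, z, u) ∈ L ∧ σ ⊆ {x, y, z, u}}

/-- the simplicial complex `T` contains (an isomorphic copy of) the complex with the given
tetrahedra as a subcomplex -/
def ContainsComplex {V : Type*} (T : AbstractSimplicialComplex V)
    (L : List (Vertex × Vertex × Vertex × Vertex)) : Prop :=
  ∃ ι : Vertex ↪ V, ∀ σ ∈ facesOf L, σ.map ι ∈ T.faces

/-- `P` is a convex polytope of dimension four in `ℝ⁴`: the convex hull of a finite set, with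
interior points -/
def IsPolytope (P : Set (EuclideanSpace ℝ (Fin 4))) : Prop :=
  (∃ S : Set (EuclideanSpace ℝ (Fin 4)), S.Finite ∧ P = convexHull ℝ S) ∧ (interior P).Nonempty

/-- the boundary complex of `P`: the vertex sets of the nonempty proper faces of `P` -/
def boundaryComplex (P : Set (EuclideanSpace ℝ (Fin 4))) :
    Set (Set (EuclideanSpace ℝ (Fin 4))) :=
  {A | ∃ F, IsExposed ℝ P F ∧ F.Nonempty ∧ F ≠ P ∧ A = Set.extremePoints ℝ P ∩ F}

/-- a simplicial complex is polytopal if it is isomorphic to the boundary complex of a convex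
polytope of dimension four -/
def IsPolytopal {V : Type*} (T : AbstractSimplicialComplex V) : Prop :=
  ∃ P : Set (EuclideanSpace ℝ (Fin 4)), IsPolytope P ∧
    ∃ φ : V → EuclideanSpace ℝ (Fin 4), Function.Injective φ ∧
      (fun σ : Finset V => φ '' (σ : Set V)) '' T.faces = boundaryComplex P

/-- alternating functions of five vertices with the three-term Grassmann–Plücker relations -/
def Alt (g : Vertex → Vertex → Vertex → Vertex → Vertex → ℝ) : Prop :=
  (∀ x y z u v, g x y z u v = -g y x z u v) ∧ (∀ x y z u v, g x y z u v = -g x z y u v) ∧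
  (∀ x y z u v, g x y z u v = -g x y u z v) ∧ (∀ x y z u v, g x y z u v = -g x y z v u) ∧
  ∀ x y z u₁ u₂ u₃ u₄, g x y z u₁ u₂ * g x y z u₃ u₄ - g x y z u₁ u₃ * g x y z u₂ u₄ +
    g x y z u₁ u₄ * g x y z u₂ u₃ = 0

/-- the sign condition for the given tetrahedra: all the other vertices lie strictly on one side
of the hyperplane of the tetrahedron -/
def SignCondition (L : List (Vertex × Vertex × Vertex × Vertex))
    (g : Vertex → Vertex → Vertex → Vertex → Vertex → ℝ) : Prop :=
  ∀ x y z u, (x, y, z, u) ∈ L →
    (∀ w : Vertex, (w ≠ x ∧ w ≠ y ∧ w ≠ z ∧ w ≠ u) → 0 < g x y z u w) ∨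
    (∀ w : Vertex, (w ≠ x ∧ w ≠ y ∧ w ≠ z ∧ w ≠ u) → g x y z u w < 0)

/-- the negative of an alternating function -/
theorem Alt.neg {g : Vertex → Vertex → Vertex → Vertex → Vertex → ℝ} (hg : Alt g) :
    Alt fun x y z u v => -g x y z u v := by
  obtain ⟨s12, s23, s34, s45, gp⟩ := hg
  refine ⟨?_, ?_, ?_, ?_, ?_⟩
  · intro x y z u v
    exact congrArg Neg.neg (s12 x y z u v)
  · intro x y z u v
    exact congrArg Neg.neg (s23 x y z u v)
  · intro x y z u v
    exact congrArg Neg.neg (s34 x y z u v)
  · intro x y z u v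
    exact congrArg Neg.neg (s45 x y z u v)
  · intro x y z u₁ u₂ u₃ u₄
    have := gp x y z u₁ u₂ u₃ u₄
    show -g x y z u₁ u₂ * -g x y z u₃ u₄ - -g x y z u₁ u₃ * -g x y z u₂ u₄ +
      -g x y z u₁ u₄ * -g x y z u₂ u₃ = 0
    linarith

/-- the sign condition for the negative function -/
theorem SignCondition.neg {L : List (Vertex × Vertex × Vertex × Vertex)}
    {g : Vertex → Vertex → Vertex → Vertex → Vertex → ℝ} (hg : SignCondition L g) :
    SignCondition L fun x y z u v => -g x y z u v := by
  intro x y z u hx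
  rcases hg x y z u hx with h' | h'
  · exact Or.inr fun w hw => neg_neg_of_pos (h' w hw)
  · exact Or.inl fun w hw => neg_pos.mpr (h' w hw)

end Pool.Agent.Q143.MW
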