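import Mathlib

/-!
# Determinants of five vectors and the three-term Grassmann–Plücker relations
-/

set_option autoImplicit false

namespace Pool.Agent.Q143.MW

/-- the determinant of five vectors of `ℝ⁵` -/
noncomputable def D (x y z u v : Fin 5 → ℝ) : ℝ := Matrix.det (Matrix.of ![x, y, z, u, v])

theorem D_swap (w : Fin 5 → Fin 5 → ℝ) {i j : Fin 5} (hij : i ≠ j) :
    Matrix.det (Matrix.of fun k => w (Equiv.swap i j k)) = -Matrix.det (Matrix.of w) := by
  have h := Matrix.det_permute (Equiv.swap i j) (Matrix.of w)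
  rw [Equiv.Perm.sign_swap hij] at h
  rw [show (Matrix.of fun k => w (Equiv.swap i j k)) =
    (Matrix.of w).submatrix (Equiv.swap i j) id from rfl, h]
  simp

theorem D_s12 (x y z u v : Fin 5 → ℝ) : D x y z u v = -D y x z u v := by
  have h := D_swap ![y, x, z, u, v] (i := 0) (j := 1) (by decide)
  have h2 : (fun k => ![y, x, z, u, v] (Equiv.swap (0 : Fin 5) 1 k)) = ![x, y, z, u, v] := by
    funext k; fin_cases k <;> rfl
  rw [h2] at h
  exact h

theorem D_s23 (x y z u v : Fin 5 → ℝ) : D x y z u v = -D x z y u v := by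
  have h := D_swap ![x, z, y, u, v] (i := 1) (j := 2) (by decide)
  have h2 : (fun k => ![x, z, y, u, v] (Equiv.swap (1 : Fin 5) 2 k)) = ![x, y, z, u, v] := by
    funext k; fin_cases k <;> rfl
  rw [h2] at h
  exact h

theorem D_s34 (x y z u v : Fin 5 → ℝ) : D x y z u v = -D x y u z v := by
  have h := D_swap ![x, y, u, z, v] (i := 2) (j := 3) (by decide)
  have h2 : (fun k => ![x, y, u, z, v] (Equiv.swap (2 : Fin 5) 3 k)) = ![x, y, z, u, v] := by
    funext k; fin_cases k <;> rfl
  rw [h2] at h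
  exact h

theorem D_s45 (x y z u v : Fin 5 → ℝ) : D x y z u v = -D x y z v u := by
  have h := D_swap ![x, y, z, v, u] (i := 3) (j := 4) (by decide)
  have h2 : (fun k => ![x, y, z, v, u] (Equiv.swap (3 : Fin 5) 4 k)) = ![x, y, z, u, v] := by
    funext k; fin_cases k <;> rfl
  rw [h2] at h
  exact h

/-- the determinant as a linear map of the last vector -/
theorem D_linear (x y z u : Fin 5 → ℝ) : ∃ φ : (Fin 5 → ℝ) →ₗ[ℝ] ℝ, ∀ v, D x y z u v = φ v := by
  have h2 : ∀ v, Function.update ![x, y, z, u, 0] 4 v = ![x, y, z, u, v] := by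
    intro v
    funext k
    fin_cases k <;> rfl
  have h3 : ∀ v, D x y z u v = Matrix.det (Matrix.updateRow (Matrix.of ![x, y, z, u, 0]) 4 v) := by
    intro v
    unfold D
    congr 1
    exact congrArg Matrix.of (h2 v).symm
  refine ⟨{ toFun := fun v => Matrix.det (Matrix.updateRow (Matrix.of ![x, y, z, u, 0]) 4 v)
            map_add' := fun v w => Matrix.det_updateRow_add _ _ _ _
            map_smul' := fun c v => Matrix.det_updateRow_smul _ _ _ _ }, fun v => h3 v⟩

theorem D_eq_zero {x y z u : Fin 5 → ℝ} {v w : Fin 5 → ℝ} (hw : w ≠ 0) (hx : x ⬝ᵥ w = 0)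
    (hy : y ⬝ᵥ w = 0) (hz : z ⬝ᵥ w = 0) (hu : u ⬝ᵥ w = 0) (hv : v ⬝ᵥ w = 0) :
    D x y z u v = 0 := by
  refine Matrix.exists_mulVec_eq_zero_iff.mp ⟨w, hw, ?_⟩
  funext k
  fin_cases k
  · exact hx
  · exact hy
  · exact hz
  · exact hu
  · exact hv

theorem D_self_last (x y z u : Fin 5 → ℝ) : D x y z u x = 0 := by
  refine Matrix.det_zero_of_row_eq (i := 0) (j := 4) (by decide) ?_
  rfl

theorem D_self_last2 (x y z u : Fin 5 → ℝ) : D x y z u y = 0 := by
  refine Matrix.det_zero_of_row_eq (i := 1) (j := 4) (by decide) ?_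
  rfl

theorem D_self_last3 (x y z u : Fin 5 → ℝ) : D x y z u z = 0 := by
  refine Matrix.det_zero_of_row_eq (i := 2) (j := 4) (by decide) ?_
  rfl

theorem cramer_row (M : Matrix (Fin 5) (Fin 5) ℝ) (d : Fin 5 → ℝ) :
    ∑ i, (M.updateRow i d).det • M i = M.det • d := by
  have h := Matrix.mulVec_cramer M.transpose d
  rw [Matrix.det_transpose] at h
  rw [← h]
  funext j
  rw [Finset.sum_apply]
  simp only [Matrix.mulVec, dotProduct, Matrix.transpose_apply, Pi.smul_apply, smul_eq_mul]
  refine Finset.sum_congr rfl fun i _ => ?_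
  rw [Matrix.cramer_transpose_apply]
  ring

theorem gp (x y z a b c d : Fin 5 → ℝ) :
    D x y z a b * D x y z c d - D x y z a c * D x y z b d + D x y z a d * D x y z b c = 0 := by
  obtain ⟨φ, hφ⟩ := D_linear x y z c
  have h := congrArg φ (cramer_row (Matrix.of ![x, y, z, a, b]) d)
  rw [map_sum, map_smul] at h
  simp only [map_smul] at h
  rw [Fin.sum_univ_five] at h
  have e0 : φ ((Matrix.of ![x, y, z, a, b]) 0) = 0 := by
    rw [← hφ]; exact D_self_last x y z c
  have e1 : φ ((Matrix.of ![x, y, z, a, b]) 1) = 0 := by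
    rw [← hφ]; exact D_self_last2 x y z c
  have e2 : φ ((Matrix.of ![x, y, z, a, b]) 2) = 0 := by
    rw [← hφ]; exact D_self_last3 x y z c
  have e3 : φ ((Matrix.of ![x, y, z, a, b]) 3) = D x y z c a := (hφ a).symm
  have e4 : φ ((Matrix.of ![x, y, z, a, b]) 4) = D x y z c b := (hφ b).symm
  have e5 : φ d = D x y z c d := (hφ d).symm
  have u3 : ((Matrix.of ![x, y, z, a, b]).updateRow 3 d).det = D x y z d b := by
    unfold D
    congr 1
    ext i j
    fin_cases i <;> rfl
  have u4 : ((Matrix.of ![x, y, z, a, b]).updateRow 4 d).det = D x y z a d := by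
    unfold D
    congr 1
    ext i j
    fin_cases i <;> rfl
  rw [e0, e1, e2, e3, e4, e5, u3, u4] at h
  simp only [smul_eq_mul, mul_zero, zero_add] at h
  have h' : D x y z d b * D x y z c a + D x y z a d * D x y z c b = D x y z a b * D x y z c d := h
  rw [D_s45 x y z d b, D_s45 x y z c a, D_s45 x y z c b] at h'
  linarith

/-- If a linear form `w` is zero at four linearly independent vectors then the determinant is a
nonzero multiple of the form. -/
theorem D_eq_mul {x y z u w : Fin 5 → ℝ} (hw : w ≠ 0) (hx : x ⬝ᵥ w = 0) (hy : y ⬝ᵥ w = 0)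
    (hz : z ⬝ᵥ w = 0) (hu : u ⬝ᵥ w = 0)
    (hind : ∀ r : Fin 4 → ℝ, r 0 • x + r 1 • y + r 2 • z + r 3 • u = 0 → r = 0) :
    ∃ κ : ℝ, κ ≠ 0 ∧ ∀ v, D x y z u v = κ * (v ⬝ᵥ w) := by
  have hww : 0 < w ⬝ᵥ w := by
    rcases lt_or_eq_of_le (show 0 ≤ w ⬝ᵥ w from
      Finset.sum_nonneg fun i _ => mul_self_nonneg (w i)) with h | h
    · exact h
    · exact absurd (dotProduct_self_eq_zero.mp h.symm) hw
  obtain ⟨φ, hφ⟩ := D_linear x y z u
  have hD : D x y z u w ≠ 0 := by
    intro h0
    obtain ⟨v, hv, hv2⟩ := Matrix.exists_vecMul_eq_zero_iff.mpr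
      (show Matrix.det (Matrix.of ![x, y, z, u, w]) = 0 from h0)
    have h3 : v 0 • x + v 1 • y + v 2 • z + v 3 • u + v 4 • w = 0 := by
      rw [← hv2]
      funext j
      simp [Matrix.vecMul, dotProduct, Fin.sum_univ_five]
    have h4 : v 4 = 0 := by
      have := congrArg (fun q => q ⬝ᵥ w) h3
      simp only [add_dotProduct, smul_dotProduct, hx, hy, hz, hu, mul_zero, zero_add,
        zero_dotProduct, smul_eq_mul] at this
      rcases mul_eq_zero.mp this with h | h
      · exact h
      · exact absurd h hww.ne'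
    have h5 := hind (fun i => v i.castSucc) (by
      rw [h4, zero_smul, add_zero] at h3
      exact h3)
    apply hv
    funext i
    refine Fin.lastCases h4 (fun k => congrFun h5 k) i
  refine ⟨D x y z u w / (w ⬝ᵥ w), div_ne_zero hD hww.ne', fun v => ?_⟩
  have h1 : D x y z u ((w ⬝ᵥ w) • v - (v ⬝ᵥ w) • w) = 0 := by
    refine D_eq_zero hw hx hy hz hu ?_
    rw [sub_dotProduct, smul_dotProduct, smul_dotProduct]
    simp only [smul_eq_mul]
    ring
  rw [hφ, map_sub, map_smul, map_smul, ← hφ, ← hφ, smul_eq_mul, smul_eq_mul] at h1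
  field_simp
  linarith

end Pool.Agent.Q143.MW
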